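import Pool.Agent.Helper46.LIN.L1B

/-! LIN1: below the fastest window of the slabs the depth of the forms of degree `D` is the depth of the sheets. -/

set_option autoImplicit false

namespace Pool.Agent.Helper46.LIN

open Finset Filter Topology Pool.Agent.Helper69.RK Pool.Agent.Helper31.EC Pool.Agent.Helper98.FR
open Pool.Agent.Helper40.EL Pool.Agent.Helper42.NS Pool.Agent.Helper91.GR
open Pool.Agent.Helper89.LX Pool.Agent.Helper80.MX
open Pool.Agent.Helper3.LF (lb)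

noncomputable section

open Sp QS

/-- windows: a sequence which is dense in an interval and contains the end points -/
theorem ex_windows {c c' : ℝ} (hcc : c < c') : ∃ q : ℕ → ℝ, q 0 = c ∧ q 1 = c' ∧ (∀ i, q i ∈ Set.Icc c c') ∧
    ∀ a a', c ≤ a → a < a' → a' ≤ c' → ∃ j, a < q j ∧ q j < a' := by
  haveI : Nonempty (Set.Icc c c') := ⟨⟨c, le_rfl, hcc.le⟩⟩
  obtain ⟨f, hf⟩ : ∃ f : ℕ → Set.Icc c c', f = TopologicalSpace.denseSeq (Set.Icc c c') := ⟨_, rfl⟩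
  have hd : DenseRange f := by rw [hf]; exact TopologicalSpace.denseRange_denseSeq _
  refine ⟨fun n => if n = 0 then c else if n = 1 then c' else (f (n - 2) : ℝ), ?_, ?_, ?_, ?_⟩
  · simp
  · simp
  · intro i
    show (if i = 0 then c else if i = 1 then c' else (f (i - 2) : ℝ)) ∈ Set.Icc c c'
    split_ifs
    · exact ⟨le_rfl, hcc.le⟩
    · exact ⟨hcc.le, le_rfl⟩
    · exact (f (i - 2)).2
  · intro a a' h1 h2 h3
    obtain ⟨U, hU⟩ : ∃ U : Set (Set.Icc c c'), U = (Subtype.val : Set.Icc c c' → ℝ) ⁻¹' Set.Ioo a a' := ⟨_, rfl⟩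
    have hU1 : IsOpen U := by rw [hU]; exact isOpen_Ioo.preimage continuous_subtype_val
    have hU2 : U.Nonempty := by
      rw [hU]
      exact ⟨⟨(a + a') / 2, by constructor <;> linarith⟩, by constructor <;> show _ < _ <;> simp <;> linarith⟩
    obtain ⟨j, hj⟩ := hd.exists_mem_open hU1 hU2
    rw [hU] at hj
    exact ⟨j + 2, by
      show a < (if j + 2 = 0 then c else if j + 2 = 1 then c' else (f (j + 2 - 2) : ℝ)) ∧
        (if j + 2 = 0 then c else if j + 2 = 1 then c' else (f (j + 2 - 2) : ℝ)) < a'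
      rw [if_neg (by omega), if_neg (by omega), Nat.add_sub_cancel]
      exact hj⟩

variable {S : Sp} {s : Sys S 3}

/-- LIN1: `lam`, `eta` = depths of the slabs and of the sheets of the windows of `[c, c']`; the slope `lam x - x` of the
slabs is larger at `c'` than at `c`; a form of degree `D` deeper than the sheet of `c` gives a deeper sheet of `c` on an
event of an extension -/
theorem lin1 {g : ℝ} (hg : 0 < g) (hr : Rich s g) {c c' : ℝ} (hc : 0 ≤ c) (hcc : c < c') (hc1 : c' ≤ 1)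
    {lam eta : ℝ → ℝ} (lam1 : ∀ x ∈ Set.Icc c c', lam x ≤ 1) (eta1 : ∀ x ∈ Set.Icc c c', eta x ≤ 1)
    (eta0 : ∀ x ∈ Set.Icc c c', 0 ≤ eta x) (xlam : ∀ x ∈ Set.Icc c c', x ≤ lam x)
    (slam : ∀ x ∈ Set.Icc c c', ∀ y ∈ Set.Icc c c', x ≤ y → lam x - x ≤ lam y - y)
    (seta : ∀ x ∈ Set.Icc c c', ∀ y ∈ Set.Icc c c', x ≤ y → eta x - x ≤ eta y - y)
    (hR : ∀ x ∈ Set.Icc c c', HH (SJ 1 {0, 1}) s x (lam x))
    (hz : ∀ x ∈ Set.Icc c c', HH (SJ 2 {0, 1, 2}) s x (eta x))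
    (full : ∀ x ∈ Set.Icc c c', ∀ l : Lab S, IsKap s x l → (1 - x) + (1 - lam x) ≤
      h (up1 l (TR.dg (TR.cor s.P 0) 1 ⊔ TR.dg (TR.cor s.P 1) 1)) (up1 l s.T))
    {D : ℕ} {σ : ℝ} (hf : Hf s D c σ) (hle : lam c ≤ eta c) (hσ : eta c < σ) (h1 : eta c < 1)
    (hlam : lam c - c < lam c' - c') (h3 : 0 < eta c' - c') :
    ∃ (T : Sp) (p : Pj T S) (E : ∀ k, (T.F k).Ω → Prop) (hE : 0 < ul (T.pr E)) (σ' : ℝ), eta c < σ' ∧ σ' ≤ 1 ∧
      HH (SJ 2 {0, 1, 2}) (s.im p E hE) c σ' := by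
  obtain ⟨q, q0, q1, hq, hdn⟩ := ex_windows hcc
  obtain ⟨x, hx, hgx⟩ := hf
  obtain ⟨L, hL⟩ : ∃ L : ℕ → Lab S, L = fun i => if i = 0 then lb x else kap s (q i) := ⟨_, rfl⟩
  have hL0 : L 0 = lb x := by rw [hL]; rfl
  have hLd : ∀ i, DMc s (q i) (L i) := by
    intro i
    rw [hL]
    show DMc s (q i) (if i = 0 then lb x else kap s (q i))
    by_cases hi : i = 0
    · rw [if_pos hi, hi, q0]
      exact hx.dm
    · rw [if_neg hi]
      exact (kap_isKap s (q i)).dm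
  obtain ⟨b⟩ := exists_box s q (fun i => lam (q i)) (fun i => eta (q i)) L (fun i => hc.trans (hq i).1)
    (fun i => (hq i).2.trans hc1) (fun i => lam1 _ (hq i)) (fun i => eta0 _ (hq i)) (fun i => eta1 _ (hq i))
    (fun i => xlam _ (hq i)) (fun i j h => slam _ (hq i) _ (hq j) h) (fun i j h => seta _ (hq i) _ (hq j) h)
    (fun i => hR _ (hq i)) (fun i => hz _ (hq i)) hLd (fun i l hl => full _ (hq i) l hl)
  obtain ⟨F⟩ : Nonempty (Fm b.bd 0 D σ) := by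
    apply fm_of_Hf b 0 hx hgx
    have := b.dom 0
    rwa [hL0] at this
  have hd : b.bd.Dn 0 (q 1) := by
    intro a a' h1 h2 h3
    have k1 : q 0 ≤ a := h1
    rw [q0] at k1
    rw [q1] at h3
    exact hdn a a' k1 h2 h3
  obtain ⟨E, hE, σ', k1, k2, k3⟩ := lin1_box b (i0 := 0) (i1 := 1) (by rw [q0, q1]; exact hcc.le) hg hr hd F
    (by show lam (q 0) ≤ eta (q 0); rw [q0]; exact hle) (by show eta (q 0) < σ; rw [q0]; exact hσ)
    (by show eta (q 0) < 1; rw [q0]; exact h1)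
    (by show lam (q 0) - q 0 < lam (q 1) - q 1; rw [q0, q1]; exact hlam)
    (by show 0 < eta (q 1) - q 1; rw [q1]; exact h3)
  have k1' : eta c < σ' := by
    have : eta (q 0) < σ' := k1
    rwa [q0] at this
  rw [q0] at k3
  exact ⟨_, (b.M.lab 0).pj, E, hE, σ', k1', k2, k3⟩

/-- LIN1 for systems in which sheets on events of extensions are sheets -/
theorem lin1_rob {g : ℝ} (hg : 0 < g) (hr : Rich s g) {c c' : ℝ} (hc : 0 ≤ c) (hcc : c < c') (hc1 : c' ≤ 1)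
    {lam eta : ℝ → ℝ} (lam1 : ∀ x ∈ Set.Icc c c', lam x ≤ 1) (eta1 : ∀ x ∈ Set.Icc c c', eta x ≤ 1)
    (eta0 : ∀ x ∈ Set.Icc c c', 0 ≤ eta x) (xlam : ∀ x ∈ Set.Icc c c', x ≤ lam x)
    (slam : ∀ x ∈ Set.Icc c c', ∀ y ∈ Set.Icc c c', x ≤ y → lam x - x ≤ lam y - y)
    (seta : ∀ x ∈ Set.Icc c c', ∀ y ∈ Set.Icc c c', x ≤ y → eta x - x ≤ eta y - y)
    (hR : ∀ x ∈ Set.Icc c c', HH (SJ 1 {0, 1}) s x (lam x))
    (hz : ∀ x ∈ Set.Icc c c', HH (SJ 2 {0, 1, 2}) s x (eta x))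
    (full : ∀ x ∈ Set.Icc c c', ∀ l : Lab S, IsKap s x l → (1 - x) + (1 - lam x) ≤
      h (up1 l (TR.dg (TR.cor s.P 0) 1 ⊔ TR.dg (TR.cor s.P 1) 1)) (up1 l s.T))
    (rob : ∀ (T : Sp) (p : Pj T S) (E : ∀ k, (T.F k).Ω → Prop) (hE : 0 < ul (T.pr E)) (σ' : ℝ),
      HH (SJ 2 {0, 1, 2}) (s.im p E hE) c σ' → HH (SJ 2 {0, 1, 2}) s c σ')
    (opt : ∀ σ' : ℝ, σ' ≤ 1 → HH (SJ 2 {0, 1, 2}) s c σ' → σ' ≤ eta c)
    {D : ℕ} {σ : ℝ} (hf : Hf s D c σ) (hle : lam c ≤ eta c) (h1 : eta c < 1)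
    (hlam : lam c - c < lam c' - c') (h3 : 0 < eta c' - c') : σ ≤ eta c := by
  by_contra hσ
  push Not at hσ
  obtain ⟨T, p, E, hE, σ', k1, k2, k3⟩ := lin1 hg hr hc hcc hc1 lam1 eta1 eta0 xlam slam seta hR hz full hf hle hσ h1
    hlam h3
  have := opt σ' k2 (rob T p E hE σ' k3)
  linarith

end

end Pool.Agent.Helper46.LIN
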