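import Pool.Agent.Helper31.EC.Uns

/-! The hypotheses of the LIN lemma (planar bushes, implicit sheets): a connected pair line / point of a space over a
label, coordinates `t`, `y`, `R`, `z`; the lines of the bush at a point lie in the plane with gradient `(k0, k1)`. -/

set_option autoImplicit false

namespace Pool.Agent.Helper46.LIN

open Pool.Agent.Helper69.RK Pool.Agent.Helper31.EC

noncomputable section

open Sp QS

/-- data -/
structure LD (S : Sp) where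
  t : QS S
  x : QS S
  a : QS S
  y : QS S
  X : QS S
  c : QS S
  R : QS S
  v : QS S
  e : QS S
  z : QS S
  k0 : QS S
  k1 : QS S
  iL : S.L
  B : S.L

/-- the point -/
def LD.P {S : Sp} (l : LD S) : Fin 4 → QS S := ![l.t, l.y, l.R, l.z]

/-- hypotheses -/
structure LH {S : Sp} (l : LD S) : Prop where
  hy : l.y = l.a + l.t * l.x
  hR : l.R = l.c + l.t * l.X
  hz : l.z = l.e + l.t * l.v
  hX : l.X = l.k0 + l.k1 * l.x
  La : dg l.a 1 ≤ l.iL
  Lx : dg l.x 1 ≤ l.iL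
  Lc : dg l.c 1 ≤ l.iL
  LX : dg l.X 1 ≤ l.iL
  Lv : dg l.v 1 ≤ l.iL
  Le : dg l.e 1 ≤ l.iL
  Bt : dg l.t 1 ≤ l.B
  By : dg l.y 1 ≤ l.B
  BR : dg l.R 1 ≤ l.B
  Bz : dg l.z 1 ≤ l.B
  Bk0 : dg l.k0 1 ≤ l.B
  Bk1 : dg l.k1 1 ≤ l.B
  time : h (dg l.t 1) l.iL = 1
  conn : ∀ (W : Sp) (p : Pj W S) (E : ∀ k, (W.F k).Ω → Prop) (hE : 0 < ul (W.pr E)) (V : (W.rest E).L),
    V ≤ restL E hE (p.map l.iL) → V ≤ restL E hE (p.map l.B) → V = ⊥
  rich : ∀ (W : Sp) (p : Pj W S) (E : ∀ k, (W.F k).Ω → Prop) (hE : 0 < ul (W.pr E)) (r : ℝ), 0 < r → r ≤ 1 →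
    0 < h (restL E hE (p.map (dg l.x r))) (restL E hE (p.map l.B))
  full : h (dg l.t 1 ⊔ dg l.y 1 ⊔ dg l.R 1) ⊥ = 3

/-- a constant form that vanishes at the point -/
structure LF {S : Sp} (l : LD S) (D : ℕ) (q : MvPolynomial (Fin 4) (QS S)) : Prop where
  deg : q.totalDegree ≤ D
  const : ∀ m, dg (q.coeff m) 1 = ⊥
  zero : MvPolynomial.eval l.P q = 0

/-- LIN: a constant form whose `z` derivative at the point is a unit: the point lies on a constant hyperplane -/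
def ST_LIN : Prop := ∀ (S : Sp) (l : LD S) (_ : LH l) (D : ℕ) (q : MvPolynomial (Fin 4) (QS S)) (_ : LF l D q)
  (_ : IsUnit (MvPolynomial.eval l.P (MvPolynomial.pderiv 3 q))),
  ∃ u : Fin 4 → QS S, (∀ i, dg (u i) 1 = ⊥) ∧ l.z = u 0 + u 1 * l.t + u 2 * l.y + u 3 * l.R

end

end Pool.Agent.Helper46.LIN
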