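import Pool.Agent.Helper46.LIN.L1T
import Pool.Agent.Helper79.LH.LinMain

/-! LIN1 in a box: a window whose form is deeper than the sheet, with a later window of a strictly larger slab slope,
has a deeper sheet on an event of an extension. -/

set_option autoImplicit false

namespace Pool.Agent.Helper46.LIN

open Finset Filter Topology Pool.Agent.Helper69.RK Pool.Agent.Helper31.EC Pool.Agent.Helper98.FR
open Pool.Agent.Helper40.EL Pool.Agent.Helper42.NS Pool.Agent.Helper91.GR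
open Pool.Agent.Helper89.LX Pool.Agent.Helper80.MX Pool.Agent.Helper80.HCI

noncomputable section

open Sp QS

variable {S : Sp} {s : Sys S 3} {q lam eta : ℕ → ℝ} {L : ℕ → Lab S} (b : Bx s q lam eta L) {i0 i1 : ℕ}
  {e : ℝ} (he : 0 < e)

/-- the point -/
def PBb : b.M.sp.L := (famPj b.M).map (lB s)

/-- everything -/
def Xb : b.M.sp.L := (famPj b.M).map (s.xi 1 ⊔ s.T)

theorem map_tr (f : TR S) (r : ℝ) : TR.dg ((famPj b.M).tr f) r = (famPj b.M).map (TR.dg f r) := Pj.tr_dg (famPj b.M) f r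

theorem leak_bx (hq : q i0 ≤ q i1) : I (chgL (b.bd.V i0) e he (K0 b.bd i1)) (chgL (b.bd.V i0) e he (Xb b))
    (chgL (b.bd.V i0) e he (PBb b)) = 0 := by
  have hF : Fnr (b.M.lab i0) (b.bd.V i1) := fun k ω ω' _ _ _ h => b.nest i0 i1 hq k h
  have h0 : ∀ {f : TR b.M.sp}, Lt (S := b.M.sp) (b.bd.V i1) f → chgL (b.bd.V i1) 1 one_pos (TR.dg f 1) = ⊥ :=
    fun hf => hf.chg_bot 1 one_pos 1
  have hK1 : chgL (b.bd.V i1) 1 one_pos (K0 b.bd i1) = ⊥ := by
    unfold K0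
    rw [chgL_sup, chgL_sup, chgL_sup, chgL_sup, h0 (b.bd.lr i1 1), h0 (b.bd.lr i1 2), h0 (b.bd.lc i1 1), h0 (b.bd.lc i1 2),
      h0 (b.bd.lc i1 3)]
    simp
  have hK : fb (b.M.lab i0) (b.bd.V i1) he (chgL (b.bd.V i0) e he (K0 b.bd i1)) = ⊥ :=
    chg_chg_bot (S := b.M.sp) (Z := b.bd.V i0) (Z' := b.bd.V i1) hF he hK1
  apply le_antisymm _ (I_nonneg _ _ _)
  rw [I_eq']
  have e1 : h ((b.M.lab i0).upL e he (s.xi 1 ⊔ s.T)) ((b.M.lab i0).upL e he (lB s)) = h (s.xi 1 ⊔ s.T) (lB s) / e := by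
    rw [upL_h, DMc.h_B (b.kap i0).dm le_rfl]
  have e2 : h (fb (b.M.lab i0) (b.bd.V i1) he ((b.M.lab i0).upL e he (s.xi 1 ⊔ s.T)))
      (fb (b.M.lab i0) (b.bd.V i1) he ((b.M.lab i0).upL e he (lB s))) = h (s.xi 1 ⊔ s.T) (lB s) / e := by
    rw [fb_h hF]
    congr 1
    exact DMc.h_B (l := b.M.lab i1) (b.kap i1).dm le_rfl
  have e3 : h (fb (b.M.lab i0) (b.bd.V i1) he ((b.M.lab i0).upL e he (s.xi 1 ⊔ s.T)))
      (fb (b.M.lab i0) (b.bd.V i1) he ((b.M.lab i0).upL e he (lB s))) ≤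
      h ((b.M.lab i0).upL e he (s.xi 1 ⊔ s.T)) (chgL (b.bd.V i0) e he (K0 b.bd i1) ⊔ (b.M.lab i0).upL e he (lB s)) :=
    fb_h_le_sup he hK
  have e4 : chgL (b.bd.V i0) e he (Xb b) = (b.M.lab i0).upL e he (s.xi 1 ⊔ s.T) := rfl
  have e5 : chgL (b.bd.V i0) e he (PBb b) = (b.M.lab i0).upL e he (lB s) := rfl
  rw [e4, e5]
  exact sub_nonpos.mpr (e1.le.trans (e2.symm.le.trans e3))

/-- INFORMATION FACTS -/
theorem nfo (hq : q i0 ≤ q i1) {g : ℝ} (hg : 0 < g) (hr : Rich s g) (he1 : e ≤ 1) :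
    Nfo b.bd b.ld i0 i1 e he (PBb b) (Xb b) where
  pt := (map_tr b (TR.cor s.t 0) 1).le.trans ((famPj b.M).map_mono ((TR.cor_dg_le s.t 0 1).trans (t_le_B s le_rfl)))
  py := (map_tr b (TR.cor s.P 0) 1).le.trans ((famPj b.M).map_mono ((TR.cor_dg_le s.P 0 1).trans (P_le_B s le_rfl)))
  pR := (map_tr b (TR.cor s.P 1) 1).le.trans ((famPj b.M).map_mono ((TR.cor_dg_le s.P 1 1).trans (P_le_B s le_rfl)))
  pz := (map_tr b (TR.cor s.P 2) 1).le.trans ((famPj b.M).map_mono ((TR.cor_dg_le s.P 2 1).trans (P_le_B s le_rfl)))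
  LX := (famPj b.M).map_mono le_sup_left
  leak := leak_bx b he hq
  cnn := by
    have hA : (b.M.lab i0).upL e he (lA s (q i0)) = (b.M.lab i0).upL e he (s.xi 1) := by
      have e2 : (b.M.lab i0).upL e he (s.t.dg (q i0)) = ⊥ := by
        have e3 := upL_H (l := b.M.lab i0) he (s.t.dg (q i0))
        rw [(b.kap i0).t_bot (b.q1 i0), H_bot, zero_div] at e3
        rw [← h_bot] at e3
        exact le_bot_iff.mp (h_eq_zero_iff.mp e3)
      unfold lA
      rw [Lab.upL_sup, e2, sup_bot_eq]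
    have h1 : Cnn ((b.M.lab i0).upL e he (lA s (q i0))) ((b.M.lab i0).upL e he (lB s))
        ((b.M.lab i0).upL e he (s.xi 1 ⊔ s.T)) := by
      apply cnn_over (IsKap_iff.mp (b.kap i0)) he
      · exact (b.M.lab i0).upL_mono e he (sup_le_sup_left (s.t.dg_mono (b.q1 i0)) _)
      · exact (b.M.lab i0).upL_mono e he (B_le s)
    rw [hA] at h1
    exact h1
  rich := by
    intro W p E hE r h0 h1
    have her : e * r ≤ 1 := by nlinarith
    have k1 := rich_ovr (l := b.M.lab i0) (hc := he) (p := p) (E := E) (hE := hE) (s := s) hr (b.kap i0).dm h0.le her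
    refine lt_of_lt_of_le (mul_pos hg h0) (k1.trans (h_mono (restL_mono E hE (p.map_mono ?_))))
    apply chgL_mono (b.bd.V i0) e he
    have k2 : s.x.dg (e * r) ≤ TR.dg (TR.cor s.x 0) (e * r) ⊔ TR.dg (TR.cor s.x 1) (e * r) ⊔ TR.dg (TR.cor s.x 2) (e * r) := by
      rw [TR.vv_dg_le_iff]
      intro i
      fin_cases i
      · exact le_sup_left.trans le_sup_left
      · exact le_sup_right.trans le_sup_left
      · exact le_sup_right
    refine ((famPj b.M).map_mono k2).trans ?_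
    rw [Pj.map_sup, Pj.map_sup, ← map_tr, ← map_tr, ← map_tr]
    exact le_rfl

theorem xl_le (r : ℝ) (hr : r ≤ 1) : TR.dg (b.ld.x 0) r ⊔ TR.dg (b.ld.x 1) r ⊔ TR.dg (b.ld.x 2) r ≤ b.ld.L := by
  have k : ∀ i, TR.dg (b.ld.x i) r ≤ b.ld.L := fun i => (TR.dg_mono _ hr).trans (b.ld.xL i)
  exact sup_le (sup_le (k 0) (k 1)) (k 2)

/-- LIN1 IN THE BOX -/
theorem lin1_box (hq : q i0 ≤ q i1) {g : ℝ} (hg : 0 < g) (hr : Rich s g) (hd : b.bd.Dn i0 (q i1))
    {D : ℕ} {σ : ℝ} (F : Fm b.bd i0 D σ) (hle : lam i0 ≤ eta i0) (hσ : eta i0 < σ) (h1 : eta i0 < 1)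
    (hlam : lam i0 - q i0 < lam i1 - q i1) (h3 : 0 < eta i1 - q i1) :
    ∃ (E : ∀ k, ((b.M.lab i0).sp.F k).Ω → Prop) (hE : 0 < ul ((b.M.lab i0).sp.pr E)) (σ' : ℝ), eta i0 < σ' ∧ σ' ≤ 1 ∧
      HH (SJ 2 {0, 1, 2}) (s.im (b.M.lab i0).pj E hE) (q i0) σ' := by
  obtain ⟨e, hed⟩ : ∃ e, e = min (min (σ - eta i0) (1 - eta i0)) ((lam i1 - q i1) - (lam i0 - q i0)) := ⟨_, rfl⟩
  have he : 0 < e := by
    rw [hed]
    exact lt_min (lt_min (by linarith) (by linarith)) (by linarith)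
  have e1 : e ≤ σ - eta i0 := by rw [hed]; exact (min_le_left _ _).trans (min_le_left _ _)
  have e2 : e ≤ 1 - eta i0 := by rw [hed]; exact (min_le_left _ _).trans (min_le_right _ _)
  have e3 : e ≤ (lam i1 - q i1) - (lam i0 - q i0) := by rw [hed]; exact min_le_right _ _
  have hη0 : 0 ≤ eta i0 := by
    have := b.q0 i0
    have := b.qlam i0
    linarith
  have he1 : e ≤ 1 := by linarith
  have hs : ∀ a : Fin 3, a ≠ 0 → QS.mk (b.bd.r i1 a) - QS.mk (b.bd.r i0 a) ∈ Id b.M.sp (b.bd.lam i0 - b.bd.q i0) :=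
    fun a ha => b.bd.slab hd hq le_rfl a ha
  have n := nfo b he hq hg hr he1
  have hl := lh (e := e) (he := he) hs n hle (by show eta i0 + e ≤ 1; linarith) e3 h3 (xl_le b)
  have hq' : LF (ld b.ld hs e he (PBb b)) D (qQ e he F) := by
    refine ⟨qQ_deg e he F, qQ_const e he F, ?_⟩
    have k1 := qQ_zero e he F hle e1
    have k2 : (ld b.ld hs e he (PBb b)).P = fun i => QS.mk (bx b.bd i0 e he i) := by
      funext i
      fin_cases i <;> rfl
    rw [k2]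
    exact k1
  obtain ⟨E, hE, d, hd0, hd1, u, hu, hz⟩ := lin2w Pool.Agent.Helper79.LH.st_lin hl hq'
    (fun E hE d h0 h1 => qQ_not e he F hle E hE d h0 h1)
  -- representatives
  have hu' : ∀ i, ∃ f : TR ((b.bd.Sj i0 e he).rest E), QS.mk f = u i := fun i => QS.mk_surj (u i)
  choose f hf using hu'
  have hy : (TR.vec f).dg d = ⊥ := by
    apply le_antisymm _ bot_le
    apply TR.vec_dg_le
    intro i
    rw [← dg_mk _ hd1, hf]
    exact (hu i).le
  have hz' : TR.Ag d (TR.rest (S := b.bd.Sj i0 e he) E (b.bd.zT i0 e he (b.bd.eta i0) le_rfl))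
      (TR.cor (TR.vec f) 0 + TR.cor (TR.vec f) 1 * TR.rest (S := b.bd.Sj i0 e he) E (b.bd.tT i0 e he) +
        TR.cor (TR.vec f) 2 * TR.rest (S := b.bd.Sj i0 e he) E (b.bd.yT i0 e he) +
        TR.cor (TR.vec f) 3 * TR.rest (S := b.bd.Sj i0 e he) E (b.bd.RT i0 e he)) := by
    have k1 : QS.rest E hE (QS.mk (b.bd.zT i0 e he (b.bd.eta i0) le_rfl)) - (u 0 + u 1 * QS.rest E hE (QS.mk (b.bd.tT i0 e he)) +
        u 2 * QS.rest E hE (QS.mk (b.bd.yT i0 e he)) + u 3 * QS.rest E hE (QS.mk (b.bd.RT i0 e he))) ∈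
        Id ((b.bd.Sj i0 e he).rest E) d := hz
    rw [← hf 0, ← hf 1, ← hf 2, ← hf 3, QS.rest_mk, QS.rest_mk, QS.rest_mk, QS.rest_mk, ← map_mul, ← map_mul, ← map_mul,
      ← map_add, ← map_add, ← map_add, ← map_sub, mk_mem_Id hd1] at k1
    have k2 := TR.Ag.add k1 (TR.Ag.refl d (f 0 + f 1 * TR.rest (S := b.bd.Sj i0 e he) E (b.bd.tT i0 e he) +
        f 2 * TR.rest (S := b.bd.Sj i0 e he) E (b.bd.yT i0 e he) + f 3 * TR.rest (S := b.bd.Sj i0 e he) E (b.bd.RT i0 e he)))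
    rw [sub_add_cancel, zero_add] at k2
    exact k2
  have hE' : 0 < ul ((b.M.lab i0).sp.pr E) := hE
  have hend := lin_end (l := b.M.lab i0) (B := b.bd) (i0 := i0) (e := e) (he := he) (s := s) (c := q i0) (b.kap i0).dm rfl
    ⟨fun _ _ => rfl, fun _ _ => rfl, fun _ _ => rfl, fun _ _ => rfl⟩ hle hE' hd0 hd1
    (by show eta i0 + e * d ≤ 1; nlinarith) (TR.vec f) hy hz'
  refine ⟨E, hE', eta i0 + e * d, by nlinarith [mul_pos he hd0], by nlinarith, hend⟩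

end

end Pool.Agent.Helper46.LIN
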