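import Pool.Agent.Helper46.LIN.L1Q
import Pool.Agent.Helper91.GR.Def

/-! The end of LIN1: a sheet in the box with constant coefficients is a sheet of a label of the window. -/

set_option autoImplicit false

namespace Pool.Agent.Helper46.LIN

open Finset Filter Topology Pool.Agent.Helper69.RK Pool.Agent.Helper31.EC Pool.Agent.Helper98.FR
open Pool.Agent.Helper40.EL Pool.Agent.Helper42.NS Pool.Agent.Helper91.GR
open Pool.Agent.Helper60.CS (typ_chg)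
open Pool.Agent.Helper3.LF (pl pl_zero pl_succ)

noncomputable section

open Sp QS

/-- rounding to the cells of side `δ` -/
def rnd (δ x : ℝ) : ℝ := (⌊x / δ⌋ : ℝ) * δ

theorem rnd_le {δ : ℝ} (hδ : 0 < δ) (x : ℝ) : |x - rnd δ x| ≤ δ := by
  have h1 := Int.floor_le (x / δ)
  have h2 := Int.lt_floor_add_one (x / δ)
  have e1 : x - rnd δ x = (x / δ - ⌊x / δ⌋) * δ := by
    unfold rnd
    field_simp
  rw [e1, abs_mul, abs_of_pos hδ, abs_of_nonneg (by linarith)]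
  nlinarith

variable {S : Sp} (l : Lab S) (B : BD l.sp) (i0 : ℕ) (e : ℝ) (he : 0 < e)

/-- the coefficients of the new sheet -/
def nsh (u : Fin 4 → ℝ) (k : ℕ) (ω : (l.sp.F k).Ω) : Cf 4 :=
  ((B.c i0 0).1 k ω + l.sp.dl (B.eta i0) k * u 0 - l.sp.dl (B.eta i0 - B.q i0) k * (u 1 * (B.tc i0).1 k ω +
    u 2 * (B.yc i0).1 k ω) - l.sp.dl (B.eta i0 - B.lam i0) k * u 3 * (B.r i0 0).1 k ω,
  ![(B.c i0 1).1 k ω + l.sp.dl (B.eta i0 - B.q i0) k * u 1 - l.sp.dl (B.eta i0 - B.lam i0) k * u 3 * (B.r i0 1).1 k ω,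
    (B.c i0 2).1 k ω + l.sp.dl (B.eta i0 - B.q i0) k * u 2 - l.sp.dl (B.eta i0 - B.lam i0) k * u 3 * (B.r i0 2).1 k ω,
    (B.c i0 3).1 k ω + l.sp.dl (B.eta i0 - B.lam i0) k * u 3, 0])

variable {l B i0 e he}

theorem nsh_eq {u : Fin 4 → ℝ} {k : ℕ} {ω : (l.sp.F k).Ω}
    (hf : (bp B i0 k ω).f (pb B i0 e he k ω) = pt B k ω) :
    B.z.1 k ω - ((nsh l B i0 u k ω).1 + ((nsh l B i0 u k ω).2 0 * B.t.1 k ω + (nsh l B i0 u k ω).2 1 * B.y.1 k ω +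
      (nsh l B i0 u k ω).2 2 * B.R.1 k ω)) = l.sp.dl (B.eta i0) k * (pb B i0 e he k ω 3 -
      (u 0 + u 1 * pb B i0 e he k ω 0 + u 2 * pb B i0 e he k ω 1 + u 3 * pb B i0 e he k ω 2)) := by
  obtain ⟨p, hp⟩ : ∃ p, p = pb B i0 e he k ω := ⟨_, rfl⟩
  rw [← hp] at hf ⊢
  have f0 : (B.tc i0).1 k ω + l.sp.dl (B.q i0) k * p 0 = B.t.1 k ω := congrFun hf 0
  have f1 : (B.yc i0).1 k ω + l.sp.dl (B.q i0) k * p 1 = B.y.1 k ω := congrFun hf 1
  have f2 : (B.r i0 0).1 k ω + (B.r i0 1).1 k ω * ((B.tc i0).1 k ω + l.sp.dl (B.q i0) k * p 0) +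
    (B.r i0 2).1 k ω * ((B.yc i0).1 k ω + l.sp.dl (B.q i0) k * p 1) + l.sp.dl (B.lam i0) k * p 2 = B.R.1 k ω :=
    congrFun hf 2
  have f3 : (B.c i0 0).1 k ω + (B.c i0 1).1 k ω * ((B.tc i0).1 k ω + l.sp.dl (B.q i0) k * p 0) +
    (B.c i0 2).1 k ω * ((B.yc i0).1 k ω + l.sp.dl (B.q i0) k * p 1) + (B.c i0 3).1 k ω * ((B.r i0 0).1 k ω +
    (B.r i0 1).1 k ω * ((B.tc i0).1 k ω + l.sp.dl (B.q i0) k * p 0) +
    (B.r i0 2).1 k ω * ((B.yc i0).1 k ω + l.sp.dl (B.q i0) k * p 1) + l.sp.dl (B.lam i0) k * p 2) +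
    l.sp.dl (B.eta i0) k * p 3 = B.z.1 k ω := congrFun hf 3
  have d1 : l.sp.dl (B.eta i0) k = l.sp.dl (B.eta i0 - B.q i0) k * l.sp.dl (B.q i0) k := by
    rw [← dl_add, sub_add_cancel]
  have d2 : l.sp.dl (B.eta i0) k = l.sp.dl (B.eta i0 - B.lam i0) k * l.sp.dl (B.lam i0) k := by
    rw [← dl_add, sub_add_cancel]
  have g1 : l.sp.dl (B.q i0) k * p 0 = B.t.1 k ω - (B.tc i0).1 k ω := by rw [← f0]; ring
  have g2 : l.sp.dl (B.q i0) k * p 1 = B.y.1 k ω - (B.yc i0).1 k ω := by rw [← f1]; ring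
  rw [f0, f1] at f2
  have g3 : l.sp.dl (B.lam i0) k * p 2 = B.R.1 k ω - ((B.r i0 0).1 k ω + (B.r i0 1).1 k ω * B.t.1 k ω +
    (B.r i0 2).1 k ω * B.y.1 k ω) := by rw [← f2]; ring
  rw [f0, f1, f2] at f3
  have g4 : l.sp.dl (B.eta i0) k * p 3 = B.z.1 k ω - ((B.c i0 0).1 k ω + (B.c i0 1).1 k ω * B.t.1 k ω +
    (B.c i0 2).1 k ω * B.y.1 k ω + (B.c i0 3).1 k ω * B.R.1 k ω) := by rw [← f3]; ring
  have s0 : (nsh l B i0 u k ω).1 = (B.c i0 0).1 k ω + l.sp.dl (B.eta i0) k * u 0 -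
    l.sp.dl (B.eta i0 - B.q i0) k * (u 1 * (B.tc i0).1 k ω + u 2 * (B.yc i0).1 k ω) -
    l.sp.dl (B.eta i0 - B.lam i0) k * u 3 * (B.r i0 0).1 k ω := rfl
  have s1 : (nsh l B i0 u k ω).2 0 = (B.c i0 1).1 k ω + l.sp.dl (B.eta i0 - B.q i0) k * u 1 -
    l.sp.dl (B.eta i0 - B.lam i0) k * u 3 * (B.r i0 1).1 k ω := rfl
  have s2 : (nsh l B i0 u k ω).2 1 = (B.c i0 2).1 k ω + l.sp.dl (B.eta i0 - B.q i0) k * u 2 -
    l.sp.dl (B.eta i0 - B.lam i0) k * u 3 * (B.r i0 2).1 k ω := rfl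
  have s3 : (nsh l B i0 u k ω).2 2 = (B.c i0 3).1 k ω + l.sp.dl (B.eta i0 - B.lam i0) k * u 3 := rfl
  rw [s0, s1, s2, s3]
  have t1 : l.sp.dl (B.eta i0) k * (p 3 - (u 0 + u 1 * p 0 + u 2 * p 1 + u 3 * p 2)) =
      l.sp.dl (B.eta i0) k * p 3 - l.sp.dl (B.eta i0) k * u 0 -
      l.sp.dl (B.eta i0 - B.q i0) k * u 1 * (l.sp.dl (B.q i0) k * p 0) -
      l.sp.dl (B.eta i0 - B.q i0) k * u 2 * (l.sp.dl (B.q i0) k * p 1) -
      l.sp.dl (B.eta i0 - B.lam i0) k * u 3 * (l.sp.dl (B.lam i0) k * p 2) := by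
    have r1 : l.sp.dl (B.eta i0 - B.q i0) k * u 1 * (l.sp.dl (B.q i0) k * p 0) = l.sp.dl (B.eta i0) k * (u 1 * p 0) := by
      rw [d1]; ring
    have r2 : l.sp.dl (B.eta i0 - B.q i0) k * u 2 * (l.sp.dl (B.q i0) k * p 1) = l.sp.dl (B.eta i0) k * (u 2 * p 1) := by
      rw [d1]; ring
    have r3 : l.sp.dl (B.eta i0 - B.lam i0) k * u 3 * (l.sp.dl (B.lam i0) k * p 2) =
        l.sp.dl (B.eta i0) k * (u 3 * p 2) := by
      rw [d2]; ring
    rw [r1, r2, r3]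
    ring
  rw [t1, g1, g2, g3, g4]
  ring

theorem nsh_slope {u : Fin 4 → ℝ} {k : ℕ} {ω : (l.sp.F k).Ω} {K : ℝ} (hK : 1 ≤ K) (hle : B.lam i0 ≤ B.eta i0)
    (hc : ∀ j, |(B.c i0 j).1 k ω| ≤ K) (hr : ∀ j, |(B.r i0 j).1 k ω| ≤ K) (hu : ∀ j, |u j| ≤ K) (j : Fin 4) :
    |(nsh l B i0 u k ω).2 j| ≤ 3 * K ^ 2 := by
  have hq := B.qlam i0
  have a1 : |l.sp.dl (B.eta i0 - B.q i0) k| ≤ 1 := by
    rw [abs_of_pos (l.sp.dl_pos _ _)]
    have := l.sp.dl_anti (show 0 ≤ B.eta i0 - B.q i0 by linarith) k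
    rwa [dl_zero] at this
  have a2 : |l.sp.dl (B.eta i0 - B.lam i0) k| ≤ 1 := by
    rw [abs_of_pos (l.sp.dl_pos _ _)]
    have := l.sp.dl_anti (show 0 ≤ B.eta i0 - B.lam i0 by linarith) k
    rwa [dl_zero] at this
  have b1 : ∀ j, |l.sp.dl (B.eta i0 - B.q i0) k * u j| ≤ K := fun j => by
    rw [abs_mul]
    calc _ ≤ 1 * K := mul_le_mul a1 (hu j) (abs_nonneg _) zero_le_one
      _ = K := one_mul _
  have b2 : ∀ j, |l.sp.dl (B.eta i0 - B.lam i0) k * u j| ≤ K := fun j => by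
    rw [abs_mul]
    calc _ ≤ 1 * K := mul_le_mul a2 (hu j) (abs_nonneg _) zero_le_one
      _ = K := one_mul _
  have b3 : ∀ j i, |l.sp.dl (B.eta i0 - B.lam i0) k * u j * (B.r i0 i).1 k ω| ≤ K ^ 2 := fun j i => by
    rw [abs_mul, pow_two]
    exact mul_le_mul (b2 j) (hr i) (abs_nonneg _) (by linarith)
  have hKK : K ≤ K ^ 2 := by nlinarith
  have c3 : ∀ x y z : ℝ, |x| ≤ K → |y| ≤ K → |z| ≤ K ^ 2 → |x + y - z| ≤ 3 * K ^ 2 := by
    intro x y z h1 h2 h3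
    have := abs_sub (x + y) z
    have := abs_add_le x y
    linarith
  fin_cases j
  · exact c3 _ _ _ (hc 1) (b1 1) (b3 3 1)
  · exact c3 _ _ _ (hc 2) (b1 2) (b3 3 2)
  · show |(B.c i0 3).1 k ω + l.sp.dl (B.eta i0 - B.lam i0) k * u 3| ≤ _
    have := abs_add_le ((B.c i0 3).1 k ω) (l.sp.dl (B.eta i0 - B.lam i0) k * u 3)
    have := hc 3
    have := b2 3
    linarith
  · show |(0 : ℝ)| ≤ _
    rw [abs_zero]
    positivity

/-- the equations between the functions of the box data and the system -/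
structure Eqs (s : Sys S 3) (l : Lab S) (B : BD l.sp) : Prop where
  t : ∀ k ω, B.t.1 k ω = s.t.v k ((l k).p.π ω) 0
  y : ∀ k ω, B.y.1 k ω = s.a.v k ((l k).p.π ω) 0 + s.t.v k ((l k).p.π ω) 0 * s.x.v k ((l k).p.π ω) 0
  R : ∀ k ω, B.R.1 k ω = s.a.v k ((l k).p.π ω) 1 + s.t.v k ((l k).p.π ω) 0 * s.x.v k ((l k).p.π ω) 1
  z : ∀ k ω, B.z.1 k ω = s.a.v k ((l k).p.π ω) 2 + s.t.v k ((l k).p.π ω) 0 * s.x.v k ((l k).p.π ω) 2

/-- partitions of zero rate -/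
theorem nul_W {E : ∀ k, (l.sp.F k).Ω → Prop} (hE : 0 < ul (l.sp.pr E)) (hV : B.V i0 = l.V)
    (y : ((B.Sj i0 e he).rest E).VV 4) {d : ℝ} (hy : y.dg d = ⊥) :
    Nul (Sp.im l.pj E) (fun k => h (fc (Setoid.ker (y.cellv d k)) : FL ((l.im E) k).T) ((l.im E) k).v) := by
  have h1 : H (y.dg d) = 0 := by rw [hy]; exact H_bot
  unfold VV.dg at h1
  rw [io_eq (y.bdd d), H_cl] at h1
  have h2 := ul_tendsto (UB_rt (y.bdd d).toInf ((B.Sj i0 e he).rest E).tr)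
  rw [h1] at h2
  have h3 := h2.const_mul e
  rw [mul_zero] at h3
  unfold Nul
  refine h3.congr fun k => ?_
  have e1 : h (fc (Setoid.ker (y.cellv d k)) : FL ((l.im E) k).T) ((l.im E) k).v =
      ((l.im E) k).T.e (Setoid.ker (y.cellv d k)) ((l k).V ⊓ (l k).T.Z) := h_fc _ _
  have e2 : ((B.Sj i0 e he).rest E).rt (y.bdd d).toInf.1 ((B.Sj i0 e he).rest E).tr k =
      ((l.im E) k).T.e (Setoid.ker (y.cellv d k)) (⊤ ⊓ (B.V i0 k ⊓ (l k).T.Z)) / (e * (l k).T.n) := rfl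
  have e3 : ((Sp.im l.pj E).F k).n = (l k).T.n := (l k).hn.symm
  have e4 : B.V i0 k = (l k).V := congrFun hV k
  rw [e4, top_inf_eq] at e2
  have hn := (l k).T.pos
  refine (congrArg (e * ·) e2).trans ?_
  refine Eq.trans ?_ (congrArg₂ (· / ·) e1 e3).symm
  field_simp

/-- THE END: constants `u` with `z = u0 + u1 t + u2 y + u3 R` up to `2 ^ (-d e n)` in the box, on an event: a sheet of
depth `eta + e d` of the restricted system -/
theorem lin_end {s : Sys S 3} {c : ℝ} (hl : DMc s c l) (hV : B.V i0 = l.V) (q : Eqs s l B)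
    (hle : B.lam i0 ≤ B.eta i0) {E : ∀ k, (l.sp.F k).Ω → Prop} (hE : 0 < ul (l.sp.pr E)) {d : ℝ} (hd : 0 < d)
    (hd1 : d ≤ 1) (h1 : B.eta i0 + e * d ≤ 1) (y : ((B.Sj i0 e he).rest E).VV 4) (hy : y.dg d = ⊥)
    (hz : TR.Ag d (TR.rest (S := B.Sj i0 e he) E (B.zT i0 e he (B.eta i0) le_rfl)) (TR.cor y 0 +
      TR.cor y 1 * TR.rest (S := B.Sj i0 e he) E (B.tT i0 e he) + TR.cor y 2 * TR.rest (S := B.Sj i0 e he) E (B.yT i0 e he) +
      TR.cor y 3 * TR.rest (S := B.Sj i0 e he) E (B.RT i0 e he))) :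
    HH (SJ 2 {0, 1, 2}) (s.im l.pj E hE) c (B.eta i0 + e * d) := by
  classical
  have hη0 : 0 ≤ B.eta i0 := (B.lam0 i0).trans hle
  have h0 : 0 ≤ B.eta i0 + e * d := by positivity
  -- the label
  obtain ⟨W, hW⟩ : ∃ W : ∀ k, Setoid ((l.im E) k).T.Ω, W = fun k => Setoid.ker (y.cellv d k) := ⟨_, rfl⟩
  have hN := nul_W (B := B) (e := e) (he := he) hE hV y hy
  have hdm : DMc (s.im l.pj E hE) c (l.im E) := Lab.DM.im hl E hE
  have hN' : Nul (Sp.im l.pj E) (fun k => h (fc (W k) : FL ((l.im E) k).T) ((l.im E) k).v) := by rw [hW]; exact hN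
  have hdm' : DMc (s.im l.pj E hE) c ((l.im E).addW W) := by
    refine ⟨(hdm.1.add hN').of_le (Eventually.of_forall fun k => FLab.leak_nonneg _ _)
      (Eventually.of_forall fun k => ?_), (hdm.2.add hN').of_le (Eventually.of_forall fun k => FLab.leak_nonneg _ _)
      (Eventually.of_forall fun k => ?_)⟩
    · refine (((l.im E) k).addW_leak_le (W k) _).trans ?_
      exact add_le_add le_rfl (h_anti le_sup_left)
    · refine (((l.im E) k).addW_leak_le (W k) _).trans ?_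
      exact add_le_add le_rfl (h_anti le_sup_left)
  -- the rounded coefficients
  obtain ⟨u, hu⟩ : ∃ u : ∀ k, (l.sp.F k).Ω → Fin 4 → ℝ, u = fun k ω i => (y.cellv d k ω i : ℝ) * l.sp.dl (e * d) k :=
    ⟨_, rfl⟩
  have hdd : ∀ k, ((B.Sj i0 e he).rest E).dl d k = l.sp.dl (e * d) k := fun k => chg_dl (B.V i0) e he d k
  have hur : ∀ k ω i, |y.v k ω i - u k ω i| ≤ l.sp.dl (e * d) k := by
    intro k ω i
    have g1 := rnd_le (l.sp.dl_pos (e * d) k) (y.v k ω i)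
    have g2 : rnd (l.sp.dl (e * d) k) (y.v k ω i) = u k ω i := by
      rw [hu]
      have g3 : y.cellv d k ω i = ⌊y.v k ω i / l.sp.dl (e * d) k⌋ := by
        rw [← hdd]; rfl
      show _ = (y.cellv d k ω i : ℝ) * _
      rw [g3]
      rfl
    rwa [g2] at g1
  have hdle : ∀ k, l.sp.dl (e * d) k ≤ 1 := fun k => by
    have := l.sp.dl_anti (show 0 ≤ e * d by positivity) k
    rwa [dl_zero] at this
  -- literal measurability
  have h3 : ∀ᶠ k in UF, ∀ j : Fin 3, ∀ ω ω', (l.sp.F k).μ ω ≠ 0 → (l.sp.F k).μ ω' ≠ 0 →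
    B.V i0 k ω ω' → (l.sp.F k).Z ω ω' → (B.r i0 j).1 k ω = (B.r i0 j).1 k ω' := eventually_all.mpr fun j => B.lr i0 j
  have h4 : ∀ᶠ k in UF, ∀ j : Fin 4, ∀ ω ω', (l.sp.F k).μ ω ≠ 0 → (l.sp.F k).μ ω' ≠ 0 →
    B.V i0 k ω ω' → (l.sp.F k).Z ω ω' → (B.c i0 j).1 k ω = (B.c i0 j).1 k ω' := eventually_all.mpr fun j => B.lc i0 j
  have hme : ∀ᶠ k in UF, ∀ ω ω', ((l.sp.F k).rest (E k)).μ ω ≠ 0 → ((l.sp.F k).rest (E k)).μ ω' ≠ 0 →
      ((l k).V ⊓ W k) ω ω' → (l k).T.Z ω ω' → nsh l B i0 (u k ω) k ω = nsh l B i0 (u k ω') k ω' := by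
    filter_upwards [B.lt i0, B.ly i0, h3, h4] with k a2 a3 a4 a5 ω ω' c1 c2 g z
    have c1' := ((l.sp.F k).rest_supp (E k) ω c1).1
    have c2' := ((l.sp.F k).rest_supp (E k) ω' c2).1
    have gV : B.V i0 k ω ω' := by rw [hV]; exact g.1
    have gW : y.cellv d k ω = y.cellv d k ω' := by
      have := g.2
      rw [hW] at this
      exact this
    have b1 := a2 ω ω' c1' c2' gV z
    have b2 := a3 ω ω' c1' c2' gV z
    have b3 : u k ω = u k ω' := by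
      rw [hu]
      funext i
      show (y.cellv d k ω i : ℝ) * _ = (y.cellv d k ω' i : ℝ) * _
      rw [gW]
    unfold nsh
    rw [b3, b1, b2, a4 0 ω ω' c1' c2' gV z, a4 1 ω ω' c1' c2' gV z, a4 2 ω ω' c1' c2' gV z,
      a5 0 ω ω' c1' c2' gV z, a5 1 ω ω' c1' c2' gV z, a5 2 ω ω' c1' c2' gV z, a5 3 ω ω' c1' c2' gV z]
  obtain ⟨P, hP⟩ : ∃ P : ℕ → Prop, P = fun k => ∀ ω ω', ((l.sp.F k).rest (E k)).μ ω ≠ 0 →
      ((l.sp.F k).rest (E k)).μ ω' ≠ 0 → ((l k).V ⊓ W k) ω ω' → (l k).T.Z ω ω' →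
      nsh l B i0 (u k ω) k ω = nsh l B i0 (u k ω') k ω' := ⟨_, rfl⟩
  have hPe : ∀ᶠ k in UF, P k := by rw [hP]; exact hme
  obtain ⟨v, hv⟩ : ∃ v : ∀ k, ((l.im E) k).T.Ω → Cf 4, v = fun k ω => if P k then nsh l B i0 (u k ω) k ω else (0, 0) :=
    ⟨_, rfl⟩
  -- bounds
  obtain ⟨K1, hK1, b1⟩ := tr_bd_fin (B.r i0)
  obtain ⟨K2, hK2, b2⟩ := tr_bd_fin (B.c i0)
  obtain ⟨K3, hK3, b3⟩ := tr_bd_fin (bx B i0 e he)
  obtain ⟨K4, hK4, b4⟩ := y.bd
  obtain ⟨A, K5, hA, hK5, b5⟩ := hz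
  have hK3' : l.sp.Sub K3 := sub_of_chg' e he (B.V i0) hK3
  have hK4' : l.sp.Sub K4 := sub_of_chg' e he (B.V i0) hK4
  have hK5' : l.sp.Sub K5 := sub_of_chg' e he (B.V i0) hK5
  have one : l.sp.Sub (fun _ => (1 : ℝ)) := l.sp.Sub_const zero_le_one
  have hKa : l.sp.Sub (fun k => 2 + (K1 k + (K2 k + K4 k))) := (l.sp.Sub_const zero_le_two).add (hK1.add (hK2.add hK4'))
  have hKb : l.sp.Sub (fun k => K5 k + (1 + 3 * K3 k)) := hK5'.add (one.add ((l.sp.Sub_const (by norm_num)).mul hK3'))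
  have hKc : l.sp.Sub (fun k => 3 * (2 + (K1 k + (K2 k + K4 k))) ^ 2 + (K5 k + (1 + 3 * K3 k))) :=
    ((l.sp.Sub_const (by norm_num)).mul (Pool.Agent.Helper89.LX.Sub_pow' hKa 2)).add hKb
  refine HH_of_Sht (l := (l.im E).addW W) (v := v) h0 h1 hdm' ⟨fun k ω ω' a b c' z => ?_, _,
    (Pool.Agent.Helper3.LF.sp_Sub l).mp hKc, ?_, ?_⟩
  · show v k ω = v k ω'
    rw [hv]
    show (if P k then nsh l B i0 (u k ω) k ω else (0, 0)) = if P k then nsh l B i0 (u k ω') k ω' else (0, 0)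
    by_cases hPk : P k
    · rw [if_pos hPk, if_pos hPk]
      rw [hP] at hPk
      exact hPk ω ω' a b c' z
    · rw [if_neg hPk, if_neg hPk]
  · filter_upwards [hPe, b1, b2, b4, hK1.1, hK2.1, hK4.1, hKb.1] with k g1 g2 g3 g4 k1 k2 k4 kb ω hω j
    have hω' : (l.sp.F k).μ ω ≠ 0 := ((l.sp.F k).rest_supp (E k) ω hω).1
    have e1 : v k ω = nsh l B i0 (u k ω) k ω := by
      rw [hv]; exact if_pos g1
    have e2 := nsh_slope (l := l) (B := B) (i0 := i0) (u := u k ω) (k := k) (ω := ω) (K := 2 + (K1 k + (K2 k + K4 k)))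
      (by linarith) hle (fun j => (g3 ω hω' j).trans (by linarith)) (fun j => (g2 ω hω' j).trans (by linarith))
      (fun j => by
        have f1 := hur k ω j
        have f2 := g4 ω hω j
        have f3 := hdle k
        have f4 : |u k ω j| ≤ |y.v k ω j| + |y.v k ω j - u k ω j| := by
          have := abs_sub (y.v k ω j) (y.v k ω j - u k ω j)
          rwa [sub_sub_cancel] at this
        linarith) j
    show |(v k ω).2 j| ≤ 3 * (2 + (K1 k + (K2 k + K4 k))) ^ 2 + (K5 k + (1 + 3 * K3 k))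
    rw [e1]
    exact e2.trans (by linarith)
  · have hf : Typ (S := (B.Sj i0 e he).rest E) (fun k ω => (bp B i0 k ω).f (pb B i0 e he k ω) = pt B k ω) :=
      Typ.rest (S := B.Sj i0 e he) E hE (typ_chg (B.V i0) e he (f_typ B i0 e he))
    refine (hf.and hA).mono (S := (B.Sj i0 e he).rest E) ?_
    have hsq : ∀ᶠ k in UF, 0 ≤ 3 * (2 + (K1 k + (K2 k + K4 k))) ^ 2 := Eventually.of_forall fun k => by positivity
    filter_upwards [hPe, b3, b5, hsq, hK3.1] with k g1 g3 g5 ks k3 ω hω hh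
    have hω' : (l.sp.F k).μ ω ≠ 0 := ((l.sp.F k).rest_supp (E k) ω hω).1
    have e1 : v k ω = nsh l B i0 (u k ω) k ω := by
      rw [hv]; exact if_pos g1
    have e2 : dfl (s.im l.pj E hE) 2 {0, 1, 2} ((l.im E).addW W) v k ω = B.z.1 k ω - ((nsh l B i0 (u k ω) k ω).1 +
        ((nsh l B i0 (u k ω) k ω).2 0 * B.t.1 k ω + (nsh l B i0 (u k ω) k ω).2 1 * B.y.1 k ω +
        (nsh l B i0 (u k ω) k ω).2 2 * B.R.1 k ω)) := by
      unfold dfl
      rw [e1]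
      unfold df aff
      have e3 : ∑ j ∈ ({0, 1, 2} : Finset (Fin 4)), (nsh l B i0 (u k ω) k ω).2 j *
          pl ((s.im l.pj E hE).a.v k (((l.im E).addW W k).p.π ω)) ((s.im l.pj E hE).x.v k (((l.im E).addW W k).p.π ω))
            ((s.im l.pj E hE).t.v k (((l.im E).addW W k).p.π ω) 0) j =
          (nsh l B i0 (u k ω) k ω).2 0 * B.t.1 k ω + (nsh l B i0 (u k ω) k ω).2 1 * B.y.1 k ω +
        (nsh l B i0 (u k ω) k ω).2 2 * B.R.1 k ω := by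
        rw [Finset.sum_insert (by decide), Finset.sum_insert (by decide), Finset.sum_singleton]
        rw [q.t, q.y, q.R]
        rw [add_assoc]
        rfl
      rw [e3, q.z]
      rfl
    have e4 := nsh_eq (l := l) (B := B) (i0 := i0) (e := e) (he := he) (u := u k ω) hh.1
    have e5 : |(B.zT i0 e he (B.eta i0) le_rfl).1 k ω - (y.v k ω 0 + y.v k ω 1 * (B.tT i0 e he).1 k ω +
        y.v k ω 2 * (B.yT i0 e he).1 k ω + y.v k ω 3 * (B.RT i0 e he).1 k ω)| ≤ K5 k * l.sp.dl (e * d) k := by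
      have := g5 ω hω hh.2
      rw [hdd] at this
      exact this
    obtain ⟨p, hp⟩ : ∃ p, p = pb B i0 e he k ω := ⟨_, rfl⟩
    have p0 : (B.tT i0 e he).1 k ω = p 0 := by rw [hp]; rfl
    have p1 : (B.yT i0 e he).1 k ω = p 1 := by rw [hp]; rfl
    have p2 : (B.RT i0 e he).1 k ω = p 2 := by rw [hp]; rfl
    have p3 : (B.zT i0 e he (B.eta i0) le_rfl).1 k ω = p 3 := by rw [hp]; rfl
    have pK : ∀ i, |p i| ≤ K3 k := fun i => by rw [hp]; exact g3 ω hω' i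
    rw [p0, p1, p2, p3] at e5
    rw [← hp] at e4
    have e6 : |p 3 - (u k ω 0 + u k ω 1 * p 0 + u k ω 2 * p 1 + u k ω 3 * p 2)| ≤
        (K5 k + (1 + 3 * K3 k)) * l.sp.dl (e * d) k := by
      have r0 := hur k ω 0
      have r1 := hur k ω 1
      have r2 := hur k ω 2
      have r3 := hur k ω 3
      have hdp := l.sp.dl_pos (e * d) k
      have m : ∀ (x w : ℝ), |x| ≤ l.sp.dl (e * d) k → |w| ≤ K3 k → |x * w| ≤ K3 k * l.sp.dl (e * d) k := by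
        intro x w hx hw
        rw [abs_mul, mul_comm]
        exact mul_le_mul hw hx (abs_nonneg _) k3
      have m1 := m _ _ r1 (pK 0)
      have m2 := m _ _ r2 (pK 1)
      have m3 := m _ _ r3 (pK 2)
      have e7 : p 3 - (u k ω 0 + u k ω 1 * p 0 + u k ω 2 * p 1 + u k ω 3 * p 2) =
          (p 3 - (y.v k ω 0 + y.v k ω 1 * p 0 + y.v k ω 2 * p 1 + y.v k ω 3 * p 2)) + (y.v k ω 0 - u k ω 0) +
          (y.v k ω 1 - u k ω 1) * p 0 + (y.v k ω 2 - u k ω 2) * p 1 + (y.v k ω 3 - u k ω 3) * p 2 := by ring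
      rw [e7]
      obtain ⟨w0, hw0⟩ : ∃ w0, w0 = p 3 - (y.v k ω 0 + y.v k ω 1 * p 0 + y.v k ω 2 * p 1 + y.v k ω 3 * p 2) := ⟨_, rfl⟩
      rw [← hw0] at e5 ⊢
      have s1 := abs_add_le (w0 + (y.v k ω 0 - u k ω 0) + (y.v k ω 1 - u k ω 1) * p 0 + (y.v k ω 2 - u k ω 2) * p 1)
        ((y.v k ω 3 - u k ω 3) * p 2)
      have s2 := abs_add_le (w0 + (y.v k ω 0 - u k ω 0) + (y.v k ω 1 - u k ω 1) * p 0) ((y.v k ω 2 - u k ω 2) * p 1)
      have s3 := abs_add_le (w0 + (y.v k ω 0 - u k ω 0)) ((y.v k ω 1 - u k ω 1) * p 0)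
      have s4 := abs_add_le w0 (y.v k ω 0 - u k ω 0)
      nlinarith
    show |dfl (s.im l.pj E hE) 2 {0, 1, 2} ((l.im E).addW W) v k ω| ≤
      (3 * (2 + (K1 k + (K2 k + K4 k))) ^ 2 + (K5 k + (1 + 3 * K3 k))) * (Sp.im l.pj E).dl (B.eta i0 + e * d) k
    have e8 : (Sp.im l.pj E).dl (B.eta i0 + e * d) k = l.sp.dl (B.eta i0) k * l.sp.dl (e * d) k := by
      rw [← dl_add]
      exact (Pool.Agent.Helper3.LF.sp_dl l _ k).symm
    rw [e2, e4, e8, abs_mul, abs_of_pos (l.sp.dl_pos _ _)]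
    have hη := l.sp.dl_pos (B.eta i0) k
    have hdp := l.sp.dl_pos (e * d) k
    calc l.sp.dl (B.eta i0) k * |p 3 - (u k ω 0 + u k ω 1 * p 0 + u k ω 2 * p 1 + u k ω 3 * p 2)| ≤
        l.sp.dl (B.eta i0) k * ((K5 k + (1 + 3 * K3 k)) * l.sp.dl (e * d) k) := mul_le_mul_of_nonneg_left e6 hη.le
      _ = (K5 k + (1 + 3 * K3 k)) * (l.sp.dl (B.eta i0) k * l.sp.dl (e * d) k) := by ring
      _ ≤ _ := by
        apply mul_le_mul_of_nonneg_right _ (mul_pos hη hdp).le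
        linarith

end

end Pool.Agent.Helper46.LIN
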