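import Pool.Agent.Helper46.LIN.L1Pol
import Pool.Agent.Helper46.LIN.Def
import Pool.Agent.Helper98.FR.Vel
import Pool.Agent.Helper89.LX.Frm
import Pool.Agent.Helper3.LF.Spd

/-! The normalised form in the box of a window: constant coefficients, the largest one is `1`, small at the point. -/

set_option autoImplicit false

namespace Pool.Agent.Helper46.LIN

open Finset Filter Topology Pool.Agent.Helper69.RK Pool.Agent.Helper31.EC Pool.Agent.Helper98.FR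
open Pool.Agent.Helper3.LF Matrix
open Pool.Agent.Helper95.LF (PdM)
open Pool.Agent.Helper60.CS (eval_mon eval_sum_mon degree_sum_mon typ_chg Sub_sum)

noncomputable section

open Sp QS

variable {S : Sp} (B : BD S) (i0 : ℕ)

/-- parameters of the box -/
def bp (k : ℕ) (ω : (S.F k).Ω) : Bp :=
  ⟨(B.tc i0).1 k ω, (B.yc i0).1 k ω, fun a => (B.r i0 a).1 k ω, fun a => (B.c i0 a).1 k ω, S.dl (B.q i0) k,
    S.dl (B.lam i0) k, S.dl (B.eta i0) k⟩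

/-- the point -/
def pt (k : ℕ) (ω : (S.F k).Ω) : Fin 4 → ℝ := ![B.t.1 k ω, B.y.1 k ω, B.R.1 k ω, B.z.1 k ω]

variable (e : ℝ) (he : 0 < e)

/-- the coordinates in the box -/
def bx : Fin 4 → TR (B.Sj i0 e he) := ![B.tT i0 e he, B.yT i0 e he, B.RT i0 e he, B.zT i0 e he (B.eta i0) le_rfl]

/-- the coordinates in the box, at a point -/
def pb (k : ℕ) (ω : (S.F k).Ω) (i : Fin 4) : ℝ := (bx B i0 e he i).1 k ω

theorem f_typ : Typ (S := S) (fun k ω => (bp B i0 k ω).f (pb B i0 e he k ω) = pt B k ω) := by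
  refine ((((nf_typ (hr := B.q1 i0) (hf := B.T_mem i0) (Z := B.V i0) (e := e) (he := he)).and
    (nf_typ (hr := B.q1 i0) (hf := B.Y_mem i0) (Z := B.V i0) (e := e) (he := he))).and
    (nf_typ (hr := B.lam1 i0) (hf := B.Rr_mem i0) (Z := B.V i0) (e := e) (he := he))).and
    (nf_typ (hr := le_rfl.trans (B.eta1 i0)) (hf := Id_anti le_rfl (B.Zr_mem i0)) (Z := B.V i0) (e := e)
    (he := he))).mono (Eventually.of_forall fun k ω _ hh => ?_)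
  obtain ⟨⟨⟨h1, h2⟩, h3⟩, h4⟩ := hh
  have g1 : B.t.1 k ω - (B.tc i0).1 k ω = S.dl (B.q i0) k * (B.tT i0 e he).1 k ω := h1
  have g2 : B.y.1 k ω - (B.yc i0).1 k ω = S.dl (B.q i0) k * (B.yT i0 e he).1 k ω := h2
  have g3 : B.R.1 k ω - ((B.r i0 0).1 k ω + (B.r i0 1).1 k ω * B.t.1 k ω + (B.r i0 2).1 k ω * B.y.1 k ω) =
    S.dl (B.lam i0) k * (B.RT i0 e he).1 k ω := h3
  have g4 : B.z.1 k ω - ((B.c i0 0).1 k ω + (B.c i0 1).1 k ω * B.t.1 k ω + (B.c i0 2).1 k ω * B.y.1 k ω +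
    (B.c i0 3).1 k ω * B.R.1 k ω) = S.dl (B.eta i0) k * (B.zT i0 e he (B.eta i0) le_rfl).1 k ω := h4
  have f1 : (B.tc i0).1 k ω + S.dl (B.q i0) k * (B.tT i0 e he).1 k ω = B.t.1 k ω := by rw [← g1]; ring
  have f2 : (B.yc i0).1 k ω + S.dl (B.q i0) k * (B.yT i0 e he).1 k ω = B.y.1 k ω := by rw [← g2]; ring
  have f3 : (B.r i0 0).1 k ω + (B.r i0 1).1 k ω * B.t.1 k ω + (B.r i0 2).1 k ω * B.y.1 k ω +
      S.dl (B.lam i0) k * (B.RT i0 e he).1 k ω = B.R.1 k ω := by rw [← g3]; ring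
  have f4 : (B.c i0 0).1 k ω + (B.c i0 1).1 k ω * B.t.1 k ω + (B.c i0 2).1 k ω * B.y.1 k ω +
      (B.c i0 3).1 k ω * B.R.1 k ω + S.dl (B.eta i0) k * (B.zT i0 e he (B.eta i0) le_rfl).1 k ω = B.z.1 k ω := by
    rw [← g4]; ring
  funext i
  fin_cases i
  · exact f1
  · exact f2
  · show (B.r i0 0).1 k ω + (B.r i0 1).1 k ω * ((B.tc i0).1 k ω + S.dl (B.q i0) k * (B.tT i0 e he).1 k ω) +
      (B.r i0 2).1 k ω * ((B.yc i0).1 k ω + S.dl (B.q i0) k * (B.yT i0 e he).1 k ω) +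
      S.dl (B.lam i0) k * (B.RT i0 e he).1 k ω = B.R.1 k ω
    rw [f1, f2, f3]
  · show (B.c i0 0).1 k ω + (B.c i0 1).1 k ω * ((B.tc i0).1 k ω + S.dl (B.q i0) k * (B.tT i0 e he).1 k ω) +
      (B.c i0 2).1 k ω * ((B.yc i0).1 k ω + S.dl (B.q i0) k * (B.yT i0 e he).1 k ω) +
      (B.c i0 3).1 k ω * ((B.r i0 0).1 k ω + (B.r i0 1).1 k ω * ((B.tc i0).1 k ω + S.dl (B.q i0) k * (B.tT i0 e he).1 k ω) +
      (B.r i0 2).1 k ω * ((B.yc i0).1 k ω + S.dl (B.q i0) k * (B.yT i0 e he).1 k ω) +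
      S.dl (B.lam i0) k * (B.RT i0 e he).1 k ω) + S.dl (B.eta i0) k * (B.zT i0 e he (B.eta i0) le_rfl).1 k ω = B.z.1 k ω
    rw [f1, f2, f3, f4]

/-- bounds of a tame function -/
theorem tr_bd (f : TR S) : ∃ K : ℕ → ℝ, S.Sub K ∧ ∀ᶠ k in UF, ∀ ω, (S.F k).μ ω ≠ 0 → |f.1 k ω| ≤ K k := f.2

theorem sub_of_chg' (Z : ∀ k, Setoid (S.F k).Ω) {K : ℕ → ℝ} (hK : (S.chg Z e he).Sub K) : S.Sub K := by
  refine ⟨hK.1, ?_⟩
  have h1 : Tendsto (fun k => e * (Real.logb 2 (K k + 2) / ((S.chg Z e he).F k).n)) UF (𝓝 (e * 0)) := hK.2.const_mul e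
  rw [mul_zero] at h1
  refine h1.congr fun k => ?_
  show e * (Real.logb 2 (K k + 2) / (e * (S.F k).n)) = Real.logb 2 (K k + 2) / (S.F k).n
  have := (S.F k).pos
  field_simp

/-- one bound for finitely many tame functions -/
theorem tr_bd_fin {ι : Type} [Fintype ι] (f : ι → TR S) :
    ∃ K : ℕ → ℝ, S.Sub K ∧ ∀ᶠ k in UF, ∀ ω, (S.F k).μ ω ≠ 0 → ∀ i, |(f i).1 k ω| ≤ K k := by
  choose K hK hb using fun i => tr_bd (f i)
  refine ⟨fun k => ∑ i, K i k, Sub_sum hK, ?_⟩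
  have h1 : ∀ᶠ k in UF, ∀ i, 0 ≤ K i k := eventually_all.mpr fun i => (hK i).1
  have h2 : ∀ᶠ k in UF, ∀ i, ∀ ω, (S.F k).μ ω ≠ 0 → |(f i).1 k ω| ≤ K i k := eventually_all.mpr fun i => hb i
  filter_upwards [h1, h2] with k a b ω hω i
  exact (b i ω hω).trans (Finset.single_le_sum (f := fun i => K i k) (fun j _ => a j) (Finset.mem_univ i))

/-- bounds of everything -/
theorem all_bd (hle : B.lam i0 ≤ B.eta i0) : ∃ K : ℕ → ℝ, S.Sub K ∧ ∀ᶠ k in UF, ∀ ω, (S.F k).μ ω ≠ 0 →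
    (bp B i0 k ω).Ok (K k) ∧ ∀ i, |pb B i0 e he k ω i| ≤ K k := by
  obtain ⟨K1, hK1, h1⟩ := tr_bd_fin (B.r i0)
  obtain ⟨K2, hK2, h2⟩ := tr_bd_fin (B.c i0)
  obtain ⟨K3, hK3, h3⟩ := tr_bd_fin (bx B i0 e he)
  have hK3' := sub_of_chg' e he (B.V i0) hK3
  refine ⟨fun k => 1 + (K1 k + (K2 k + K3 k)), (S.Sub_const zero_le_one).add (hK1.add (hK2.add hK3')), ?_⟩
  filter_upwards [h1, h2, h3, hK1.1, hK2.1, hK3'.1] with k a1 a2 a3 b1 b2 b3 ω hω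
  have c1 := a1 ω hω
  have c2 := a2 ω hω
  have c3 := a3 ω hω
  refine ⟨⟨?_, ?_, ?_, S.dl_pos _ _, by linarith, ?_, ?_, ?_, ?_, ?_⟩, fun i => ?_⟩
  · have := S.dl_anti (B.q0 i0) k
    rwa [S.dl_zero] at this
  · exact S.dl_anti (B.qlam i0) k
  · exact S.dl_anti hle k
  · exact (c1 1).trans (by linarith)
  · exact (c1 2).trans (by linarith)
  · exact (c2 1).trans (by linarith)
  · exact (c2 2).trans (by linarith)
  · exact (c2 3).trans (by linarith)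
  · exact (c3 i).trans (by linarith)

/-- a form known to the label of the window, bounded at the point, with a gradient at least `2 ^ (σ n)` -/
structure Fm (D : ℕ) (σ : ℝ) where
  g : ∀ k, (S.F k).Ω → Matrix (Mon 4 D) (Mon 4 D) ℝ
  hg : ∀ᶠ k in UF, ∀ ω ω', (S.F k).μ ω ≠ 0 → (S.F k).μ ω' ≠ 0 → B.V i0 k ω ω' → (S.F k).Z ω ω' → g k ω = g k ω'
  hA : ∀ᶠ k in UF, ∀ ω, (S.F k).μ ω ≠ 0 → PdM (g k ω)
  up : ∃ K : ℕ → ℝ, S.Sub K ∧ Typ (S := S) (fun k ω => phi (S.dl 1 k) (g k ω) (pt B k ω) ≤ K k)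
  lo : ∃ K : ℕ → ℝ, S.Sub K ∧ Typ (S := S) (fun k ω => 1 ≤ K k * S.dl (2 * σ) k * gam (S.dl 1 k) (g k ω) (pt B k ω))

variable {B i0} {D : ℕ} {σ : ℝ} (F : Fm B i0 D σ)

/-- the coefficients of the normalised form -/
def cs (a : Mon 4 D) : TR (B.Sj i0 e he) :=
  ⟨fun k ω => (bp B i0 k ω).nr (F.g k ω) a, fun _ => 1, Sp.Sub_const _ zero_le_one,
    Eventually.of_forall fun k ω _ => Bp.nr_le _ _ _⟩

theorem Sub_sqrt {K : ℕ → ℝ} (hK : S.Sub K) : S.Sub (fun k => Real.sqrt (K k)) := by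
  refine (hK.add (S.Sub_const zero_le_one)).mono (Eventually.of_forall fun k => Real.sqrt_nonneg _) ?_
  filter_upwards [hK.1] with k h0
  exact sqrt_le_add_one _ h0

/-- THE NORMALISED FORM: positive largest coefficient, small at the point -/
theorem nr_small (hle : B.lam i0 ≤ B.eta i0) (hη1 : B.eta i0 ≤ 1) :
    ∃ K : ℕ → ℝ, S.Sub K ∧ Typ (S := S) (fun k ω => 0 < (bp B i0 k ω).mc (F.g k ω) ∧
      |(bp B i0 k ω).nr (F.g k ω) ⬝ᵥ vv (pb B i0 e he k ω)| ≤ K k * S.dl (σ - B.eta i0) k) := by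
  obtain ⟨K0, hK0, h0⟩ := all_bd B i0 e he hle
  obtain ⟨K1, hK1, h1⟩ := F.up
  obtain ⟨K2, hK2, h2⟩ := F.lo
  have hS : S.Sub (fun k => K2 k * (Bp.Cb D * ((5 * K0 k) ^ D) ^ 2 * ((Cm 4 D * 1 ^ (4 * D)) ^ 2 * K1 k))) := by
    have a1 : S.Sub (fun k => 5 * K0 k) := (S.Sub_const (by norm_num)).mul hK0
    have a2 : S.Sub (fun k => ((5 * K0 k) ^ D) ^ 2) := Pool.Agent.Helper89.LX.Sub_pow' (Pool.Agent.Helper89.LX.Sub_pow' a1 D) 2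
    have a3 : S.Sub (fun k => Bp.Cb D * ((5 * K0 k) ^ D) ^ 2) := (S.Sub_const (Bp.Cb_nonneg D)).mul a2
    exact hK2.mul (a3.mul ((S.Sub_const (sq_nonneg _)).mul hK1))
  refine ⟨_, Sub_sqrt hS, ((f_typ B i0 e he).and (h1.and h2)).mono ?_⟩
  filter_upwards [h0, F.hA, hK2.1, hK1.1] with k a1 a2 a3 a4 ω hω hh
  obtain ⟨f1, g1, g2⟩ := hh
  obtain ⟨o, hp⟩ := a1 ω hω
  have hA := a2 ω hω
  have hd1 := S.dl_pos 1 k
  have hde : 0 < S.dl (B.eta i0) k := S.dl_pos _ _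
  rw [← f1] at g1 g2
  have l1 := o.low hA hp hd1.le (S.dl_anti hη1 k)
  have l2 := Bp.up (b := bp B i0 k ω) hA (p := pb B i0 e he k ω) hd1
  obtain ⟨mc, hmc⟩ : ∃ mc, mc = (bp B i0 k ω).mc (F.g k ω) := ⟨_, rfl⟩
  obtain ⟨x, hx⟩ : ∃ x, x = (bp B i0 k ω).nr (F.g k ω) ⬝ᵥ vv (pb B i0 e he k ω) := ⟨_, rfl⟩
  obtain ⟨G, hG⟩ : ∃ G, G = gam (S.dl 1 k) (F.g k ω) ((bp B i0 k ω).f (pb B i0 e he k ω)) := ⟨_, rfl⟩
  obtain ⟨P, hP⟩ : ∃ P, P = phi (S.dl 1 k) (F.g k ω) ((bp B i0 k ω).f (pb B i0 e he k ω)) := ⟨_, rfl⟩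
  have hmc0 : 0 ≤ mc := by rw [hmc]; exact Bp.mc_nonneg _ _
  rw [← hmc, ← hG] at l1
  rw [← hmc, ← hx, ← hP] at l2
  rw [← hG] at g2
  rw [← hP] at g1
  rw [← hmc, ← hx]
  have e1 : (bp B i0 k ω).de = S.dl (B.eta i0) k := rfl
  rw [e1] at l1
  -- the scale
  obtain ⟨u, hu⟩ : ∃ u, u = S.dl (σ - B.eta i0) k := ⟨_, rfl⟩
  have hu0 : 0 < u := by rw [hu]; exact S.dl_pos _ _
  have e2 : S.dl (2 * σ) k = u ^ 2 * S.dl (B.eta i0) k ^ 2 := by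
    rw [hu, ← mul_pow, ← dl_add, sub_add_cancel, two_mul, dl_add, pow_two]
  have hC := Bp.Cb_nonneg D
  have key : 1 ≤ K2 k * (Bp.Cb D * ((5 * K0 k) ^ D) ^ 2) * u ^ 2 * mc ^ 2 := by
    calc (1 : ℝ) ≤ K2 k * S.dl (2 * σ) k * G := g2
      _ = K2 k * u ^ 2 * (S.dl (B.eta i0) k ^ 2 * G) := by rw [e2]; ring
      _ ≤ K2 k * u ^ 2 * (Bp.Cb D * (mc * (5 * K0 k) ^ D) ^ 2) := mul_le_mul_of_nonneg_left l1 (by positivity)
      _ = _ := by ring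
  have hmpos : 0 < mc := by
    rcases hmc0.eq_or_lt with h | h
    · rw [← h] at key
      norm_num at key
    · exact h
  refine ⟨hmpos, ?_⟩
  have hx2 : x ^ 2 ≤ K2 k * (Bp.Cb D * ((5 * K0 k) ^ D) ^ 2 * ((Cm 4 D * 1 ^ (4 * D)) ^ 2 * K1 k)) * u ^ 2 := by
    calc x ^ 2 = x ^ 2 * 1 := (mul_one _).symm
      _ ≤ x ^ 2 * (K2 k * (Bp.Cb D * ((5 * K0 k) ^ D) ^ 2) * u ^ 2 * mc ^ 2) := mul_le_mul_of_nonneg_left key (sq_nonneg _)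
      _ = K2 k * (Bp.Cb D * ((5 * K0 k) ^ D) ^ 2) * u ^ 2 * (x ^ 2 * mc ^ 2) := by ring
      _ ≤ K2 k * (Bp.Cb D * ((5 * K0 k) ^ D) ^ 2) * u ^ 2 * ((Cm 4 D * 1 ^ (4 * D)) ^ 2 * P) :=
          mul_le_mul_of_nonneg_left l2 (by positivity)
      _ ≤ K2 k * (Bp.Cb D * ((5 * K0 k) ^ D) ^ 2) * u ^ 2 * ((Cm 4 D * 1 ^ (4 * D)) ^ 2 * K1 k) :=
          mul_le_mul_of_nonneg_left (mul_le_mul_of_nonneg_left g1 (sq_nonneg _)) (by positivity)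
      _ = _ := by ring
  rw [← hu]
  have h3 : |x| = Real.sqrt (x ^ 2) := (Real.sqrt_sq_eq_abs x).symm
  rw [h3]
  refine (Real.sqrt_le_sqrt hx2).trans (le_of_eq ?_)
  rw [Real.sqrt_mul' _ (sq_nonneg u), Real.sqrt_sq hu0.le]

end

end Pool.Agent.Helper46.LIN
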