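import Pool.Agent.Helper46.LIN.L1Q
import Pool.Agent.Helper80.MX.Span

/-! The hypotheses of LIN in the box of the window `i0` of box data with line data. -/

set_option autoImplicit false

namespace Pool.Agent.Helper46.LIN

open Finset Filter Topology Pool.Agent.Helper69.RK Pool.Agent.Helper31.EC Pool.Agent.Helper98.FR
open Pool.Agent.Helper60.CS (trc_dg)

noncomputable section

open Sp QS

section chg

variable {S : Sp} (Z : ∀ k, Setoid (S.F k).Ω) (e : ℝ) (he : 0 < e)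

theorem h_chgL_e (x y : S.L) : h (chgL Z e he x) (chgL Z e he y) = h (chgL Z 1 one_pos x) (chgL Z 1 one_pos y) / e := by
  induction x using Sp.cl_ind with | h A
  induction y using Sp.cl_ind with | h B
  rw [chgL_cl, chgL_cl, h_cl, chgL_cl, chgL_cl, h_cl]
  have key : (S.chg Z e he).rt (chgI Z e he A).1 (chgI Z e he B).1 =
      fun k => e⁻¹ * (S.chg Z 1 one_pos).rt (chgI Z 1 one_pos A).1 (chgI Z 1 one_pos B).1 k := by
    funext k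
    have h1 := chg_rt Z e he A.1 B.1 k
    have h2 := chg_rt Z 1 one_pos A.1 B.1 k
    rw [div_one] at h2
    refine h1.trans ?_
    rw [div_eq_inv_mul]
    exact congrArg _ h2.symm
  rw [key, ul_const_mul _ (UB_rt _ _), div_eq_inv_mul]

theorem H_chgL_e (x : S.L) : H (chgL Z e he x) = H (chgL Z 1 one_pos x) / e := by
  have h1 := h_chgL_e Z e he x ⊥
  rw [chgL_bot, chgL_bot, h_bot, h_bot] at h1
  exact h1

theorem chgL_e_le {x y : S.L} (h : chgL Z 1 one_pos x ≤ chgL Z 1 one_pos y) : chgL Z e he x ≤ chgL Z e he y := by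
  rw [← h_eq_zero_iff, h_chgL_e, h_eq_zero_iff.mpr h, zero_div]

end chg

variable {S : Sp} (B : BD S) (Q : Pool.Agent.Helper98.FR.LD B) (i0 i1 : ℕ)

/-- known functions of the label of the window `i1` -/
def K0 : S.L := TR.dg (B.r i1 1) 1 ⊔ TR.dg (B.r i1 2) 1 ⊔ (TR.dg (B.c i1 1) 1 ⊔ TR.dg (B.c i1 2) 1 ⊔ TR.dg (B.c i1 3) 1)

/-- information facts in the box of the window `i0`: `PB` = the point, `X` = everything -/
structure Nfo (e : ℝ) (he : 0 < e) (PB X : S.L) : Prop where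
  pt : TR.dg B.t 1 ≤ PB
  py : TR.dg B.y 1 ≤ PB
  pR : TR.dg B.R 1 ≤ PB
  pz : TR.dg B.z 1 ≤ PB
  LX : Q.L ≤ X
  leak : I (chgL (B.V i0) e he (K0 B i1)) (chgL (B.V i0) e he X) (chgL (B.V i0) e he PB) = 0
  cnn : Pool.Agent.Helper80.MX.Cnn (chgL (B.V i0) e he Q.L) (chgL (B.V i0) e he PB) (chgL (B.V i0) e he X)
  rich : ∀ (W : Sp) (p : Pj W (B.Sj i0 e he)) (E : ∀ k, (W.F k).Ω → Prop) (hE : 0 < ul (W.pr E)) (r : ℝ), 0 < r →
    r ≤ 1 → 0 < h (restL E hE (p.map (chgL (B.V i0) e he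
      (TR.dg (Q.x 0) (e * r) ⊔ TR.dg (Q.x 1) (e * r) ⊔ TR.dg (Q.x 2) (e * r)))))
      (restL E hE (p.map (chgL (B.V i0) e he PB)))

variable {B i0 i1} {e : ℝ} {he : 0 < e} {PB X : S.L}

/-- slopes of the slab of the window `i1` -/
def k0T (hs : ∀ a : Fin 3, a ≠ 0 → QS.mk (B.r i1 a) - QS.mk (B.r i0 a) ∈ Id S (B.lam i0 - B.q i0)) (e : ℝ) (he : 0 < e)
    (a : Fin 3) (ha : a ≠ 0) : TR (B.Sj i0 e he) :=
  nf (B.V i0) e he (B.r i1 a - B.r i0 a) (B.lam i0 - B.q i0) (by have := B.lam1 i0; have := B.q0 i0; linarith)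
    (by rw [map_sub]; exact hs a ha)

variable (hs : ∀ a : Fin 3, a ≠ 0 → QS.mk (B.r i1 a) - QS.mk (B.r i0 a) ∈ Id S (B.lam i0 - B.q i0))

/-- the data of LIN in the box -/
def ld (e : ℝ) (he : 0 < e) (PB : S.L) : LD (B.Sj i0 e he) where
  t := QS.mk (B.tT i0 e he)
  x := QS.mk (Q.xT i0 e he)
  a := QS.mk (Q.iyT i0 e he)
  y := QS.mk (B.yT i0 e he)
  X := QS.mk (Q.vrT i0 e he)
  c := QS.mk (Q.irT i0 e he)
  R := QS.mk (B.RT i0 e he)
  v := QS.mk (Q.vzT i0 e he (B.eta i0) le_rfl)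
  e := QS.mk (Q.izT i0 e he (B.eta i0) le_rfl)
  z := QS.mk (B.zT i0 e he (B.eta i0) le_rfl)
  k0 := QS.mk (k0T hs e he 1 (by decide))
  k1 := QS.mk (k0T hs e he 2 (by decide))
  iL := chgL (B.V i0) e he Q.L
  B := chgL (B.V i0) e he (PB ⊔ K0 B i1)

theorem dg_nf {f : TR S} {r : ℝ} {hr : r ≤ 1} {hf : QS.mk f ∈ Id S r} :
    QS.dg (QS.mk (nf (B.V i0) e he f r hr hf)) 1 = chgL (B.V i0) e he (TR.dg f (r + e)) := by
  rw [dg_mk _ le_rfl, nf_dg, mul_one]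

/-- known to the line -/
theorem nf_kw {f : TR S} {r : ℝ} {hr : r ≤ 1} {hf : QS.mk f ∈ Id S r} (hk : Q.Kw i0 f) (hre : r + e ≤ 1) :
    QS.dg (QS.mk (nf (B.V i0) e he f r hr hf)) 1 ≤ chgL (B.V i0) e he Q.L := by
  rw [dg_nf]
  exact chgL_e_le _ e he (hk _ hre)

theorem lt_bot {f : TR S} (hf : Lt (B.V i0) f) (r : ℝ) : chgL (B.V i0) e he (TR.dg f r) = ⊥ := hf.chg_bot e he r

theorem sub_dg_le (f g : TR S) (r : ℝ) : TR.dg (f - g) r ≤ TR.dg f r ⊔ TR.dg g r := by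
  rw [sub_eq_add_neg]
  exact (TR.add_dg_le _ _ _).trans (sup_le_sup_left (TR.neg_dg_le _ _) _)

/-- digits of `f - g`, `g` a function of the label -/
theorem sub_lt_le {f g : TR S} (hg : Lt (B.V i0) g) (r : ℝ) :
    chgL (B.V i0) e he (TR.dg (f - g) r) ≤ chgL (B.V i0) e he (TR.dg f r) := by
  refine (chgL_mono _ _ _ (sub_dg_le f g r)).trans ?_
  rw [chgL_sup, lt_bot hg, sup_bot_eq]

theorem le_sub_lt {f g : TR S} (hg : Lt (B.V i0) g) (r : ℝ) :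
    chgL (B.V i0) e he (TR.dg f r) ≤ chgL (B.V i0) e he (TR.dg (f - g) r) := by
  have h1 : TR.dg f r ≤ TR.dg (f - g) r ⊔ TR.dg g r := by
    have := TR.add_dg_le (f - g) g r
    rwa [sub_add_cancel] at this
  refine (chgL_mono _ _ _ h1).trans ?_
  rw [chgL_sup, lt_bot hg, sup_bot_eq]

theorem lin_lt {f g : TR S} (hf : Lt (B.V i0) f) (r : ℝ) :
    chgL (B.V i0) e he (TR.dg (f * g) r) ≤ chgL (B.V i0) e he (TR.dg g r) := by
  refine (chgL_mono _ _ _ (TR.mul_dg_le f g r)).trans ?_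
  rw [chgL_sup, lt_bot hf, bot_sup_eq]

theorem add_lt {f g : TR S} {A : (S.chg (B.V i0) e he).L} {r : ℝ} (hf : chgL (B.V i0) e he (TR.dg f r) ≤ A)
    (hg : chgL (B.V i0) e he (TR.dg g r) ≤ A) : chgL (B.V i0) e he (TR.dg (f + g) r) ≤ A := by
  refine (chgL_mono _ _ _ (TR.add_dg_le f g r)).trans ?_
  rw [chgL_sup]
  exact sup_le hf hg

/-- the frames of the slab -/
theorem slab_le (A : (S.chg (B.V i0) e he).L) {r : ℝ} (ht : chgL (B.V i0) e he (TR.dg B.t r) ≤ A)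
    (hy : chgL (B.V i0) e he (TR.dg B.y r) ≤ A) :
    chgL (B.V i0) e he (TR.dg (B.r i0 0 + B.r i0 1 * B.t + B.r i0 2 * B.y) r) ≤ A := by
  apply add_lt
  · apply add_lt
    · rw [lt_bot (B.lr i0 0)]; exact bot_le
    · exact (lin_lt (B.lr i0 1) r).trans ht
  · exact (lin_lt (B.lr i0 2) r).trans hy

theorem sheet_le (A : (S.chg (B.V i0) e he).L) {r : ℝ} (ht : chgL (B.V i0) e he (TR.dg B.t r) ≤ A)
    (hy : chgL (B.V i0) e he (TR.dg B.y r) ≤ A) (hR : chgL (B.V i0) e he (TR.dg B.R r) ≤ A) :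
    chgL (B.V i0) e he (TR.dg (B.c i0 0 + B.c i0 1 * B.t + B.c i0 2 * B.y + B.c i0 3 * B.R) r) ≤ A := by
  apply add_lt
  · apply add_lt
    · apply add_lt
      · rw [lt_bot (B.lc i0 0)]; exact bot_le
      · exact (lin_lt (B.lc i0 1) r).trans ht
    · exact (lin_lt (B.lc i0 2) r).trans hy
  · exact (lin_lt (B.lc i0 3) r).trans hR

theorem sub_le_of {f g : TR S} {A : (S.chg (B.V i0) e he).L} {r : ℝ} (hf : chgL (B.V i0) e he (TR.dg f r) ≤ A)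
    (hg : chgL (B.V i0) e he (TR.dg g r) ≤ A) : chgL (B.V i0) e he (TR.dg (f - g) r) ≤ A := by
  refine (chgL_mono _ _ _ (sub_dg_le f g r)).trans ?_
  rw [chgL_sup]
  exact sup_le hf hg

theorem of_sub {f g : TR S} {A : (S.chg (B.V i0) e he).L} {r : ℝ} (hf : chgL (B.V i0) e he (TR.dg (f - g) r) ≤ A)
    (hg : chgL (B.V i0) e he (TR.dg g r) ≤ A) : chgL (B.V i0) e he (TR.dg f r) ≤ A := by
  have := add_lt hf hg
  rwa [sub_add_cancel] at this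

/-- FULLNESS of the first digits in the box -/
theorem ld_full (h1 : B.lam i0 + e ≤ 1) :
    h (QS.dg (QS.mk (B.tT i0 e he)) 1 ⊔ QS.dg (QS.mk (B.yT i0 e he)) 1 ⊔ QS.dg (QS.mk (B.RT i0 e he)) 1) ⊥ = 3 := by
  have hq := B.qlam i0
  -- the digits, in units of `n`
  obtain ⟨a, ha⟩ : ∃ a : (S.chg (B.V i0) 1 one_pos).L, a = chgL (B.V i0) 1 one_pos (TR.dg (B.t - B.tc i0) (B.q i0 + e)) :=
    ⟨_, rfl⟩
  obtain ⟨b, hb⟩ : ∃ b : (S.chg (B.V i0) 1 one_pos).L, b = chgL (B.V i0) 1 one_pos (TR.dg (B.y - B.yc i0) (B.q i0 + e)) :=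
    ⟨_, rfl⟩
  obtain ⟨c, hc⟩ : ∃ c : (S.chg (B.V i0) 1 one_pos).L, c = chgL (B.V i0) 1 one_pos (TR.dg (B.Rr i0) (B.lam i0 + e)) :=
    ⟨_, rfl⟩
  have e0 : h (QS.dg (QS.mk (B.tT i0 e he)) 1 ⊔ QS.dg (QS.mk (B.yT i0 e he)) 1 ⊔ QS.dg (QS.mk (B.RT i0 e he)) 1) ⊥ =
      H (a ⊔ b ⊔ c) / e := by
    rw [h_bot, ha, hb, hc, ← chgL_sup, ← chgL_sup, ← H_chgL_e (B.V i0) e he, chgL_sup, chgL_sup]
    rw [← dg_nf (hr := B.q1 i0) (hf := B.T_mem i0), ← dg_nf (hr := B.q1 i0) (hf := B.Y_mem i0),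
      ← dg_nf (hr := B.lam1 i0) (hf := B.Rr_mem i0)]
    rfl
  rw [e0, div_eq_iff he.ne']
  apply le_antisymm
  · have f1 : ∀ (f : TR S) (r : ℝ), r ≤ 1 → QS.mk f ∈ Id S r → H (chgL (B.V i0) 1 one_pos (TR.dg f (r + e))) ≤ e := by
      intro f r hr hf
      have g1 := H_chgL_e (B.V i0) e he (TR.dg f (r + e))
      rw [← dg_nf (hr := hr) (hf := hf)] at g1
      have g2 := QS.H_dg_le (QS.mk (nf (B.V i0) e he f r hr hf)) zero_le_one
      rw [g1, div_le_one he] at g2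
      exact g2
    have g1 : H a ≤ e := by rw [ha]; exact f1 _ _ (B.q1 i0) (B.T_mem i0)
    have g2 : H b ≤ e := by rw [hb]; exact f1 _ _ (B.q1 i0) (B.Y_mem i0)
    have g3 : H c ≤ e := by rw [hc]; exact f1 _ _ (B.lam1 i0) (B.Rr_mem i0)
    have g4 := h_sup_le (a ⊔ b) c ⊥
    have g5 := h_sup_le a b ⊥
    rw [h_bot, h_bot, h_bot] at g4
    rw [h_bot, h_bot, h_bot] at g5
    linarith
  · have hf := B.full i0
    -- all digits
    obtain ⟨a', ha'⟩ : ∃ a' : (S.chg (B.V i0) 1 one_pos).L, a' = chgL (B.V i0) 1 one_pos (TR.dg (B.t - B.tc i0) 1) := ⟨_, rfl⟩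
    obtain ⟨b', hb'⟩ : ∃ b' : (S.chg (B.V i0) 1 one_pos).L, b' = chgL (B.V i0) 1 one_pos (TR.dg (B.y - B.yc i0) 1) := ⟨_, rfl⟩
    obtain ⟨c', hc'⟩ : ∃ c' : (S.chg (B.V i0) 1 one_pos).L, c' = chgL (B.V i0) 1 one_pos (TR.dg (B.Rr i0) 1) := ⟨_, rfl⟩
    have gt : chgL (B.V i0) 1 one_pos (TR.dg B.t 1) ≤ a' := by rw [ha']; exact le_sub_lt (B.lt i0) 1
    have gy : chgL (B.V i0) 1 one_pos (TR.dg B.y 1) ≤ b' := by rw [hb']; exact le_sub_lt (B.ly i0) 1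
    have gR : chgL (B.V i0) 1 one_pos (TR.dg B.R 1) ≤ a' ⊔ b' ⊔ c' := by
      have k1 : chgL (B.V i0) 1 one_pos (TR.dg (B.R - (B.r i0 0 + B.r i0 1 * B.t + B.r i0 2 * B.y)) 1) ≤ a' ⊔ b' ⊔ c' := by
        have : chgL (B.V i0) 1 one_pos (TR.dg (B.R - (B.r i0 0 + B.r i0 1 * B.t + B.r i0 2 * B.y)) 1) = c' := by
          rw [hc']; rfl
        rw [this]; exact le_sup_right
      exact of_sub k1 (slab_le _ (gt.trans (le_sup_left.trans le_sup_left)) (gy.trans (le_sup_right.trans le_sup_left)))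
    have g1 : QS.dg (qc (B.V i0) (QS.mk B.t)) 1 ⊔ QS.dg (qc (B.V i0) (QS.mk B.y)) 1 ⊔ QS.dg (qc (B.V i0) (QS.mk B.R)) 1 ≤
        a' ⊔ b' ⊔ c' := by
      rw [qc_dg, qc_dg, qc_dg, dg_mk _ le_rfl, dg_mk _ le_rfl, dg_mk _ le_rfl]
      exact sup_le (sup_le (gt.trans (le_sup_left.trans le_sup_left)) (gy.trans (le_sup_right.trans le_sup_left))) gR
    have g2 := hf.trans (H_mono g1)
    -- the deeper digits
    have dd : ∀ (f : TR S) (r : ℝ), r ≤ 1 → h (chgL (B.V i0) 1 one_pos (TR.dg f 1)) (chgL (B.V i0) 1 one_pos (TR.dg f r)) ≤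
        1 - r := by
      intro f r hr
      rw [← dg_mk _ le_rfl, ← dg_mk _ hr, ← qc_dg, ← qc_dg]
      exact QS.h_dg_dg _ hr
    have d1 : h a' a ≤ 1 - (B.q i0 + e) := by rw [ha', ha]; exact dd _ _ (by linarith)
    have d2 : h b' b ≤ 1 - (B.q i0 + e) := by rw [hb', hb]; exact dd _ _ (by linarith)
    have d3 : h c' c ≤ 1 - (B.lam i0 + e) := by rw [hc', hc]; exact dd _ _ h1
    have g3 : H (a' ⊔ b' ⊔ c') ≤ H (a ⊔ b ⊔ c) + h (a' ⊔ b' ⊔ c') (a ⊔ b ⊔ c) := by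
      have k1 := H_chain (a ⊔ b ⊔ c) (a' ⊔ b' ⊔ c')
      have k2 := H_mono (show a' ⊔ b' ⊔ c' ≤ a ⊔ b ⊔ c ⊔ (a' ⊔ b' ⊔ c') from le_sup_right)
      linarith
    have g4 := h_sup_le (a' ⊔ b') c' (a ⊔ b ⊔ c)
    have g5 := h_sup_le a' b' (a ⊔ b ⊔ c)
    have g6 : h a' (a ⊔ b ⊔ c) ≤ h a' a := h_anti (le_sup_left.trans le_sup_left)
    have g7 : h b' (a ⊔ b ⊔ c) ≤ h b' b := h_anti (le_sup_right.trans le_sup_left)
    have g8 : h c' (a ⊔ b ⊔ c) ≤ h c' c := h_anti le_sup_right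
    linarith

end

end Pool.Agent.Helper46.LIN
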