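import Pool.Agent.Helper46.LIN.L1H

/-! The hypotheses of LIN in the box, second part: time, planes of the bush, connectedness, richness. -/

set_option autoImplicit false

namespace Pool.Agent.Helper46.LIN

open Finset Filter Topology Pool.Agent.Helper69.RK Pool.Agent.Helper31.EC Pool.Agent.Helper98.FR
open Pool.Agent.Helper60.CS (trc trc_dg)

noncomputable section

open Sp QS

variable {S : Sp} {B : BD S} {Q : Pool.Agent.Helper98.FR.LD B} {i0 i1 : ℕ} {e : ℝ} {he : 0 < e} {PB X : S.L}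
  (hs : ∀ a : Fin 3, a ≠ 0 → QS.mk (B.r i1 a) - QS.mk (B.r i0 a) ∈ Id S (B.lam i0 - B.q i0))

/-- the time is uniform given the line -/
theorem ld_time (h1 : B.q i0 + e ≤ 1) : h (QS.dg (QS.mk (B.tT i0 e he)) 1) (chgL (B.V i0) e he Q.L) = 1 := by
  apply le_antisymm (QS.h_dg_le_one _ _)
  have g0 : QS.dg (QS.mk (B.tT i0 e he)) 1 = chgL (B.V i0) e he (TR.dg (B.t - B.tc i0) (B.q i0 + e)) :=
    dg_nf (hr := B.q1 i0) (hf := B.T_mem i0)
  rw [g0, h_chgL_e, le_div_iff₀ he, one_mul]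
  have g1 := Q.real i0
  have g2 : QS.dg (qc (B.V i0) (QS.mk B.t)) 1 ≤ chgL (B.V i0) 1 one_pos (TR.dg (B.t - B.tc i0) 1) := by
    rw [qc_dg, dg_mk _ le_rfl]
    exact le_sub_lt (B.lt i0) 1
  have g3 := g1.trans (h_mono g2)
  have g4 : h (chgL (B.V i0) 1 one_pos (TR.dg (B.t - B.tc i0) 1))
      (chgL (B.V i0) 1 one_pos (TR.dg (B.t - B.tc i0) (B.q i0 + e))) ≤ 1 - (B.q i0 + e) := by
    rw [← dg_mk _ le_rfl, ← dg_mk _ h1, ← qc_dg, ← qc_dg]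
    exact QS.h_dg_dg _ h1
  obtain ⟨u, hu⟩ : ∃ u, u = chgL (B.V i0) 1 one_pos (TR.dg (B.t - B.tc i0) 1) := ⟨_, rfl⟩
  obtain ⟨w, hw⟩ : ∃ w, w = chgL (B.V i0) 1 one_pos (TR.dg (B.t - B.tc i0) (B.q i0 + e)) := ⟨_, rfl⟩
  obtain ⟨L, hL⟩ : ∃ L, L = chgL (B.V i0) 1 one_pos Q.L := ⟨_, rfl⟩
  rw [← hu, ← hL] at g3
  rw [← hu, ← hw] at g4
  rw [← hw, ← hL]
  have g5 := h_chain w u L
  have g6 : h u L ≤ h (w ⊔ u) L := h_mono le_sup_right
  have g7 : h u (w ⊔ L) ≤ h u w := h_anti le_sup_left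
  linarith

/-- the lines of the bush lie in the plane -/
theorem ld_X (h1 : e ≤ (B.lam i1 - B.q i1) - (B.lam i0 - B.q i0)) :
    QS.mk (Q.vrT i0 e he) = QS.mk (k0T hs e he 1 (by decide)) + QS.mk (k0T hs e he 2 (by decide)) * QS.mk (Q.xT i0 e he) := by
  have hu : B.lam i1 - B.q i1 ≤ 1 := by have := B.lam1 i1; have := B.q0 i1; linarith
  have hr1 : B.lam i0 - B.q i0 ≤ 1 := by have := B.lam1 i0; have := B.q0 i0; linarith
  rw [← map_mul, ← map_add, mk_eq]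
  have key : TR.Ag (((B.lam i1 - B.q i1) - (B.lam i0 - B.q i0)) / e) (Q.vrT i0 e he)
      (k0T hs e he 1 (by decide) + k0T hs e he 2 (by decide) * Q.xT i0 e he) := by
    apply nf_rel (Q.vr_mem i1) hu
    refine (((nf_typ (hr := hr1) (hf := Q.vr_mem i0) (Z := B.V i0) (e := e) (he := he)).and
      (nf_typ (hr := hr1) (hf := by rw [map_sub]; exact hs 1 (by decide)) (Z := B.V i0) (e := e) (he := he))).and
      (nf_typ (hr := hr1) (hf := by rw [map_sub]; exact hs 2 (by decide)) (Z := B.V i0) (e := e) (he := he))).mono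
      (Eventually.of_forall fun k ω _ hh => ?_)
    obtain ⟨⟨a1, a2⟩, a3⟩ := hh
    have b1 : (Q.x 1).1 k ω - ((B.r i0 1).1 k ω + (B.r i0 2).1 k ω * (Q.x 0).1 k ω) =
      S.dl (B.lam i0 - B.q i0) k * (Q.vrT i0 e he).1 k ω := a1
    have b2 : (B.r i1 1).1 k ω - (B.r i0 1).1 k ω =
      S.dl (B.lam i0 - B.q i0) k * (k0T hs e he 1 (by decide)).1 k ω := a2
    have b3 : (B.r i1 2).1 k ω - (B.r i0 2).1 k ω =
      S.dl (B.lam i0 - B.q i0) k * (k0T hs e he 2 (by decide)).1 k ω := a3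
    show S.dl (B.lam i0 - B.q i0) k * ((Q.vrT i0 e he).1 k ω - ((k0T hs e he 1 (by decide)).1 k ω +
      (k0T hs e he 2 (by decide)).1 k ω * (Q.x 0).1 k ω)) =
      (Q.x 1).1 k ω - ((B.r i1 1).1 k ω + (B.r i1 2).1 k ω * (Q.x 0).1 k ω)
    rw [mul_sub, mul_add, ← b1, ← b2, ← mul_assoc, ← b3]
    ring
  apply TR.Ag.anti key
  rw [le_div_iff₀ he, one_mul]
  exact h1

/-- digits of the velocities over the label `i1` -/
theorem xv_le {r : ℝ} (h1 : r ≤ B.lam i1 - B.q i1) (h2 : r ≤ B.eta i1 - B.q i1) :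
    TR.dg (Q.x 0) r ⊔ TR.dg (Q.x 1) r ⊔ TR.dg (Q.x 2) r ≤ TR.dg (Q.x 0) r ⊔ K0 B i1 := by
  have hr : r ≤ 1 := by have := B.lam1 i1; have := B.q0 i1; linarith
  have hl1 : B.lam i1 - B.q i1 ≤ 1 := by have := B.lam1 i1; have := B.q0 i1; linarith
  have he1 : B.eta i1 - B.q i1 ≤ 1 := by have := B.eta1 i1; have := B.q0 i1; linarith
  obtain ⟨A, hA⟩ : ∃ A, A = TR.dg (Q.x 0) r ⊔ K0 B i1 := ⟨_, rfl⟩
  rw [← hA]
  have q0 : TR.dg (Q.x 0) r ≤ A := by rw [hA]; exact le_sup_left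
  have k : ∀ f : TR S, TR.dg f 1 ≤ K0 B i1 → TR.dg f r ≤ A := fun f hf =>
    (TR.dg_mono f hr).trans (hf.trans (by rw [hA]; exact le_sup_right))
  have kr1 := k (B.r i1 1) (by unfold K0; exact le_sup_left.trans le_sup_left)
  have kr2 := k (B.r i1 2) (by unfold K0; exact le_sup_right.trans le_sup_left)
  have kc1 := k (B.c i1 1) (by unfold K0; exact (le_sup_left.trans le_sup_left).trans le_sup_right)
  have kc2 := k (B.c i1 2) (by unfold K0; exact (le_sup_right.trans le_sup_left).trans le_sup_right)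
  have kc3 := k (B.c i1 3) (by unfold K0; exact le_sup_right.trans le_sup_right)
  have ad : ∀ {f g : TR S}, TR.dg f r ≤ A → TR.dg g r ≤ A → TR.dg (f + g) r ≤ A := fun hf hg =>
    (TR.add_dg_le _ _ _).trans (sup_le hf hg)
  have mu : ∀ {f g : TR S}, TR.dg f r ≤ A → TR.dg g r ≤ A → TR.dg (f * g) r ≤ A := fun hf hg =>
    (TR.mul_dg_le _ _ _).trans (sup_le hf hg)
  have tr : ∀ {f g : TR S} {b : ℝ}, QS.mk (f - g) ∈ Id S b → b ≤ 1 → r ≤ b → TR.dg g r ≤ A → TR.dg f r ≤ A := by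
    intro f g b hb hb1 hrb hg
    rw [map_sub] at hb
    have := QS.dg_eq_of_sub_mem hb hrb hr
    rw [dg_mk _ hr, dg_mk _ hr] at this
    rw [this]
    exact hg
  have q1 : TR.dg (Q.x 1) r ≤ A := tr (Q.vr_mem i1) hl1 h1 (ad kr1 (mu kr2 q0))
  have q2 : TR.dg (Q.x 2) r ≤ A := tr (Q.vz_mem i1 le_rfl) he1 h2 (ad (ad kc1 (mu kc2 q0)) (mu kc3 q1))
  exact sup_le (sup_le q0 q1) q2

/-- no leak of the label, on all events of all extensions -/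
theorem leak_im (n : Nfo B Q i0 i1 e he PB X) (W : Sp) (p : Pj W (B.Sj i0 e he)) (E : ∀ k, (W.F k).Ω → Prop)
    (hE : 0 < ul (W.pr E)) : I (restL E hE (p.map (chgL (B.V i0) e he (K0 B i1))))
      (restL E hE (p.map (chgL (B.V i0) e he X))) (restL E hE (p.map (chgL (B.V i0) e he PB))) = 0 := by
  apply I_rest_zero
  rw [Pj.I_map]
  exact n.leak

/-- connectedness -/
theorem ld_conn (n : Nfo B Q i0 i1 e he PB X) (W : Sp) (p : Pj W (B.Sj i0 e he)) (E : ∀ k, (W.F k).Ω → Prop)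
    (hE : 0 < ul (W.pr E)) (V : (W.rest E).L) (h1 : V ≤ restL E hE (p.map (chgL (B.V i0) e he Q.L)))
    (h2 : V ≤ restL E hE (p.map (chgL (B.V i0) e he (PB ⊔ K0 B i1)))) : V = ⊥ := by
  have hl := leak_im n W p E hE
  rw [chgL_sup, Pj.map_sup, restL_sup] at h2
  obtain ⟨A, hA⟩ : ∃ A, A = restL E hE (p.map (chgL (B.V i0) e he Q.L)) := ⟨_, rfl⟩
  obtain ⟨P, hP⟩ : ∃ P, P = restL E hE (p.map (chgL (B.V i0) e he PB)) := ⟨_, rfl⟩
  obtain ⟨K, hK⟩ : ∃ K, K = restL E hE (p.map (chgL (B.V i0) e he (K0 B i1))) := ⟨_, rfl⟩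
  obtain ⟨Y, hY⟩ : ∃ Y, Y = restL E hE (p.map (chgL (B.V i0) e he X)) := ⟨_, rfl⟩
  have hAY : A ≤ Y := by rw [hA, hY]; exact restL_mono E hE (p.map_mono (chgL_mono _ _ _ n.LX))
  rw [← hA] at h1
  rw [← hP, ← hK] at h2
  rw [← hK, ← hY, ← hP] at hl
  have c1 : I V Y A = 0 := I_zero_of_le_left h1
  have c2 : I V Y P = 0 := by
    apply le_antisymm _ (I_nonneg _ _ _)
    have k1 : I V Y P ≤ I K Y P := I_mono_left (h2.trans (by rw [sup_comm]))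
    exact k1.trans hl.le
  have c3 : I V Y ⊥ = 0 := by
    rw [hY]
    apply n.cnn W p E hE V
    · rw [← hY, ← hA]; exact c1
    · rw [← hY, ← hP]; exact c2
  have c4 : h V ⊥ ≤ 0 := by
    rw [I_eq, sup_bot_eq] at c3
    have k1 : h V Y = 0 := h_eq_zero_iff.mpr (h1.trans hAY)
    linarith
  exact le_bot_iff.mp (h_eq_zero_iff.mp (le_antisymm c4 (h_nonneg _ _)))

/-- richness -/
theorem ld_rich (n : Nfo B Q i0 i1 e he PB X) (h1 : 0 < B.lam i1 - B.q i1) (h2 : 0 < B.eta i1 - B.q i1)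
    (hx : ∀ r ≤ (1 : ℝ), TR.dg (Q.x 0) r ⊔ TR.dg (Q.x 1) r ⊔ TR.dg (Q.x 2) r ≤ Q.L) (he1 : e ≤ 1)
    (W : Sp) (p : Pj W (B.Sj i0 e he)) (E : ∀ k, (W.F k).Ω → Prop) (hE : 0 < ul (W.pr E)) (r : ℝ) (hr0 : 0 < r)
    (hr1 : r ≤ 1) : 0 < h (restL E hE (p.map (QS.dg (QS.mk (Q.xT i0 e he)) r)))
      (restL E hE (p.map (chgL (B.V i0) e he (PB ⊔ K0 B i1)))) := by
  obtain ⟨b, hb⟩ : ∃ b, b = min (B.lam i1 - B.q i1) (B.eta i1 - B.q i1) := ⟨_, rfl⟩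
  have hb0 : 0 < b := by rw [hb]; exact lt_min h1 h2
  obtain ⟨r', hr'⟩ : ∃ r', r' = min r (b / e) := ⟨_, rfl⟩
  have hr'0 : 0 < r' := by rw [hr']; exact lt_min hr0 (div_pos hb0 he)
  have hr'r : r' ≤ r := by rw [hr']; exact min_le_left _ _
  have hr'1 : r' ≤ 1 := hr'r.trans hr1
  have hr'b : e * r' ≤ b := by
    have : r' ≤ b / e := by rw [hr']; exact min_le_right _ _
    rw [le_div_iff₀ he] at this
    linarith
  have hrich := n.rich W p E hE r' hr'0 hr'1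
  have hl := leak_im n W p E hE
  have hd : QS.dg (QS.mk (Q.xT i0 e he)) r' = chgL (B.V i0) e he (TR.dg (Q.x 0) (e * r')) := by
    rw [dg_mk _ hr'1]
    exact trc_dg _ _ _ _ _
  have hv := xv_le (B := B) (Q := Q) (i1 := i1) (r := e * r') (hr'b.trans (by rw [hb]; exact min_le_left _ _))
    (hr'b.trans (by rw [hb]; exact min_le_right _ _))
  have hv2 : TR.dg (Q.x 0) (e * r') ⊔ TR.dg (Q.x 1) (e * r') ⊔ TR.dg (Q.x 2) (e * r') ≤ X :=
    (hx _ (by nlinarith)).trans n.LX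
  refine lt_of_lt_of_le ?_ (h_mono (restL_mono E hE (p.map_mono (QS.dg_mono _ hr'r))))
  rw [hd]
  obtain ⟨f, hf⟩ : ∃ f : S.L → (W.rest E).L, f = fun x => restL E hE (p.map (chgL (B.V i0) e he x)) := ⟨_, rfl⟩
  have fm : ∀ {x y : S.L}, x ≤ y → f x ≤ f y := fun h => by
    rw [hf]; exact restL_mono E hE (p.map_mono (chgL_mono _ _ _ h))
  have fs : ∀ x y : S.L, f (x ⊔ y) = f x ⊔ f y := fun x y => by
    rw [hf]; show restL E hE (p.map (chgL _ _ _ (x ⊔ y))) = _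
    rw [chgL_sup, Pj.map_sup, restL_sup]
  have g1 : 0 < h (f (TR.dg (Q.x 0) (e * r') ⊔ TR.dg (Q.x 1) (e * r') ⊔ TR.dg (Q.x 2) (e * r'))) (f PB) := by
    rw [hf]; exact hrich
  have g2 : I (f (K0 B i1)) (f X) (f PB) = 0 := by rw [hf]; exact hl
  show 0 < h (restL E hE (p.map (chgL (B.V i0) e he (TR.dg (Q.x 0) (e * r')))))
    (restL E hE (p.map (chgL (B.V i0) e he (PB ⊔ K0 B i1))))
  have g3 : restL E hE (p.map (chgL (B.V i0) e he (TR.dg (Q.x 0) (e * r')))) = f (TR.dg (Q.x 0) (e * r')) := by rw [hf]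
  have g4 : restL E hE (p.map (chgL (B.V i0) e he (PB ⊔ K0 B i1))) = f (PB ⊔ K0 B i1) := by rw [hf]
  rw [g3, g4, fs]
  obtain ⟨x, hxx⟩ : ∃ x, x = TR.dg (Q.x 0) (e * r') ⊔ TR.dg (Q.x 1) (e * r') ⊔ TR.dg (Q.x 2) (e * r') := ⟨_, rfl⟩
  rw [← hxx] at g1 hv hv2
  have g5 : I (f (K0 B i1)) (f x) (f PB) = 0 :=
    le_antisymm ((I_mono_right ((fm hv2).trans le_sup_left)).trans g2.le) (I_nonneg _ _ _)
  rw [I_eq'] at g5
  have g6 : h (f x) (f (K0 B i1) ⊔ f PB) ≤ h (f (TR.dg (Q.x 0) (e * r'))) (f (K0 B i1) ⊔ f PB) := by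
    have k1 : f x ≤ f (TR.dg (Q.x 0) (e * r')) ⊔ f (K0 B i1) := by rw [← fs]; exact fm hv
    have k2 : h (f x) (f (K0 B i1) ⊔ f PB) ≤ h (f (TR.dg (Q.x 0) (e * r')) ⊔ f (K0 B i1)) (f (K0 B i1) ⊔ f PB) := h_mono k1
    have k3 := h_sup_le (f (TR.dg (Q.x 0) (e * r'))) (f (K0 B i1)) (f (K0 B i1) ⊔ f PB)
    have k4 : h (f (K0 B i1)) (f (K0 B i1) ⊔ f PB) = 0 := h_eq_zero_iff.mpr le_sup_left
    linarith
  rw [sup_comm (f PB)]
  linarith

/-- THE HYPOTHESES OF LIN in the box of the window `i0` -/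
theorem lh (n : Nfo B Q i0 i1 e he PB X) (hle : B.lam i0 ≤ B.eta i0) (h1 : B.eta i0 + e ≤ 1)
    (h2 : e ≤ (B.lam i1 - B.q i1) - (B.lam i0 - B.q i0)) (h3 : 0 < B.eta i1 - B.q i1)
    (hx : ∀ r ≤ (1 : ℝ), TR.dg (Q.x 0) r ⊔ TR.dg (Q.x 1) r ⊔ TR.dg (Q.x 2) r ≤ Q.L) : LH (ld Q hs e he PB) := by
  have hq := B.qlam i0
  have hq0 := B.q0 i0
  have hlam := B.lam0 i0
  have he1 : e ≤ 1 := by linarith
  have hKt : chgL (B.V i0) e he (TR.dg B.t 1) ≤ chgL (B.V i0) e he (PB ⊔ K0 B i1) := chgL_mono _ _ _ (n.pt.trans le_sup_left)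
  have hKy : chgL (B.V i0) e he (TR.dg B.y 1) ≤ chgL (B.V i0) e he (PB ⊔ K0 B i1) := chgL_mono _ _ _ (n.py.trans le_sup_left)
  have hKR : chgL (B.V i0) e he (TR.dg B.R 1) ≤ chgL (B.V i0) e he (PB ⊔ K0 B i1) := chgL_mono _ _ _ (n.pR.trans le_sup_left)
  have hKz : chgL (B.V i0) e he (TR.dg B.z 1) ≤ chgL (B.V i0) e he (PB ⊔ K0 B i1) := chgL_mono _ _ _ (n.pz.trans le_sup_left)
  have mo : ∀ {f : TR S} {r : ℝ}, r ≤ 1 → chgL (B.V i0) e he (TR.dg f 1) ≤ chgL (B.V i0) e he (PB ⊔ K0 B i1) →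
      chgL (B.V i0) e he (TR.dg f r) ≤ chgL (B.V i0) e he (PB ⊔ K0 B i1) := fun hr h =>
    (chgL_mono _ _ _ (TR.dg_mono _ hr)).trans h
  have hlq : B.lam i0 - B.q i0 + e ≤ 1 := by linarith
  have k0 : ∀ a : Fin 3, ∀ (ha : a ≠ 0), TR.dg (B.r i1 a) 1 ≤ K0 B i1 →
      QS.dg (QS.mk (k0T hs e he a ha)) 1 ≤ chgL (B.V i0) e he (PB ⊔ K0 B i1) := by
    intro a ha hk
    unfold k0T
    rw [dg_nf]
    refine (sub_lt_le (B.lr i0 a) _).trans ?_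
    exact mo hlq (chgL_mono _ _ _ (hk.trans le_sup_right))
  refine ⟨Q.yT_eq, Q.RT_eq, Q.zT_eq le_rfl, ld_X hs h2, ?_, ?_, ?_, ?_, ?_, ?_, ?_, ?_, ?_, ?_, ?_, ?_, ?_, ?_, ?_, ?_⟩
  · exact nf_kw Q (hr := B.q1 i0) (hf := Q.iy_mem i0) (Q.kw_iy i0) (by linarith)
  · show QS.dg (QS.mk (trc (B.V i0) e he (Q.x 0))) 1 ≤ _
    rw [dg_mk _ le_rfl, trc_dg, mul_one]
    exact chgL_e_le _ e he (Q.kw_x i0 0 _ he1)
  · exact nf_kw Q (hr := B.lam1 i0) (hf := Q.ir_mem i0) (Q.kw_ir i0) (by linarith)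
  · exact nf_kw Q (hf := Q.vr_mem i0) (Q.kw_vr i0) (by linarith)
  · exact nf_kw Q (hf := Q.vz_mem i0 le_rfl) (Q.kw_vz i0) (by linarith)
  · exact nf_kw Q (hf := Q.iz_mem i0 le_rfl) (Q.kw_iz i0) (by linarith)
  · show QS.dg (QS.mk (nf (B.V i0) e he _ _ _ _)) 1 ≤ _
    rw [dg_nf]
    exact (sub_lt_le (B.lt i0) _).trans (mo (by linarith) hKt)
  · show QS.dg (QS.mk (nf (B.V i0) e he _ _ _ _)) 1 ≤ _
    rw [dg_nf]
    exact (sub_lt_le (B.ly i0) _).trans (mo (by linarith) hKy)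
  · show QS.dg (QS.mk (nf (B.V i0) e he (B.R - (B.r i0 0 + B.r i0 1 * B.t + B.r i0 2 * B.y)) _ _ _)) 1 ≤ _
    rw [dg_nf]
    exact sub_le_of (mo (by linarith) hKR) (slab_le _ (mo (by linarith) hKt) (mo (by linarith) hKy))
  · show QS.dg (QS.mk (nf (B.V i0) e he (B.z - (B.c i0 0 + B.c i0 1 * B.t + B.c i0 2 * B.y + B.c i0 3 * B.R)) _ _ _)) 1 ≤ _
    rw [dg_nf]
    exact sub_le_of (mo (by linarith) hKz) (sheet_le _ (mo (by linarith) hKt) (mo (by linarith) hKy) (mo (by linarith) hKR))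
  · exact k0 1 (by decide) (by unfold K0; exact le_sup_left.trans le_sup_left)
  · exact k0 2 (by decide) (by unfold K0; exact le_sup_right.trans le_sup_left)
  · exact ld_time (by linarith)
  · intro W p E hE V a b
    exact ld_conn n W p E hE V a b
  · intro W p E hE r a b
    exact ld_rich n (by linarith) h3 hx he1 W p E hE r a b
  · exact ld_full (by linarith)

end

end Pool.Agent.Helper46.LIN
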