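import Pool.Agent.Helper3.LF.Spa
import Pool.Agent.Helper60.CS.Shg

/-! Forms in the coordinates of a box: affine substitution, normalisation by the largest coefficient. -/

set_option autoImplicit false

namespace Pool.Agent.Helper46.LIN

open MvPolynomial Matrix Pool.Agent.Helper3.LF
open Pool.Agent.Helper95.LF (PdM)

noncomputable section

/-- affine substitutions do not increase the degree -/
theorem tdeg_bind {R σ τ : Type*} [CommRing R] (A : σ → MvPolynomial τ R) (hA : ∀ i, (A i).totalDegree ≤ 1)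
    (q : MvPolynomial σ R) : (bind₁ A q).totalDegree ≤ q.totalDegree := by
  classical
  conv_lhs => rw [q.as_sum, map_sum]
  refine totalDegree_finsetSum_le fun m hm => ?_
  rw [bind₁_monomial]
  refine (totalDegree_mul _ _).trans ?_
  rw [totalDegree_C, zero_add]
  refine (totalDegree_finset_prod _ _).trans ?_
  refine le_trans (Finset.sum_le_sum fun i _ => (totalDegree_pow _ _).trans
    (Nat.mul_le_mul_left _ (hA i))) ?_
  simp only [mul_one]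
  exact le_totalDegree hm

/-- parameters of a box -/
structure Bp where
  tc : ℝ
  yc : ℝ
  r : Fin 3 → ℝ
  c : Fin 4 → ℝ
  dq : ℝ
  dl : ℝ
  de : ℝ

namespace Bp

variable (b : Bp)

/-- the coordinates of the point as functions of the coordinates in the box -/
def f (p : Fin 4 → ℝ) : Fin 4 → ℝ :=
  ![b.tc + b.dq * p 0, b.yc + b.dq * p 1,
    b.r 0 + b.r 1 * (b.tc + b.dq * p 0) + b.r 2 * (b.yc + b.dq * p 1) + b.dl * p 2,
    b.c 0 + b.c 1 * (b.tc + b.dq * p 0) + b.c 2 * (b.yc + b.dq * p 1) +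
      b.c 3 * (b.r 0 + b.r 1 * (b.tc + b.dq * p 0) + b.r 2 * (b.yc + b.dq * p 1) + b.dl * p 2) + b.de * p 3]

/-- the same, as polynomials -/
def A0 : MvPolynomial (Fin 4) ℝ := C b.tc + C b.dq * X 0
def A1 : MvPolynomial (Fin 4) ℝ := C b.yc + C b.dq * X 1
def A2 : MvPolynomial (Fin 4) ℝ := C (b.r 0) + C (b.r 1) * b.A0 + C (b.r 2) * b.A1 + C b.dl * X 2
def A3 : MvPolynomial (Fin 4) ℝ := C (b.c 0) + C (b.c 1) * b.A0 + C (b.c 2) * b.A1 + C (b.c 3) * b.A2 + C b.de * X 3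
def A : Fin 4 → MvPolynomial (Fin 4) ℝ := ![b.A0, b.A1, b.A2, b.A3]

theorem eval_A (p : Fin 4 → ℝ) (i : Fin 4) : eval p (b.A i) = b.f p i := by
  fin_cases i <;> simp [A, f, A0, A1, A2, A3]

theorem deg_C (x : ℝ) : (C x : MvPolynomial (Fin 4) ℝ).totalDegree ≤ 1 := by
  rw [totalDegree_C]; exact Nat.zero_le _

theorem deg_CX (x : ℝ) (i : Fin 4) : (C x * X i : MvPolynomial (Fin 4) ℝ).totalDegree ≤ 1 := by
  refine (totalDegree_mul _ _).trans ?_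
  rw [totalDegree_C, zero_add]
  exact (totalDegree_X i).le

theorem deg_Cm (x : ℝ) {q : MvPolynomial (Fin 4) ℝ} (hq : q.totalDegree ≤ 1) : (C x * q).totalDegree ≤ 1 := by
  refine (totalDegree_mul _ _).trans ?_
  rw [totalDegree_C, zero_add]
  exact hq

theorem deg_add {p q : MvPolynomial (Fin 4) ℝ} (hp : p.totalDegree ≤ 1) (hq : q.totalDegree ≤ 1) :
    (p + q).totalDegree ≤ 1 := (totalDegree_add _ _).trans (max_le hp hq)

theorem deg_A0 : b.A0.totalDegree ≤ 1 := deg_add (deg_C _) (deg_CX _ _)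
theorem deg_A1 : b.A1.totalDegree ≤ 1 := deg_add (deg_C _) (deg_CX _ _)
theorem deg_A2 : b.A2.totalDegree ≤ 1 :=
  deg_add (deg_add (deg_add (deg_C _) (deg_Cm _ b.deg_A0)) (deg_Cm _ b.deg_A1)) (deg_CX _ _)
theorem deg_A3 : b.A3.totalDegree ≤ 1 :=
  deg_add (deg_add (deg_add (deg_add (deg_C _) (deg_Cm _ b.deg_A0)) (deg_Cm _ b.deg_A1)) (deg_Cm _ b.deg_A2))
    (deg_CX _ _)

theorem deg_A (i : Fin 4) : (b.A i).totalDegree ≤ 1 := by
  fin_cases i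
  · exact b.deg_A0
  · exact b.deg_A1
  · exact b.deg_A2
  · exact b.deg_A3

/-- a form in the coordinates of the box -/
def tr (q : MvPolynomial (Fin 4) ℝ) : MvPolynomial (Fin 4) ℝ := bind₁ b.A q

theorem tr_deg {D : ℕ} {q : MvPolynomial (Fin 4) ℝ} (hq : q.totalDegree ≤ D) : (b.tr q).totalDegree ≤ D :=
  (tdeg_bind _ b.deg_A q).trans hq

theorem eval_tr (q : MvPolynomial (Fin 4) ℝ) (p : Fin 4 → ℝ) : eval p (b.tr q) = eval (b.f p) q := by
  unfold tr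
  rw [← coe_aeval_eq_eval, ← coe_aeval_eq_eval]
  show (aeval p) (bind₁ b.A q) = (aeval (b.f p)) q
  rw [aeval_bind₁]
  congr 1
  congr 1
  funext i
  exact b.eval_A p i

/-- the inverse map -/
def g (x : Fin 4 → ℝ) : Fin 4 → ℝ :=
  ![(x 0 - b.tc) / b.dq, (x 1 - b.yc) / b.dq, (x 2 - (b.r 0 + b.r 1 * x 0 + b.r 2 * x 1)) / b.dl,
    (x 3 - (b.c 0 + b.c 1 * x 0 + b.c 2 * x 1 + b.c 3 * x 2)) / b.de]

theorem f_g (h1 : b.dq ≠ 0) (h2 : b.dl ≠ 0) (h3 : b.de ≠ 0) (x : Fin 4 → ℝ) : b.f (b.g x) = x := by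
  have e0 : b.tc + b.dq * ((x 0 - b.tc) / b.dq) = x 0 := by field_simp; ring
  have e1 : b.yc + b.dq * ((x 1 - b.yc) / b.dq) = x 1 := by field_simp; ring
  have e2 : b.r 0 + b.r 1 * x 0 + b.r 2 * x 1 + b.dl * ((x 2 - (b.r 0 + b.r 1 * x 0 + b.r 2 * x 1)) / b.dl) = x 2 := by
    field_simp; ring
  have e3 : b.c 0 + b.c 1 * x 0 + b.c 2 * x 1 + b.c 3 * x 2 +
      b.de * ((x 3 - (b.c 0 + b.c 1 * x 0 + b.c 2 * x 1 + b.c 3 * x 2)) / b.de) = x 3 := by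
    field_simp; ring
  funext i
  fin_cases i
  · exact e0
  · exact e1
  · show b.r 0 + b.r 1 * (b.tc + b.dq * ((x 0 - b.tc) / b.dq)) + b.r 2 * (b.yc + b.dq * ((x 1 - b.yc) / b.dq)) +
      b.dl * ((x 2 - (b.r 0 + b.r 1 * x 0 + b.r 2 * x 1)) / b.dl) = x 2
    rw [e0, e1, e2]
  · show b.c 0 + b.c 1 * (b.tc + b.dq * ((x 0 - b.tc) / b.dq)) + b.c 2 * (b.yc + b.dq * ((x 1 - b.yc) / b.dq)) +
      b.c 3 * (b.r 0 + b.r 1 * (b.tc + b.dq * ((x 0 - b.tc) / b.dq)) + b.r 2 * (b.yc + b.dq * ((x 1 - b.yc) / b.dq)) +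
      b.dl * ((x 2 - (b.r 0 + b.r 1 * x 0 + b.r 2 * x 1)) / b.dl)) +
      b.de * ((x 3 - (b.c 0 + b.c 1 * x 0 + b.c 2 * x 1 + b.c 3 * x 2)) / b.de) = x 3
    rw [e0, e1, e2, e3]

theorem g_f (h1 : b.dq ≠ 0) (h2 : b.dl ≠ 0) (h3 : b.de ≠ 0) (p : Fin 4 → ℝ) : b.g (b.f p) = p := by
  funext i
  fin_cases i
  · show (b.tc + b.dq * p 0 - b.tc) / b.dq = p 0
    field_simp; ring
  · show (b.yc + b.dq * p 1 - b.yc) / b.dq = p 1
    field_simp; ring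
  · show (b.r 0 + b.r 1 * (b.tc + b.dq * p 0) + b.r 2 * (b.yc + b.dq * p 1) + b.dl * p 2 -
      (b.r 0 + b.r 1 * (b.tc + b.dq * p 0) + b.r 2 * (b.yc + b.dq * p 1))) / b.dl = p 2
    field_simp; ring
  · show (b.c 0 + b.c 1 * (b.tc + b.dq * p 0) + b.c 2 * (b.yc + b.dq * p 1) +
      b.c 3 * (b.r 0 + b.r 1 * (b.tc + b.dq * p 0) + b.r 2 * (b.yc + b.dq * p 1) + b.dl * p 2) + b.de * p 3 -
      (b.c 0 + b.c 1 * (b.tc + b.dq * p 0) + b.c 2 * (b.yc + b.dq * p 1) +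
      b.c 3 * (b.r 0 + b.r 1 * (b.tc + b.dq * p 0) + b.r 2 * (b.yc + b.dq * p 1) + b.dl * p 2))) / b.de = p 3
    field_simp; ring

/-- the conditions on the parameters -/
structure Ok (K : ℝ) : Prop where
  dq : b.dq ≤ 1
  dl : b.dl ≤ b.dq
  de : b.de ≤ b.dl
  pos : 0 < b.de
  K1 : 1 ≤ K
  r1 : |b.r 1| ≤ K
  r2 : |b.r 2| ≤ K
  c1 : |b.c 1| ≤ K
  c2 : |b.c 2| ≤ K
  c3 : |b.c 3| ≤ K

variable {b} {K : ℝ}

theorem Ok.near (o : b.Ok K) {p : Fin 4 → ℝ} (hp : ∀ i, |p i| ≤ K) {x : Fin 4 → ℝ}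
    (hx : ∀ i, |x i - b.f p i| ≤ b.de) (i : Fin 4) : |b.g x i| ≤ 5 * K := by
  have hde := o.pos
  have hdl : 0 < b.dl := hde.trans_le o.de
  have hdq : 0 < b.dq := hdl.trans_le o.dl
  have hK := o.K1
  have e := b.g_f hdq.ne' hdl.ne' hde.ne' p
  obtain ⟨d, hd⟩ : ∃ d : Fin 4 → ℝ, d = fun i => x i - b.f p i := ⟨_, rfl⟩
  have hdb : ∀ i, |d i| ≤ b.de := fun i => by rw [hd]; exact hx i
  have hK0 : 0 ≤ K := by linarith
  have q1 : ∀ (u v w : ℝ), 0 < w → b.de ≤ w → |u| ≤ v * b.de → 0 ≤ v → |u / w| ≤ v := by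
    intro u v w hw h1 h2 h3
    rw [abs_div, abs_of_pos hw, div_le_iff₀ hw]
    exact h2.trans (mul_le_mul_of_nonneg_left h1 h3)
  have m : ∀ (u : ℝ) (j : Fin 4), |u| ≤ K → |u * d j| ≤ K * b.de := fun u j h1 => by
    rw [abs_mul]
    exact mul_le_mul h1 (hdb j) (abs_nonneg _) hK0
  have key : |b.g x i - p i| ≤ 1 + 3 * K := by
    have e' : p i = b.g (b.f p) i := by rw [e]
    rw [e']
    have hx' : ∀ j, x j = b.f p j + d j := fun j => by rw [hd]; ring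
    fin_cases i
    · show |(x 0 - b.tc) / b.dq - (b.f p 0 - b.tc) / b.dq| ≤ _
      rw [← sub_div, hx' 0]
      have e2 : b.f p 0 + d 0 - b.tc - (b.f p 0 - b.tc) = d 0 := by ring
      rw [e2]
      have := q1 (d 0) 1 b.dq hdq (o.de.trans o.dl) (by rw [one_mul]; exact hdb 0) zero_le_one
      linarith
    · show |(x 1 - b.yc) / b.dq - (b.f p 1 - b.yc) / b.dq| ≤ _
      rw [← sub_div, hx' 1]
      have e2 : b.f p 1 + d 1 - b.yc - (b.f p 1 - b.yc) = d 1 := by ring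
      rw [e2]
      have := q1 (d 1) 1 b.dq hdq (o.de.trans o.dl) (by rw [one_mul]; exact hdb 1) zero_le_one
      linarith
    · show |(x 2 - (b.r 0 + b.r 1 * x 0 + b.r 2 * x 1)) / b.dl -
        (b.f p 2 - (b.r 0 + b.r 1 * b.f p 0 + b.r 2 * b.f p 1)) / b.dl| ≤ _
      rw [← sub_div, hx' 0, hx' 1, hx' 2]
      have e2 : b.f p 2 + d 2 - (b.r 0 + b.r 1 * (b.f p 0 + d 0) + b.r 2 * (b.f p 1 + d 1)) -
          (b.f p 2 - (b.r 0 + b.r 1 * b.f p 0 + b.r 2 * b.f p 1)) = d 2 - b.r 1 * d 0 - b.r 2 * d 1 := by ring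
      rw [e2]
      have h1 : |d 2 - b.r 1 * d 0 - b.r 2 * d 1| ≤ (1 + 2 * K) * b.de := by
        have a1 := abs_sub (d 2 - b.r 1 * d 0) (b.r 2 * d 1)
        have a2 := abs_sub (d 2) (b.r 1 * d 0)
        have := hdb 2
        have := m (b.r 1) 0 o.r1
        have := m (b.r 2) 1 o.r2
        linarith
      have := q1 _ (1 + 2 * K) b.dl hdl o.de h1 (by linarith)
      linarith
    · show |(x 3 - (b.c 0 + b.c 1 * x 0 + b.c 2 * x 1 + b.c 3 * x 2)) / b.de -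
        (b.f p 3 - (b.c 0 + b.c 1 * b.f p 0 + b.c 2 * b.f p 1 + b.c 3 * b.f p 2)) / b.de| ≤ _
      rw [← sub_div, hx' 0, hx' 1, hx' 2, hx' 3]
      have e2 : b.f p 3 + d 3 - (b.c 0 + b.c 1 * (b.f p 0 + d 0) + b.c 2 * (b.f p 1 + d 1) + b.c 3 * (b.f p 2 + d 2)) -
          (b.f p 3 - (b.c 0 + b.c 1 * b.f p 0 + b.c 2 * b.f p 1 + b.c 3 * b.f p 2)) =
          d 3 - b.c 1 * d 0 - b.c 2 * d 1 - b.c 3 * d 2 := by ring
      rw [e2]
      have h1 : |d 3 - b.c 1 * d 0 - b.c 2 * d 1 - b.c 3 * d 2| ≤ (1 + 3 * K) * b.de := by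
        have a0 := abs_sub (d 3 - b.c 1 * d 0 - b.c 2 * d 1) (b.c 3 * d 2)
        have a1 := abs_sub (d 3 - b.c 1 * d 0) (b.c 2 * d 1)
        have a2 := abs_sub (d 3) (b.c 1 * d 0)
        have := hdb 3
        have := m (b.c 1) 0 o.c1
        have := m (b.c 2) 1 o.c2
        have := m (b.c 3) 2 o.c3
        linarith
      exact q1 _ (1 + 3 * K) b.de hde le_rfl h1 (by linarith)
  have h1 : |b.g x i| ≤ |b.g x i - p i| + |p i| := by
    have := abs_add_le (b.g x i - p i) (p i)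
    rwa [sub_add_cancel] at this
  have := hp i
  linarith

variable {D : ℕ} (b)

/-- the coefficients of the rows in the coordinates of the box -/
def cf (A : Matrix (Mon 4 D) (Mon 4 D) ℝ) (k a : Mon 4 D) : ℝ := coeff a.ex (b.tr (pol (rws A k)))

theorem pol_cf (A : Matrix (Mon 4 D) (Mon 4 D) ℝ) (k : Mon 4 D) : pol (b.cf A k) = b.tr (pol (rws A k)) := by
  obtain ⟨c, hc⟩ := exists_pol (b.tr (pol (rws A k))) (b.tr_deg (pol_deg _))
  have h1 : b.cf A k = c := by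
    funext a
    show coeff a.ex (b.tr (pol (rws A k))) = c a
    rw [hc, coeff_pol]
  rw [h1, hc]

theorem exists_mx (A : Matrix (Mon 4 D) (Mon 4 D) ℝ) : ∃ m : Mon 4 D × Mon 4 D, ∀ k a, |b.cf A k a| ≤ |b.cf A m.1 m.2| := by
  obtain ⟨m, -, hm⟩ := Finset.exists_max_image (Finset.univ : Finset (Mon 4 D × Mon 4 D))
    (fun p => |b.cf A p.1 p.2|) Finset.univ_nonempty
  exact ⟨m, fun k a => hm (k, a) (Finset.mem_univ _)⟩

/-- the place of the largest coefficient -/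
def mx (A : Matrix (Mon 4 D) (Mon 4 D) ℝ) : Mon 4 D × Mon 4 D := (b.exists_mx A).choose

theorem mx_spec (A : Matrix (Mon 4 D) (Mon 4 D) ℝ) (k a : Mon 4 D) :
    |b.cf A k a| ≤ |b.cf A (b.mx A).1 (b.mx A).2| := (b.exists_mx A).choose_spec k a

/-- the largest coefficient -/
def mc (A : Matrix (Mon 4 D) (Mon 4 D) ℝ) : ℝ := |b.cf A (b.mx A).1 (b.mx A).2|

theorem mc_nonneg (A : Matrix (Mon 4 D) (Mon 4 D) ℝ) : 0 ≤ b.mc A := abs_nonneg _

/-- the normalised row with the largest coefficient -/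
def nr (A : Matrix (Mon 4 D) (Mon 4 D) ℝ) (a : Mon 4 D) : ℝ := b.cf A (b.mx A).1 a / b.mc A

theorem nr_le (A : Matrix (Mon 4 D) (Mon 4 D) ℝ) (a : Mon 4 D) : |b.nr A a| ≤ 1 := by
  unfold nr
  rw [abs_div, abs_of_nonneg (b.mc_nonneg A)]
  exact div_le_one_of_le₀ (b.mx_spec A _ a) (b.mc_nonneg A)

theorem nr_one (A : Matrix (Mon 4 D) (Mon 4 D) ℝ) (h : 0 < b.mc A) : |b.nr A (b.mx A).2| = 1 := by
  unfold nr
  rw [abs_div, abs_of_nonneg (b.mc_nonneg A)]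
  exact div_self h.ne'

theorem eval_nr (A : Matrix (Mon 4 D) (Mon 4 D) ℝ) (p : Fin 4 → ℝ) :
    b.nr A ⬝ᵥ vv p = eval (b.f p) (pol (rws A (b.mx A).1)) / b.mc A := by
  rw [← b.eval_tr, ← b.pol_cf, eval_pol]
  unfold nr dotProduct
  rw [Finset.sum_div]
  exact Finset.sum_congr rfl fun a _ => by ring

theorem vv_le {p : Fin 4 → ℝ} {L : ℝ} (hL : 1 ≤ L) (hp : ∀ i, |p i| ≤ L) (a : Mon 4 D) : |vv p a| ≤ L ^ D := by
  rw [vv_apply, Finset.abs_prod]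
  calc ∏ i, |p i ^ (a.1 i : ℕ)| ≤ ∏ i, L ^ (a.1 i : ℕ) := by
        apply Finset.prod_le_prod
        · intro i _; exact abs_nonneg _
        · intro i _
          rw [abs_pow]
          exact pow_le_pow_left₀ (abs_nonneg _) (hp i) _
    _ = L ^ (∑ i, (a.1 i : ℕ)) := Finset.prod_pow_eq_pow_sum _ _ _
    _ ≤ L ^ D := pow_le_pow_right₀ hL a.2

/-- values of the rows in the box -/
theorem row_le (A : Matrix (Mon 4 D) (Mon 4 D) ℝ) (k : Mon 4 D) {p : Fin 4 → ℝ} {L : ℝ} (hL : 1 ≤ L)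
    (hp : ∀ i, |p i| ≤ L) : |eval (b.f p) (pol (rws A k))| ≤ Fintype.card (Mon 4 D) * (b.mc A * L ^ D) := by
  rw [← b.eval_tr, ← b.pol_cf, eval_pol]
  unfold dotProduct
  refine (Finset.abs_sum_le_sum_abs _ _).trans ?_
  refine (Finset.sum_le_card_nsmul _ _ (b.mc A * L ^ D) fun a _ => ?_).trans (le_of_eq ?_)
  · rw [abs_mul]
    exact mul_le_mul (b.mx_spec A k a) (vv_le hL hp a) (abs_nonneg _) (b.mc_nonneg A)
  · rw [nsmul_eq_mul, Finset.card_univ]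

/-- the constant -/
def Cb (D : ℕ) : ℝ := Fintype.card (Mon 4 D) * (nn 4 D * (Cu D * Cm 4 D * 1 ^ D) ^ 2 * (4 * nn 4 D * Cm 4 D ^ 2 *
  (nn 4 D * (Fintype.card (Mon 4 D)) ^ 2)))

theorem Cb_nonneg (D : ℕ) : 0 ≤ Cb D := by
  have := nn_one 4 D
  unfold Cb
  positivity

variable {b}

/-- LOWER BOUND for the largest coefficient -/
theorem Ok.low (o : b.Ok K) {A : Matrix (Mon 4 D) (Mon 4 D) ℝ} (hA : PdM A) {p : Fin 4 → ℝ} (hp : ∀ i, |p i| ≤ K)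
    {r : ℝ} (hr0 : 0 ≤ r) (hr : r ≤ b.de) :
    b.de ^ 2 * gam r A (b.f p) ≤ Cb D * (b.mc A * (5 * K) ^ D) ^ 2 := by
  have hde := o.pos
  have hdl : 0 < b.dl := hde.trans_le o.de
  have hdq : 0 < b.dq := hdl.trans_le o.dl
  have hK := o.K1
  obtain ⟨M, hM⟩ : ∃ M, M = b.mc A * (5 * K) ^ D := ⟨_, rfl⟩
  have hnn := nn_one 4 D
  have h1 : ∀ k : Mon 4 D, ph D (pol (rws A k)) b.de (b.f p) ≤ nn 4 D * (Fintype.card (Mon 4 D) * M) ^ 2 := by
    intro k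
    unfold ph
    refine (Finset.sum_le_card_nsmul _ _ ((Fintype.card (Mon 4 D) * M) ^ 2) fun j _ => ?_).trans (le_of_eq ?_)
    · have h2 : ∀ i, |b.g (nodp D (b.f p) b.de j) i| ≤ 5 * K := by
        apply o.near hp
        intro i
        have e1 : nodp D (b.f p) b.de j i - b.f p i = b.de * nod D (j i) := by
          unfold nodp
          ring
        rw [e1, abs_mul, abs_of_pos hde, abs_of_nonneg (nod_nonneg D _)]
        calc b.de * nod D (j i) ≤ b.de * 1 :=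
              mul_le_mul_of_nonneg_left (nod_le D _ (Nat.le_of_lt_succ (j i).2)) hde.le
          _ = b.de := mul_one _
      have h3 := b.row_le A k (show 1 ≤ 5 * K by linarith) h2
      rw [b.f_g hdq.ne' hdl.ne' hde.ne', ← hM] at h3
      rw [← sq_abs]
      exact pow_le_pow_left₀ (abs_nonneg _) h3 2
    · rw [nsmul_eq_mul, card_nodes]
  have h2 : ∀ k : Mon 4 D, b.de ^ 2 * ga D (pol (rws A k)) r (b.f p) ≤
      nn 4 D * (Cu D * Cm 4 D * 1 ^ D) ^ 2 * (4 * nn 4 D * Cm 4 D ^ 2 * (nn 4 D * (Fintype.card (Mon 4 D)) ^ 2)) * M ^ 2 := by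
    intro k
    have a1 := ga_comp (pol (rws A k)) (pol_deg _) b.de r 1 hde hr0 le_rfl (b.f p) (b.f p) (fun i => by
      rw [sub_self, abs_zero, zero_add, one_mul]
      exact hr)
    have a2 := ga_le (pol (rws A k)) (pol_deg _) b.de hde (b.f p)
    have a3 := h1 k
    have a4 : 0 ≤ nn 4 D * (Cu D * Cm 4 D * 1 ^ D) ^ 2 := by positivity
    have a5 : 0 ≤ 4 * nn 4 D * Cm 4 D ^ 2 := by positivity
    calc b.de ^ 2 * ga D (pol (rws A k)) r (b.f p) ≤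
        b.de ^ 2 * (nn 4 D * (Cu D * Cm 4 D * 1 ^ D) ^ 2 * ga D (pol (rws A k)) b.de (b.f p)) :=
          mul_le_mul_of_nonneg_left a1 (sq_nonneg _)
      _ = nn 4 D * (Cu D * Cm 4 D * 1 ^ D) ^ 2 * (b.de ^ 2 * ga D (pol (rws A k)) b.de (b.f p)) := by ring
      _ ≤ nn 4 D * (Cu D * Cm 4 D * 1 ^ D) ^ 2 * (((4 : ℕ) : ℝ) * nn 4 D * Cm 4 D ^ 2 * ph D (pol (rws A k)) b.de (b.f p)) :=
          mul_le_mul_of_nonneg_left a2 a4
      _ = nn 4 D * (Cu D * Cm 4 D * 1 ^ D) ^ 2 * (4 * nn 4 D * Cm 4 D ^ 2 * ph D (pol (rws A k)) b.de (b.f p)) := by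
          push_cast; ring
      _ ≤ nn 4 D * (Cu D * Cm 4 D * 1 ^ D) ^ 2 * (4 * nn 4 D * Cm 4 D ^ 2 * (nn 4 D * (Fintype.card (Mon 4 D) * M) ^ 2)) :=
          mul_le_mul_of_nonneg_left (mul_le_mul_of_nonneg_left a3 a5) a4
      _ = _ := by ring
  rw [rws_gam hA, Finset.mul_sum, ← hM]
  refine (Finset.sum_le_card_nsmul _ _ _ fun k _ => h2 k).trans (le_of_eq ?_)
  rw [nsmul_eq_mul, Finset.card_univ]
  unfold Cb
  ring

/-- UPPER BOUND for the normalised row -/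
theorem up {A : Matrix (Mon 4 D) (Mon 4 D) ℝ} (hA : PdM A) {p : Fin 4 → ℝ} {r : ℝ} (hr : 0 < r) :
    (b.nr A ⬝ᵥ vv p) ^ 2 * b.mc A ^ 2 ≤ (Cm 4 D * 1 ^ (4 * D)) ^ 2 * phi r A (b.f p) := by
  rw [b.eval_nr]
  rcases (b.mc_nonneg A).eq_or_lt with h0 | h0
  · rw [← h0]
    have h1 : 0 ≤ phi r A (b.f p) := by
      rw [rws_phi hA]
      exact Finset.sum_nonneg fun _ _ => ph_nonneg _ _ _
    have : ((0 : ℝ)) ^ 2 = 0 := by norm_num
    rw [this, mul_zero]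
    positivity
  · rw [div_pow, div_mul_cancel₀ _ (by positivity)]
    refine (val_le (pol (rws A (b.mx A).1)) (pol_deg _) r 1 hr le_rfl (b.f p) (b.f p) (fun i => by
      rw [sub_self, abs_zero, one_mul]
      exact hr.le)).trans ?_
    exact mul_le_mul_of_nonneg_left (rws_ph_le hA r _ _) (sq_nonneg _)

end Bp

end

end Pool.Agent.Helper46.LIN
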