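import Pool.Agent.Helper31.EC.Uns
import Pool.Agent.Helper80.MX.Span

/-! Nested restrictions; a finite chain of functions: the first one that is not small is a unit on an event. -/

set_option autoImplicit false

namespace Pool.Agent.Helper46.LIN

open Finset Filter Topology Pool.Agent.Helper69.RK Pool.Agent.Helper31.EC

noncomputable section

open Sp QS

variable {S : Sp}

/-- the intersection of an event and an event of the restricted space -/
def EE (E : ∀ k, (S.F k).Ω → Prop) (E' : ∀ k, ((S.rest E).F k).Ω → Prop) : ∀ k, (S.F k).Ω → Prop :=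
  fun k ω => E k ω ∧ E' k ω

variable (E : ∀ k, (S.F k).Ω → Prop) (E' : ∀ k, ((S.rest E).F k).Ω → Prop)

theorem res_res {Ω : Type} (μ : Ω → ℝ) (A B : Ω → Prop) (c : ℝ) :
    res (fun ω => c * res μ A ω) B = fun ω => c * res μ (fun ω => A ω ∧ B ω) ω := by
  funext ω
  by_cases hB : B ω
  · rw [res_pos _ _ _ hB]
    by_cases hA : A ω
    · rw [res_pos _ _ _ hA, res_pos _ (fun ω => A ω ∧ B ω) _ ⟨hA, hB⟩]
    · rw [res_neg _ _ _ hA, res_neg _ (fun ω => A ω ∧ B ω) _ (fun h => hA h.1)]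
  · rw [res_neg _ _ _ hB, res_neg _ (fun ω => A ω ∧ B ω) _ (fun h => hB h.2), mul_zero]

theorem rr_pb (k : ℕ) (h : (S.F k).pb (E k) ≠ 0) :
    (S.F k).pb (EE E E' k) = (S.F k).pb (E k) * ((S.rest E).F k).pb (E' k) := by
  have h1 : ((S.rest E).F k).pb (E' k) = mass (res (fun ω => ((S.F k).pb (E k))⁻¹ * res (S.F k).μ (E k) ω) (E' k)) := by
    rw [← (S.F k).restμ_eq _ h]
    rfl
  rw [h1, res_res]
  unfold FSp.pb mass
  rw [← Finset.mul_sum, ← mul_assoc]
  have h2 : (∑ ω, res (S.F k).μ (E k) ω) ≠ 0 := h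
  rw [mul_inv_cancel₀ h2, one_mul]
  rfl

theorem rr_μ (k : ℕ) (h : (S.F k).pb (E k) ≠ 0) (h' : ((S.rest E).F k).pb (E' k) ≠ 0) :
    (((S.rest E).rest E').F k).μ = ((S.rest (EE E E')).F k).μ := by
  have e1 : (((S.rest E).rest E').F k).μ = ((S.rest E).F k).restμ (E' k) := rfl
  have e2 : ((S.rest (EE E E')).F k).μ = (S.F k).restμ (EE E E' k) := rfl
  rw [e1, e2, FSp.restμ_eq _ _ h', FSp.restμ_eq _ _ (by rw [rr_pb E E' k h]; exact mul_ne_zero h h'), rr_pb E E' k h]
  have e3 : ((S.rest E).F k).μ = fun ω => ((S.F k).pb (E k))⁻¹ * res (S.F k).μ (E k) ω := (S.F k).restμ_eq _ h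
  rw [e3]
  have e4 := res_res (S.F k).μ (E k) (E' k) ((S.F k).pb (E k))⁻¹
  funext ω
  have e5 := congrFun e4 ω
  show (((S.rest E).F k).pb (E' k))⁻¹ * res (fun ω => ((S.F k).pb (E k))⁻¹ * res (S.F k).μ (E k) ω) (E' k) ω = _
  rw [e5, mul_inv, ← mul_assoc, mul_comm (((S.rest E).F k).pb (E' k))⁻¹]
  rfl

theorem rr_pos (hE : 0 < ul (S.pr E)) (hE' : 0 < ul ((S.rest E).pr E')) : 0 < ul (S.pr (EE E E')) := by
  have h1 : ul (S.pr (EE E E')) = ul (fun k => S.pr E k * (S.rest E).pr E' k) := by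
    apply ul_congr
    filter_upwards [(ul_tendsto (UB_pr E)).eventually (lt_mem_nhds hE)] with k h1
    exact rr_pb E E' k h1.ne'
  rw [h1, ul_mul (UB_pr E) (UB_pr (S := S.rest E) E')]
  exact mul_pos hE hE'

theorem rr_ev (hE : 0 < ul (S.pr E)) (hE' : 0 < ul ((S.rest E).pr E')) :
    ∀ᶠ k in UF, (((S.rest E).rest E').F k).μ = ((S.rest (EE E E')).F k).μ := by
  filter_upwards [(ul_tendsto (UB_pr E)).eventually (lt_mem_nhds hE),
    (ul_tendsto (UB_pr (S := S.rest E) E')).eventually (lt_mem_nhds hE')] with k h1 h2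
  exact rr_μ E E' k h1.ne' h2.ne'

theorem rr_typ (hE : 0 < ul (S.pr E)) (hE' : 0 < ul ((S.rest E).pr E')) (A : ∀ k, (S.F k).Ω → Prop)
    (h : Typ (S := (S.rest E).rest E') A) : Typ (S := S.rest (EE E E')) A := by
  unfold Typ at h ⊢
  refine h.congr' ?_
  filter_upwards [rr_ev E E' hE hE'] with k hk
  exact congrArg (fun μ : (S.F k).Ω → ℝ => mass (res μ (fun ω => ¬ A k ω))) hk

theorem rr_mem (hE : 0 < ul (S.pr E)) (hE' : 0 < ul ((S.rest E).pr E')) {f : QS S} {r : ℝ} (hr : r ≤ 1)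
    (h : QS.rest E' hE' (QS.rest E hE f) ∈ Id ((S.rest E).rest E') r) :
    QS.rest (EE E E') (rr_pos E E' hE hE') f ∈ Id (S.rest (EE E E')) r := by
  obtain ⟨f, rfl⟩ := mk_surj f
  rw [QS.rest_mk, QS.rest_mk, mk_mem_Id hr] at h
  rw [QS.rest_mk, mk_mem_Id hr]
  obtain ⟨A, K, hA, hK, hh⟩ := h
  refine ⟨A, K, rr_typ E E' hE hE' A hA, hK, ?_⟩
  filter_upwards [hh, rr_ev E E' hE hE'] with k hk hμ ω a b
  exact hk ω (by rw [hμ]; exact a) b

theorem rr_le (hE : 0 < ul (S.pr E)) (hE' : 0 < ul ((S.rest E).pr E')) {f : QS S} {r : ℝ} (hr : r ≤ 1)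
    (h : QS.rest E hE f ∈ Id (S.rest E) r) :
    QS.rest (EE E E') (rr_pos E E' hE hE') f ∈ Id (S.rest (EE E E')) r := by
  apply rr_mem E E' hE hE' hr
  obtain ⟨f, rfl⟩ := mk_surj f
  rw [QS.rest_mk, mk_mem_Id hr] at h
  rw [QS.rest_mk, QS.rest_mk, mk_mem_Id hr]
  have h1 := h.rest E' hE'
  rwa [map_zero] at h1

/-- CHAIN: a sequence of functions which starts with zero: on some event of positive probability the first ones are
small and the next one is a unit, or all are small -/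
theorem chain (f : ℕ → QS S) (h0 : f 0 = 0) (N : ℕ) :
    (∃ (j : ℕ) (E : ∀ k, (S.F k).Ω → Prop) (hE : 0 < ul (S.pr E)) (d : ℝ), 0 < d ∧ d ≤ 1 ∧
      QS.rest E hE (f j) ∈ Id (S.rest E) d ∧ IsUnit (QS.rest E hE (f (j + 1)))) ∨
    (∃ (E : ∀ k, (S.F k).Ω → Prop) (hE : 0 < ul (S.pr E)) (d : ℝ), 0 < d ∧ d ≤ 1 ∧
      ∀ j ≤ N, QS.rest E hE (f j) ∈ Id (S.rest E) d) := by
  induction N with
  | zero =>
    right
    have h1 : 0 < ul (S.pr fun _ _ => True) := by
      have h2 : S.pr (fun _ _ => True) = fun _ => (1 : ℝ) := by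
        funext k
        show mass (res (S.F k).μ (fun _ => True)) = 1
        have h3 : res (S.F k).μ (fun _ => True) = (S.F k).μ := by
          funext ω
          exact res_pos _ _ _ trivial
        rw [h3, (S.F k).ms]
      rw [h2, ul_const]
      exact one_pos
    refine ⟨_, h1, 1, one_pos, le_rfl, fun j hj => ?_⟩
    rw [Nat.le_zero.mp hj, h0, map_zero]
    exact Ideal.zero_mem _
  | succ N ih =>
    rcases ih with h | ⟨E, hE, d, hd, hd1, h⟩
    · exact Or.inl h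
    · by_cases hu : IsUnit (QS.rest E hE (f (N + 1)))
      · exact Or.inl ⟨N, E, hE, d, hd, hd1, h N le_rfl, hu⟩
      · obtain ⟨d', hd', E', hE', h'⟩ := Pool.Agent.Helper80.MX.exists_small hu
        right
        have hm : min d d' ≤ 1 := (min_le_left _ _).trans hd1
        refine ⟨EE E E', rr_pos E E' hE hE', min d d', lt_min hd hd', hm, fun j hj => ?_⟩
        rcases Nat.lt_or_ge N j with h1 | h1
        · have h2 : j = N + 1 := by omega
          rw [h2]
          exact rr_mem E E' hE hE' hm (Id_anti (min_le_right _ _) h')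
        · exact rr_le E E' hE hE' hm (Id_anti (min_le_left _ _) (h j h1))

end

end Pool.Agent.Helper46.LIN
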