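import Pool.Agent.Helper46.LIN.Sub
import Pool.Agent.Helper46.LIN.Nest

/-! LIN2: a constant form with a unit coefficient which vanishes at the point: on an event of positive probability and at
a smaller depth the point lies on a constant hyperplane. -/

set_option autoImplicit false

namespace Pool.Agent.Helper46.LIN

open Finset Filter Topology Pool.Agent.Helper69.RK Pool.Agent.Helper31.EC

noncomputable section

open Sp QS Pool.Agent.Helper38.NS

section alg

variable {A : Type} [CommRing A]

/-- iterated derivatives in the last variable -/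
def it (q : MvPolynomial (Fin 4) A) (j : ℕ) : MvPolynomial (Fin 4) A := (fun f => MvPolynomial.pderiv 3 f)^[j] q

theorem it_zero (q : MvPolynomial (Fin 4) A) : it q 0 = q := rfl

theorem it_succ (q : MvPolynomial (Fin 4) A) (j : ℕ) : it q (j + 1) = MvPolynomial.pderiv 3 (it q j) :=
  Function.iterate_succ_apply' _ j q

theorem totalDegree_pderiv_le (q : MvPolynomial (Fin 4) A) {D : ℕ} (h : q.totalDegree ≤ D) :
    (MvPolynomial.pderiv 3 q).totalDegree ≤ D := by
  unfold MvPolynomial.totalDegree
  apply Finset.sup_le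
  intro m hm
  have h1 : q.coeff (m + Finsupp.single 3 1) ≠ 0 := by
    intro hc
    rw [MvPolynomial.mem_support_iff, MvPolynomial.coeff_pderiv, hc, zero_mul] at hm
    exact hm rfl
  have h2 := MvPolynomial.le_totalDegree (MvPolynomial.mem_support_iff.mpr h1)
  refine le_trans ?_ (h2.trans h)
  rw [Finsupp.sum_add_index' (fun _ => rfl) (fun _ _ _ => rfl)]
  exact Nat.le_add_right _ _

theorem totalDegree_map_le' {B : Type} [CommRing B] (φ : A →+* B) (q : MvPolynomial (Fin 4) A) :
    (MvPolynomial.map φ q).totalDegree ≤ q.totalDegree := Finset.sup_mono (MvPolynomial.support_map_subset φ q)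

theorem totalDegree_it_le (q : MvPolynomial (Fin 4) A) {D : ℕ} (h : q.totalDegree ≤ D) (j : ℕ) :
    (it q j).totalDegree ≤ D := by
  induction j with
  | zero => exact h
  | succ j ih =>
    rw [it_succ]
    exact totalDegree_pderiv_le _ ih

/-- the last variable becomes free -/
def fz (x : Fin 4 → A) : MvPolynomial (Fin 4) A →+* Polynomial A :=
  MvPolynomial.eval₂Hom Polynomial.C (fun k => if k = 3 then Polynomial.X else Polynomial.C (x k))

theorem fz_X (x : Fin 4 → A) (k : Fin 4) : fz x (MvPolynomial.X k) = if k = 3 then Polynomial.X else Polynomial.C (x k) :=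
  MvPolynomial.eval₂Hom_X' _ _ k

theorem fz_C (x : Fin 4 → A) (a : A) : fz x (MvPolynomial.C a) = Polynomial.C a :=
  MvPolynomial.eval₂Hom_C _ _ a

theorem fz_eval (x : Fin 4 → A) (s : A) (q : MvPolynomial (Fin 4) A) :
    (fz x q).eval s = MvPolynomial.eval (fun k => if k = 3 then s else x k) q := by
  induction q using MvPolynomial.induction_on with
  | C a => rw [fz_C, Polynomial.eval_C, MvPolynomial.eval_C]
  | add p q hp hq => rw [map_add, Polynomial.eval_add, hp, hq, map_add]
  | mul_X p k hp =>
    rw [map_mul, Polynomial.eval_mul, hp, fz_X, map_mul, MvPolynomial.eval_X]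
    split_ifs
    · rw [Polynomial.eval_X]
    · rw [Polynomial.eval_C]

theorem fz_deriv (x : Fin 4 → A) (q : MvPolynomial (Fin 4) A) :
    (fz x q).derivative = fz x (MvPolynomial.pderiv 3 q) := by
  induction q using MvPolynomial.induction_on with
  | C a => rw [fz_C, Polynomial.derivative_C, MvPolynomial.pderiv_C, map_zero]
  | add p q hp hq => rw [map_add, Polynomial.derivative_add, hp, hq, map_add, map_add]
  | mul_X p k hp =>
    rw [map_mul, Polynomial.derivative_mul, hp, MvPolynomial.pderiv_mul, map_add, map_mul, map_mul, fz_X]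
    congr 2
    by_cases h : k = 3
    · rw [if_pos h, Polynomial.derivative_X, h, MvPolynomial.pderiv_X_self, map_one]
    · rw [if_neg h, Polynomial.derivative_C, MvPolynomial.pderiv_X_of_ne h, map_zero]

theorem fz_it (x : Fin 4 → A) (q : MvPolynomial (Fin 4) A) (j : ℕ) :
    (fun f => Polynomial.derivative f)^[j] (fz x q) = fz x (it q j) := by
  induction j with
  | zero => rfl
  | succ j ih =>
    rw [Function.iterate_succ_apply', ih, it_succ, fz_deriv]

/-- a polynomial whose derivatives vanish at a point is zero -/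
theorem poly_zero (hu : ∀ n : ℕ, n ≠ 0 → IsUnit (n : A)) (F : Polynomial A) (s : A)
    (h : ∀ j ≤ F.natDegree, ((fun f => Polynomial.derivative f)^[j] F).eval s = 0) : F = 0 := by
  apply (Polynomial.taylor_eq_zero s F).mp
  apply Polynomial.ext
  intro j
  rw [Polynomial.taylor_coeff, Polynomial.coeff_zero]
  have h1 : ((fun f => Polynomial.derivative f)^[j] F).eval s = 0 := by
    rcases Nat.lt_or_ge F.natDegree j with hj | hj
    · have h2 : (fun f => Polynomial.derivative f)^[j] F = 0 := Polynomial.iterate_derivative_eq_zero hj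
      rw [h2, Polynomial.eval_zero]
    · exact h j hj
  have h2 : (fun f => Polynomial.derivative f)^[j] F = (j.factorial • Polynomial.hasseDeriv j) F := by
    rw [Polynomial.factorial_smul_hasseDeriv]
  rw [h2, LinearMap.smul_apply, Polynomial.eval_smul, nsmul_eq_mul] at h1
  have h3 := (hu _ (Nat.factorial_ne_zero j)).mul_right_eq_zero.mp h1
  exact h3

end alg

section real

variable {S : Sp}

/-- natural numbers are units -/
theorem unit_nat (n : ℕ) (hn : n ≠ 0) : IsUnit (n : QS S) :=
  Pool.Agent.Helper50.CV.isUnit_nat n (Nat.pos_of_ne_zero hn)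

/-- a constant form whose derivatives in the last variable vanish at a point with real first coordinates is zero -/
theorem form_zero {l : LD S} (hl : LH l) (q : MvPolynomial (Fin 4) (QS S)) (hc : ∀ m, dg (q.coeff m) 1 = ⊥)
    (h : ∀ j ≤ (fz l.P q).natDegree, MvPolynomial.eval l.P (it q j) = 0) : q = 0 := by
  classical
  have hP : (fun k : Fin 4 => if k = 3 then l.z else l.P k) = l.P := by
    funext k
    fin_cases k <;> rfl
  have h1 : fz l.P q = 0 := by
    apply poly_zero unit_nat (fz l.P q) l.z
    intro j hj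
    rw [fz_it, fz_eval, hP]
    exact h j hj
  obtain ⟨C⟩ := exists_CQ (fun _ : Fin 1 => (0 : QS S)) 1
  have hv : vd (fun _ : Fin 1 => (0 : QS S)) 1 = ⊥ := by
    apply le_antisymm _ bot_le
    rw [vd_le]
    intro i
    exact (dg_of_mem_Id (mem_Id_one.mpr rfl) le_rfl le_rfl).le
  have h2 := C.rl l.M (by rw [hv]; exact hl.rl)
  have h3 := h2.comp (![(0, 0), (0, 1), (0, 2), (1, 0)] : Fin 4 → Fin 2 × Fin 3) (by decide)
  set x : Fin 4 → QS C.W := fun i => (C.p ((![(0, 0), (0, 1), (0, 2), (1, 0)] : Fin 4 → Fin 2 × Fin 3) i).1).qs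
    (l.M ((![(0, 0), (0, 1), (0, 2), (1, 0)] : Fin 4 → Fin 2 × Fin 3) i).2) with hx
  have h4 : MvPolynomial.map (C.p 0).qs q = 0 := by
    apply mv_eq_zero 4 C.v x _ h3
    · intro m
      rw [MvPolynomial.coeff_map, (C.p 0).qs_dg, hc m, Pj.map_bot]
      exact bot_le
    · have e1 : x = fun k => if k = 3 then x 3 else (C.p 0).qs (l.P k) := by
        funext k
        fin_cases k <;> rfl
      have e2 : (fz (fun k => (C.p 0).qs (l.P k)) (MvPolynomial.map (C.p 0).qs q)) = (fz l.P q).map (C.p 0).qs := by
        clear h h1 hc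
        induction q using MvPolynomial.induction_on with
        | C a => rw [fz_C, MvPolynomial.map_C, fz_C, Polynomial.map_C]
        | add p q hp hq => rw [map_add, map_add, map_add, hp, hq, Polynomial.map_add]
        | mul_X p k hp =>
          rw [map_mul, map_mul, map_mul, hp, MvPolynomial.map_X, fz_X, fz_X, Polynomial.map_mul]
          congr 1
          split_ifs
          · rw [Polynomial.map_X]
          · rw [Polynomial.map_C]
      rw [e1, ← fz_eval, e2, h1, Polynomial.map_zero, Polynomial.eval_zero]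
  apply MvPolynomial.ext
  intro m
  have h5 : (C.p 0).qs (q.coeff m) = 0 := by
    rw [← MvPolynomial.coeff_map, h4, MvPolynomial.coeff_zero]
  rw [MvPolynomial.coeff_zero]
  apply (C.p 0).qs_injective
  rw [h5, map_zero]

end real

section main

variable {S : Sp}

theorem it_map {A B : Type} [CommRing A] [CommRing B] (φ : A →+* B) (q : MvPolynomial (Fin 4) A) (j : ℕ) :
    it (MvPolynomial.map φ q) j = MvPolynomial.map φ (it q j) := by
  induction j with
  | zero => rfl
  | succ j ih => rw [it_succ, it_succ, ih, MvPolynomial.pderiv_map]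

theorem it_const (q : MvPolynomial (Fin 4) (QS S)) (hc : ∀ m, dg (q.coeff m) 1 = ⊥) (j : ℕ) (m : Fin 4 →₀ ℕ) :
    dg ((it q j).coeff m) 1 = ⊥ := by
  induction j generalizing m with
  | zero => exact hc m
  | succ j ih =>
    rw [it_succ, MvPolynomial.coeff_pderiv]
    apply le_antisymm _ bot_le
    refine (dg_mul_le _ _ le_rfl).trans (sup_le (ih _).le ?_)
    have e1 : ((m 3 : ℕ) : QS S) + 1 = ((m 3 + 1 : ℕ) : QS S) := by push_cast; rfl
    rw [e1]
    exact natCast_mem (Kn S 1 le_rfl ⊥) _

theorem eval_sub_map {l : LD S} (E : ∀ k, (S.F k).Ω → Prop) (hE : 0 < ul (S.pr E)) (κ : ℝ) (h0 : 0 < κ) (h1 : κ ≤ 1)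
    (q : MvPolynomial (Fin 4) (QS S)) :
    MvPolynomial.eval (l.sub E hE κ h0 h1).P (MvPolynomial.map (phi E hE κ h0 h1) q) =
      phi E hE κ h0 h1 (MvPolynomial.eval l.P q) := by
  rw [LD.sub_P]
  induction q using MvPolynomial.induction_on with
  | C a => rw [MvPolynomial.map_C, MvPolynomial.eval_C, MvPolynomial.eval_C]
  | add p q hp hq => rw [map_add, map_add, hp, hq, map_add, map_add]
  | mul_X p k hp => rw [map_mul, map_mul, hp, MvPolynomial.map_X, MvPolynomial.eval_X, map_mul, map_mul, MvPolynomial.eval_X]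

/-- LIN2, strong form: on no event all coefficients of the form are small -/
theorem lin2w (hL : ST_LIN) {l : LD S} (hl : LH l) {D : ℕ} {q : MvPolynomial (Fin 4) (QS S)} (hq : LF l D q)
    (hu : ∀ (E : ∀ k, (S.F k).Ω → Prop) (hE : 0 < ul (S.pr E)) (d : ℝ), 0 < d → d ≤ 1 →
      ∃ m, QS.rest E hE (q.coeff m) ∉ Id (S.rest E) d) :
    ∃ (E : ∀ k, (S.F k).Ω → Prop) (hE : 0 < ul (S.pr E)) (d : ℝ) (_ : 0 < d) (_ : d ≤ 1)
      (u : Fin 4 → QS (S.rest E)), (∀ i, dg (u i) d = ⊥) ∧
      QS.rest E hE l.z - (u 0 + u 1 * QS.rest E hE l.t + u 2 * QS.rest E hE l.y + u 3 * QS.rest E hE l.R) ∈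
        Id (S.rest E) d := by
  rcases chain (fun j => MvPolynomial.eval l.P (it q j)) hq.zero (fz l.P q).natDegree with
    ⟨j, E, hE, d, hd, hd1, h1, h2⟩ | ⟨E, hE, d, hd, hd1, h⟩
  · have hs := hl.sub E hE d hd hd1
    set q' := MvPolynomial.map (phi E hE d hd hd1) (it q j) with hq'
    have hF : LF (l.sub E hE d hd hd1) D q' := by
      refine ⟨?_, ?_, ?_⟩
      · exact (totalDegree_map_le' _ _).trans (totalDegree_it_le q hq.deg j)
      · intro m
        rw [hq', MvPolynomial.coeff_map]
        apply le_antisymm _ bot_le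
        refine (phi_one_le E hE d hd hd1 _ (it_const q hq.const j m).le).trans ?_
        rw [restL_bot, dL_bot]
      · rw [hq', eval_sub_map]
        exact (phi_zero E hE d hd hd1 _).mpr h1
    have hun : IsUnit (MvPolynomial.eval (l.sub E hE d hd hd1).P (MvPolynomial.pderiv 3 q')) := by
      rw [hq', MvPolynomial.pderiv_map, eval_sub_map, ← it_succ]
      exact h2.map (dQ d hd hd1)
    obtain ⟨u', hu1, hu2⟩ := hL _ _ hs D q' hF hun
    choose u hu3 using fun i => dQ_surj d hd hd1 (u' i)
    refine ⟨E, hE, d, hd, hd1, u, fun i => ?_, ?_⟩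
    · have e1 := hu1 i
      rw [← hu3 i, dQ_dg d hd hd1 _ le_rfl, mul_one, ← dL_bot d hd] at e1
      exact dL_inj d hd e1
    · rw [← dQ_eq_zero d hd hd1, map_sub, map_add, map_add, map_add, map_mul, map_mul, map_mul, hu3, hu3, hu3, hu3,
        sub_eq_zero]
      exact hu2
  · exfalso
    have hs := hl.sub E hE d hd hd1
    have h3 : MvPolynomial.map (phi E hE d hd hd1) q = 0 := by
      apply form_zero hs
      · intro m
        rw [MvPolynomial.coeff_map]
        apply le_antisymm _ bot_le
        refine (phi_one_le E hE d hd hd1 _ (hq.const m).le).trans ?_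
        rw [restL_bot, dL_bot]
      · intro j _
        rw [it_map, eval_sub_map, phi_zero]
        by_cases hj : j ≤ (fz l.P q).natDegree
        · exact h j hj
        · have e1 : (fz l.P (it q j)).eval l.z = 0 := by
            rw [← fz_it]
            have e2 : (fun f => Polynomial.derivative f)^[j] (fz l.P q) = 0 :=
              Polynomial.iterate_derivative_eq_zero (not_le.mp hj)
            rw [e2, Polynomial.eval_zero]
          have hP : (fun k : Fin 4 => if k = 3 then l.z else l.P k) = l.P := by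
            funext k
            fin_cases k <;> rfl
          rw [fz_eval, hP] at e1
          rw [e1, map_zero]
          exact Ideal.zero_mem _
    obtain ⟨m, hm⟩ := hu E hE d hd hd1
    apply hm
    rw [← phi_zero E hE d hd hd1, ← MvPolynomial.coeff_map, h3, MvPolynomial.coeff_zero]

/-- LIN2 -/
theorem lin2 (hL : ST_LIN) {l : LD S} (hl : LH l) {D : ℕ} {q : MvPolynomial (Fin 4) (QS S)} (hq : LF l D q)
    (hu : ∃ m, IsUnit (q.coeff m)) :
    ∃ (E : ∀ k, (S.F k).Ω → Prop) (hE : 0 < ul (S.pr E)) (d : ℝ) (_ : 0 < d) (_ : d ≤ 1)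
      (u : Fin 4 → QS (S.rest E)), (∀ i, dg (u i) d = ⊥) ∧
      QS.rest E hE l.z - (u 0 + u 1 * QS.rest E hE l.t + u 2 * QS.rest E hE l.y + u 3 * QS.rest E hE l.R) ∈
        Id (S.rest E) d := by
  apply lin2w hL hl hq
  intro E hE d hd hd1
  obtain ⟨m, hm⟩ := hu
  refine ⟨m, fun hc => ?_⟩
  have hs := hl.sub E hE d hd hd1
  have h4 : IsUnit (phi E hE d hd hd1 (q.coeff m)) := hm.map _
  rw [(phi_zero E hE d hd hd1 _).mpr hc] at h4
  have h6 := isUnit_zero_iff.mp h4
  have h7 := hs.time
  have h8 : (l.sub E hE d hd hd1).t = 0 := by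
    rw [← one_mul (l.sub E hE d hd hd1).t, ← h6, zero_mul]
  rw [h8, dg_of_mem_Id (mem_Id_one.mpr rfl) le_rfl le_rfl] at h7
  have h9 : Pool.Agent.Helper31.EC.h (⊥ : (dp (S.rest E) d hd).L) (l.sub E hE d hd hd1).iL = 0 := by
    apply h_eq_zero_iff.mpr
    exact bot_le
  rw [h9] at h7
  exact zero_ne_one h7

end main

end

end Pool.Agent.Helper46.LIN
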