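import Pool.Agent.Helper46.LIN.L1Frm
import Pool.Agent.Helper46.LIN.Min

/-! The normalised form as a polynomial with constant coefficients over the ring of functions of the box. -/

set_option autoImplicit false

namespace Pool.Agent.Helper46.LIN

open Finset Filter Topology Pool.Agent.Helper69.RK Pool.Agent.Helper31.EC Pool.Agent.Helper98.FR
open Pool.Agent.Helper3.LF Matrix
open Pool.Agent.Helper95.LF (PdM)
open Pool.Agent.Helper60.CS (eval_mon eval_sum_mon degree_sum_mon typ_chg Sub_sum)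

noncomputable section

open Sp QS

/-- typical events are eventually nonempty -/
theorem typ_ex {T : Sp} {A : ∀ k, (T.F k).Ω → Prop} (h : Typ A) : ∀ᶠ k in UF, ∃ ω, (T.F k).μ ω ≠ 0 ∧ A k ω := by
  have h1 := (Typ_iff A).mp h
  filter_upwards [h1.eventually (lt_mem_nhds (show (1 : ℝ) / 2 < 1 by norm_num))] with k hk
  by_contra hc
  push Not at hc
  have h2 : T.pr A k ≤ T.pr (fun _ _ => False) k := FSp.pb_mono _ fun ω a b => hc ω a b
  have h3 : T.pr (fun _ _ => False) k = 0 := by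
    show mass (res (T.F k).μ (fun _ => False)) = 0
    unfold mass
    apply Finset.sum_eq_zero
    intro ω _
    exact res_neg _ _ ω (fun h => h)
  linarith

/-- subexponential functions are eventually smaller than exponential ones -/
theorem sub_dl_lt {T : Sp} {K : ℕ → ℝ} (hK : T.Sub K) {d : ℝ} (hd : 0 < d) : ∀ᶠ k in UF, K k * T.dl d k < 1 := by
  filter_upwards [hK.eventually_le (half_pos hd), T.lim.eventually (eventually_gt_atTop 0)] with k h1 h2
  have h3 : K k ≤ 2 ^ (d / 2 * (T.F k).n) := by linarith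
  have h4 : T.dl d k = 2 ^ (-(d * (T.F k).n)) := rfl
  calc K k * T.dl d k ≤ 2 ^ (d / 2 * (T.F k).n) * T.dl d k := mul_le_mul_of_nonneg_right h3 (T.dl_pos d k).le
    _ = 2 ^ (-(d / 2 * (T.F k).n)) := by
        rw [h4, ← Real.rpow_add (by norm_num)]
        congr 1
        ring
    _ < 1 := Real.rpow_lt_one_of_one_lt_of_neg (by norm_num) (by
        have : 0 < d / 2 * (T.F k).n := by positivity
        linarith)

/-- a function which is typically at least `1` is not small -/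
theorem not_small {T : Sp} {f : TR T} (h : Typ (S := T) (fun k ω => 1 ≤ |f.1 k ω|)) {d : ℝ} (hd : 0 < d)
    (hd1 : d ≤ 1) : QS.mk f ∉ Id T d := by
  intro hc
  rw [mk_mem_Id hd1] at hc
  obtain ⟨A, K, hA, hK, hh⟩ := hc
  have h1 := typ_ex (h.and hA)
  have h2 := sub_dl_lt hK hd
  have h3 : ∀ᶠ k in UF, False := by
    filter_upwards [h1, h2, hh] with k ⟨ω, a, b, c⟩ g1 g2
    have g3 : |f.1 k ω - 0| ≤ K k * T.dl d k := g2 ω a c
    rw [sub_zero] at g3
    linarith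
  exact (h3.exists).choose_spec

variable {S : Sp} {B : BD S} {i0 : ℕ} (e : ℝ) (he : 0 < e) {D : ℕ} {σ : ℝ} (F : Fm B i0 D σ)

/-- the coefficients are constants -/
theorem cs_const (a : Mon 4 D) (r : ℝ) : TR.dg (cs e he F a) r = ⊥ := by
  apply le_antisymm _ bot_le
  rw [← cl_bot]
  apply TR.dg_le_cl (cs e he F a) r Inf.bot (fun _ _ => True) Typ_true (fun _ => 0) (Sp.Sub_const _ le_rfl)
  have h3 : ∀ᶠ k in UF, ∀ j : Fin 3, ∀ ω ω', (S.F k).μ ω ≠ 0 → (S.F k).μ ω' ≠ 0 →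
    B.V i0 k ω ω' → (S.F k).Z ω ω' → (B.r i0 j).1 k ω = (B.r i0 j).1 k ω' := eventually_all.mpr fun j => B.lr i0 j
  have h4 : ∀ᶠ k in UF, ∀ j : Fin 4, ∀ ω ω', (S.F k).μ ω ≠ 0 → (S.F k).μ ω' ≠ 0 →
    B.V i0 k ω ω' → (S.F k).Z ω ω' → (B.c i0 j).1 k ω = (B.c i0 j).1 k ω' := eventually_all.mpr fun j => B.lc i0 j
  filter_upwards [F.hg, B.lt i0, B.ly i0, h3, h4] with k a1 a2 a3 a4 a5 ω ω' c d _ _ g _
  have g1 : (B.V i0 k ⊓ (S.F k).Z) ω ω' := g
  have e1 : F.g k ω = F.g k ω' := a1 ω ω' c d g1.1 g1.2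
  have e2 : bp B i0 k ω = bp B i0 k ω' := by
    unfold bp
    rw [a2 ω ω' c d g1.1 g1.2, a3 ω ω' c d g1.1 g1.2]
    congr 1
    · funext j
      exact a4 j ω ω' c d g1.1 g1.2
    · funext j
      exact a5 j ω ω' c d g1.1 g1.2
  have h1 : (cs e he F a).1 k ω = (cs e he F a).1 k ω' := by
    show (bp B i0 k ω).nr (F.g k ω) a = (bp B i0 k ω').nr (F.g k ω') a
    rw [e1, e2]
  show |(cs e he F a).1 k ω - (cs e he F a).1 k ω'| ≤ _
  rw [h1, sub_self, abs_zero, zero_mul]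

/-- the form -/
def qQ : MvPolynomial (Fin 4) (QS (B.Sj i0 e he)) :=
  ∑ a : Mon 4 D, MvPolynomial.monomial a.ex (QS.mk (cs e he F a))

theorem qQ_deg : (qQ e he F).totalDegree ≤ D := degree_sum_mon _

theorem qQ_coeff (m : Fin 4 →₀ ℕ) : (qQ e he F).coeff m ∈ Kn (B.Sj i0 e he) 1 le_rfl ⊥ := by
  unfold qQ
  rw [MvPolynomial.coeff_sum]
  apply sum_mem
  intro a _
  rw [MvPolynomial.coeff_monomial]
  split_ifs
  · rw [mem_Kn, dg_mk _ le_rfl, cs_const]
  · exact zero_mem _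

theorem qQ_const (m : Fin 4 →₀ ℕ) : QS.dg ((qQ e he F).coeff m) 1 = ⊥ :=
  le_antisymm (mem_Kn.mp (qQ_coeff e he F m)) bot_le

theorem ex_inj : Function.Injective (Mon.ex : Mon 4 D → Fin 4 →₀ ℕ) := by
  intro a b h
  apply Subtype.ext
  funext i
  apply Fin.ext
  exact DFunLike.congr_fun h i

theorem qQ_coeff_ex (a : Mon 4 D) : (qQ e he F).coeff a.ex = QS.mk (cs e he F a) := by
  unfold qQ
  rw [MvPolynomial.coeff_sum, Finset.sum_eq_single a]
  · rw [MvPolynomial.coeff_monomial, if_pos rfl]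
  · intro b _ hb
    rw [MvPolynomial.coeff_monomial, if_neg (fun h => hb (ex_inj h))]
  · intro h
    exact absurd (Finset.mem_univ _) h

/-- the form is not small on any event -/
theorem qQ_not (hle : B.lam i0 ≤ B.eta i0) (E : ∀ k, ((B.Sj i0 e he).F k).Ω → Prop)
    (hE : 0 < ul ((B.Sj i0 e he).pr E)) (d : ℝ) (hd : 0 < d) (hd1 : d ≤ 1) :
    ∃ m, QS.rest E hE ((qQ e he F).coeff m) ∉ Id ((B.Sj i0 e he).rest E) d := by
  by_contra hc
  push Not at hc
  obtain ⟨K, hK, hT⟩ := nr_small e he F hle (B.eta1 i0)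
  have h1 : ∀ a, QS.rest E hE (QS.mk (cs e he F a)) ∈ Id ((B.Sj i0 e he).rest E) d := fun a => by
    rw [← qQ_coeff_ex]; exact hc _
  have h2 : QS.mk (TR.rest E (∑ a, cs e he F a * cs e he F a)) ∈ Id ((B.Sj i0 e he).rest E) d := by
    rw [← QS.rest_mk E hE, map_sum, map_sum]
    apply sum_mem
    intro a _
    rw [map_mul, map_mul]
    exact Ideal.mul_mem_left _ _ (h1 a)
  refine not_small ?_ hd hd1 h2
  have h3 : Typ (S := B.Sj i0 e he) (fun k ω => 1 ≤ |(∑ a, cs e he F a * cs e he F a : TR (B.Sj i0 e he)).1 k ω|) := by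
    refine (typ_chg (B.V i0) e he hT).mono (Eventually.of_forall fun k ω _ hh => ?_)
    have e1 : (∑ a, cs e he F a * cs e he F a : TR (B.Sj i0 e he)).1 k ω =
        ∑ a, (cs e he F a).1 k ω * (cs e he F a).1 k ω := by
      have := map_sum (TR.evh (S := B.Sj i0 e he) k ω) (fun a => cs e he F a * cs e he F a) Finset.univ
      exact this
    have e2 : ∀ a, 0 ≤ (cs e he F a).1 k ω * (cs e he F a).1 k ω := fun a => mul_self_nonneg _
    obtain ⟨m, hm⟩ : ∃ m, m = ((bp B i0 k ω).mx (F.g k ω)).2 := ⟨_, rfl⟩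
    have e3 : |(cs e he F m).1 k ω| = 1 := by
      rw [hm]
      exact Bp.nr_one _ _ hh.1
    have e4 : (cs e he F m).1 k ω * (cs e he F m).1 k ω = 1 := by
      rw [← abs_mul_abs_self, e3, one_mul]
    rw [e1, abs_of_nonneg (Finset.sum_nonneg fun a _ => e2 a), ← e4]
    exact Finset.single_le_sum (f := fun a => (cs e he F a).1 k ω * (cs e he F a).1 k ω) (fun a _ => e2 a)
      (Finset.mem_univ m)
  exact h3.rest E hE

/-- the form vanishes at the point -/
theorem qQ_zero (hle : B.lam i0 ≤ B.eta i0) (hσ : e ≤ σ - B.eta i0) :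
    MvPolynomial.eval (fun i => QS.mk (bx B i0 e he i)) (qQ e he F) = 0 := by
  obtain ⟨K, hK, hT⟩ := nr_small e he F hle (B.eta1 i0)
  unfold qQ
  rw [eval_sum_mon]
  have h1 : ∑ m : Mon 4 D, QS.mk (cs e he F m) * ∏ i, QS.mk (bx B i0 e he i) ^ (m.1 i : ℕ) =
      QS.mk (∑ m : Mon 4 D, cs e he F m * ∏ i, bx B i0 e he i ^ (m.1 i : ℕ)) := by
    rw [map_sum]
    refine Finset.sum_congr rfl fun m _ => ?_
    rw [map_mul, map_prod]
    congr 1
  rw [h1, ← mem_Id_one, mk_mem_Id le_rfl]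
  refine ⟨_, K, typ_chg (B.V i0) e he hT, chg_sub (B.V i0) e he hK, ?_⟩
  filter_upwards [hK.1] with k hk0 ω _ hh
  have e1 : (∑ m : Mon 4 D, cs e he F m * ∏ i, bx B i0 e he i ^ (m.1 i : ℕ) : TR (B.Sj i0 e he)).1 k ω =
      (bp B i0 k ω).nr (F.g k ω) ⬝ᵥ vv (pb B i0 e he k ω) := by
    have e2 := map_sum (TR.evh (S := B.Sj i0 e he) k ω) (fun m => cs e he F m * ∏ i, bx B i0 e he i ^ (m.1 i : ℕ))
      Finset.univ
    refine e2.trans ?_
    unfold dotProduct
    refine Finset.sum_congr rfl fun m _ => ?_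
    rw [map_mul, map_prod, vv_apply]
    congr 1
  show |(∑ m : Mon 4 D, cs e he F m * ∏ i, bx B i0 e he i ^ (m.1 i : ℕ) : TR (B.Sj i0 e he)).1 k ω - 0| ≤
    K k * (B.Sj i0 e he).dl 1 k
  rw [sub_zero, e1, chg_dl, mul_one]
  exact hh.2.trans (mul_le_mul_of_nonneg_left (S.dl_anti hσ k) hk0)

end

end Pool.Agent.Helper46.LIN
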