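import Pool.Agent.Helper46.LIN.L1L
import Pool.Agent.Helper46.LIN.L1E
import Pool.Agent.Helper98.FR.Ex
import Pool.Agent.Helper80.MX.Cn
import Pool.Agent.Helper80.HCI.Lk

/-! The form of a window and the information facts in the box. -/

set_option autoImplicit false

namespace Pool.Agent.Helper46.LIN

open Finset Filter Topology Pool.Agent.Helper69.RK Pool.Agent.Helper31.EC Pool.Agent.Helper98.FR
open Pool.Agent.Helper40.EL Pool.Agent.Helper42.NS Pool.Agent.Helper91.GR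
open Pool.Agent.Helper89.LX Pool.Agent.Helper80.MX
open Pool.Agent.Helper3.LF (lb pl pl_zero pl_succ sp_dl sp_Sub sp_n gam Mon ad_sub typ_sub_ge)
open Pool.Agent.Helper95.LF (PdM)

noncomputable section

open Sp QS

/-- typical events under projections -/
theorem typ_dom {S : Sp} {l l' : Lab S} {P : ℕ → Prop} (hP : ∀ᶠ k in UF, P k)
    (r : ∀ k, P k → FPj (l' k).T (l k).T) {E : ∀ k, (l.sp.F k).Ω → Prop} (h : Typ (S := l.sp) E)
    {E' : ∀ k, (l'.sp.F k).Ω → Prop}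
    (hE : ∀ᶠ k in UF, ∀ (hk : P k) (ω : (l' k).T.Ω), (l' k).T.μ ω ≠ 0 → E k ((r k hk).π ω) → E' k ω) :
    Typ (S := l'.sp) E' := by
  have h1 := (Pool.Agent.Helper3.LF.typ_iff l E).mp h
  refine (Pool.Agent.Helper3.LF.typ_iff l' E').mpr ?_
  refine squeeze_zero' (Eventually.of_forall fun k => (l' k).T.pb_nonneg _) ?_ h1
  filter_upwards [hP, hE] with k hk hh
  have e1 := Pool.Agent.Helper42.NS.pb_comp (r k hk) (fun ω => ¬ E k ω)
  rw [← e1]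
  apply FSp.pb_mono
  intro ω hω a b
  exact a (hh hk ω hω b)

section form

variable {S : Sp} {s : Sys S 3} {q lam eta : ℕ → ℝ} {L : ℕ → Lab S} (b : Bx s q lam eta L) (i0 : ℕ)

theorem pt_bx (k : ℕ) (ω : (b.M.sp.F k).Ω) : pt b.bd k ω = ptf s k ((b.M k).p.π ω) := by
  funext i
  fin_cases i <;> rfl

/-- THE FORM OF A WINDOW -/
theorem fm_of_Hf {D : ℕ} {σ : ℝ} {A B : Part S} {x : ∀ k, FD (S.F k) (Mon 4 D)} (hx : (gau s D).Ad A B x)
    (hg : ∀ e : ℝ, 0 < e → Tendsto (fun k => (x k).l.T.pb (fun ω =>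
      ¬ 2 ^ (2 * (σ - e) * (S.F k).n) ≤ sga s D k ((x k).l.p.π ω) ((x k).g ω))) UF (𝓝 0))
    (hd : Dom (b.M.lab i0) (lb x)) : Nonempty (Fm b.bd i0 D σ) := by
  classical
  obtain ⟨P, hPdef⟩ : ∃ P : ℕ → Prop, P = fun k => ∃ r : FPj (b.M.lab i0 k).T ((lb x) k).T,
    (b.M.lab i0 k).V ≤ Setoid.comap r.π ((lb x) k).V ∧
      ∀ ω, (b.M.lab i0 k).T.μ ω ≠ 0 → (b.M.lab i0 k).p.π ω = ((lb x) k).p.π (r.π ω) := ⟨_, rfl⟩
  have hP : ∀ᶠ k in UF, P k := by rw [hPdef]; exact hd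
  have hP' : ∀ k, P k → ∃ r : FPj (b.M.lab i0 k).T ((lb x) k).T,
    (b.M.lab i0 k).V ≤ Setoid.comap r.π ((lb x) k).V ∧
      ∀ ω, (b.M.lab i0 k).T.μ ω ≠ 0 → (b.M.lab i0 k).p.π ω = ((lb x) k).p.π (r.π ω) := by
    intro k hk; rw [hPdef] at hk; exact hk
  choose r hr1 hr2 using hP'
  obtain ⟨g, hgd⟩ : ∃ g : ∀ k, (b.M.sp.F k).Ω → Matrix (Mon 4 D) (Mon 4 D) ℝ, g = fun k ω =>
    if hk : P k then (x k).g ((r k hk).π ω) else 0 := ⟨_, rfl⟩
  have ev : ∀ k (hk : P k) ω, g k ω = (x k).g ((r k hk).π ω) := fun k hk ω => by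
    rw [hgd]
    simp only
    rw [dif_pos hk]
  -- upper bound
  obtain ⟨K, hK, hT⟩ := ad_sub hx
  -- lower bound
  obtain ⟨K', hK', -, hT'⟩ := typ_sub_ge (S := (lb x).sp)
    (fun k (ω : (x k).l.T.Ω) => sga s D k ((x k).l.p.π ω) ((x k).g ω)) (2 * σ) (fun e he => by
      have h1 := hg (e / 2) (half_pos he)
      have h2 : ∀ k, 2 * (σ - e / 2) * (S.F k).n = (2 * σ - e) * ((lb x).sp.F k).n := fun k => by
        rw [sp_n]; ring
      refine (Pool.Agent.Helper3.LF.typ_iff (lb x) _).mpr ?_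
      refine h1.congr fun k => ?_
      rw [h2 k]
      rfl)
  refine ⟨⟨g, ?_, ?_, ⟨K, (sp_Sub (b.M.lab i0)).mpr hK, ?_⟩, ⟨K', (sp_Sub (b.M.lab i0)).mpr ((sp_Sub (lb x)).mp hK'), ?_⟩⟩⟩
  · filter_upwards [hP] with k hk ω ω' a b' c d
    rw [ev k hk, ev k hk]
    exact ((x k).meas _ _ ((r k hk).supp ω a) ((r k hk).supp ω' b') (hr1 k hk c) (((r k hk).hZ ω ω' a b').mp d)).1
  · filter_upwards [hP, hx 1 one_pos] with k hk ha ω hω
    rw [ev k hk]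
    have h1 := (ha.2.2.1 _ ((r k hk).supp ω hω)).1
    exact ⟨h1.1, fun y hy => h1.pd hy⟩
  · apply typ_dom (l := lb x) (l' := b.M.lab i0) hP r hT
    refine Eventually.of_forall fun k hk ω hω hh => ?_
    have e1 : b.M.sp.dl 1 k = S.dl 1 k := sp_dl (b.M.lab i0) 1 k
    have e2 : pt b.bd k ω = ptf s k ((x k).l.p.π ((r k hk).π ω)) := by
      rw [pt_bx]
      exact congrArg (ptf s k) (hr2 k hk ω hω)
    show Pool.Agent.Helper3.LF.phi (b.M.sp.dl 1 k) (g k ω) (pt b.bd k ω) ≤ K k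
    rw [e1, e2, ev k hk]
    exact hh
  · apply typ_dom (l := lb x) (l' := b.M.lab i0) hP r hT'
    refine Eventually.of_forall fun k hk ω hω hh => ?_
    have e1 : b.M.sp.dl 1 k = S.dl 1 k := sp_dl (b.M.lab i0) 1 k
    have e2 : pt b.bd k ω = ptf s k ((x k).l.p.π ((r k hk).π ω)) := by
      rw [pt_bx]
      exact congrArg (ptf s k) (hr2 k hk ω hω)
    have e3 : b.M.sp.dl (2 * σ) k = S.dl (2 * σ) k := sp_dl (b.M.lab i0) (2 * σ) k
    show 1 ≤ K' k * b.M.sp.dl (2 * σ) k * gam (b.M.sp.dl 1 k) (g k ω) (pt b.bd k ω)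
    rw [e1, e2, e3, ev k hk]
    have h1 : (2 : ℝ) ^ (2 * σ * (S.F k).n) ≤ K' k * sga s D k ((x k).l.p.π ((r k hk).π ω)) ((x k).g ((r k hk).π ω)) := by
      rw [sp_n] at hh
      exact hh
    have h2 : S.dl (2 * σ) k * 2 ^ (2 * σ * (S.F k).n) = 1 := by
      have h3 : S.dl (2 * σ) k = 2 ^ (-(2 * σ * (S.F k).n)) := rfl
      rw [h3, ← Real.rpow_add (by norm_num), neg_add_cancel, Real.rpow_zero]
    have h3 := mul_le_mul_of_nonneg_left h1 (S.dl_pos (2 * σ) k).le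
    rw [h2] at h3
    have e4 : sga s D k ((x k).l.p.π ((r k hk).π ω)) ((x k).g ((r k hk).π ω)) =
      gam (S.dl 1 k) ((x k).g ((r k hk).π ω)) (ptf s k ((x k).l.p.π ((r k hk).π ω))) := rfl
    rw [← e4]
    linarith

end form

end

end Pool.Agent.Helper46.LIN
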