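import Pool.Agent.Helper31.EC.Uns
import Pool.Agent.Helper97.SL.Rj
import Pool.Agent.Helper38.NS.Dep

/-! Extensions of a restricted space, and extensions of a space of smaller depth, come from extensions of the space. -/

set_option autoImplicit false

namespace Pool.Agent.Helper46.LIN

open Finset Filter Topology Pool.Agent.Helper69.RK Pool.Agent.Helper31.EC

noncomputable section

open Sp QS

section lift

variable {S W : Sp} {E : ∀ k, (S.F k).Ω → Prop}

open Classical in
/-- weight of the part over the event -/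
def lc (E : ∀ k, (S.F k).Ω → Prop) (k : ℕ) : ℝ := if (S.F k).pb (E k) = 0 then 1 else (S.F k).pb (E k)

open Classical in
/-- weights of the part over the complement -/
def lr (E : ∀ k, (S.F k).Ω → Prop) (k : ℕ) (ω : (S.F k).Ω) : ℝ :=
  if (S.F k).pb (E k) = 0 then 0 else res (S.F k).μ (fun ω => ¬ E k ω) ω

theorem lc_pos (k : ℕ) : 0 < lc E k := by
  unfold lc
  split_ifs with h
  · exact one_pos
  · exact lt_of_le_of_ne ((S.F k).pb_nonneg _) (Ne.symm h)

theorem lr_nonneg (k : ℕ) (ω : (S.F k).Ω) : 0 ≤ lr E k ω := by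
  unfold lr
  split_ifs with h
  · exact le_rfl
  · exact (S.F k).res_nonneg _ ω

theorem push_elim {A B C : Type} [Fintype A] [Fintype B] (f : A → C) (g : B → C) (μ : A → ℝ) (ν : B → ℝ) (x : C) :
    push (Sum.elim f g) (Sum.elim μ ν) x = push f μ x + push g ν x := by
  classical
  unfold push
  rw [Fintype.sum_sum_type]
  rfl

/-- the projection -/
def lp1 (p : Pj W (S.rest E)) (k : ℕ) : (W.F k).Ω → (S.F k).Ω := p.π k

def lp (p : Pj W (S.rest E)) (k : ℕ) : (W.F k).Ω ⊕ (S.F k).Ω → (S.F k).Ω := Sum.elim (lp1 p k) id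

theorem lp1_law (p : Pj W (S.rest E)) (k : ℕ) : push (lp1 p k) (W.F k).μ = (S.F k).restμ (E k) := p.law k

/-- the total law -/
theorem l_law (p : Pj W (S.rest E)) (k : ℕ) :
    push (lp p k) (Sum.elim (fun w => lc E k * (W.F k).μ w) (lr E k)) = (S.F k).μ := by
  classical
  funext ω
  unfold lp
  rw [push_elim]
  have h1 : push (lp1 p k) (fun w => lc E k * (W.F k).μ w) ω = lc E k * (S.F k).restμ (E k) ω := by
    rw [← lp1_law p k]
    unfold push
    rw [Finset.mul_sum]
    refine Finset.sum_congr rfl fun w _ => ?_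
    split_ifs
    · rfl
    · rw [mul_zero]
  have h3 : push id (lr E k) ω = lr E k ω := by
    unfold push
    rw [Finset.sum_eq_single ω]
    · exact if_pos rfl
    · intro b _ hb
      exact if_neg hb
    · intro h
      exact absurd (Finset.mem_univ _) h
  rw [h1, h3]
  unfold lc lr
  by_cases h0 : (S.F k).pb (E k) = 0
  · rw [if_pos h0, if_pos h0, (S.F k).restμ_eq' _ h0, one_mul, add_zero]
  · rw [if_neg h0, if_neg h0, (S.F k).restμ_eq _ h0, ← mul_assoc, mul_inv_cancel₀ h0, one_mul]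
    by_cases hE : E k ω
    · rw [res_pos _ _ _ hE, res_neg _ _ _ (fun h => h hE), add_zero]
    · rw [res_neg _ _ _ hE, res_pos _ (fun ω => ¬ E k ω) _ hE, zero_add]

theorem mass_push {A C : Type} [Fintype A] [Fintype C] (f : A → C) (μ : A → ℝ) : mass (push f μ) = mass μ := by
  classical
  unfold mass push
  rw [Finset.sum_comm]
  refine Finset.sum_congr rfl fun a _ => ?_
  rw [Finset.sum_ite_eq]
  simp

/-- the lifted space -/
def lift (p : Pj W (S.rest E)) : Sp where
  F := fun k => {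
    Ω := (W.F k).Ω ⊕ (S.F k).Ω
    ft := inferInstance
    μ := Sum.elim (fun w => lc E k * (W.F k).μ w) (lr E k)
    nn := by
      rintro (w | ω)
      · exact mul_nonneg (lc_pos k).le ((W.F k).nn w)
      · exact lr_nonneg k ω
    ms := by
      rw [← mass_push (lp p k), l_law p k]
      exact (S.F k).ms
    Z := Setoid.comap (lp p k) (S.F k).Z
    n := (S.F k).n
    pos := (S.F k).pos }
  lim := S.lim

/-- the projection of the lifted space -/
def liftP (p : Pj W (S.rest E)) : Pj (lift p) S where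
  π := lp p
  law := l_law p
  hZ := fun _ _ _ _ _ => Iff.rfl
  hn := fun _ => rfl

/-- the lifted event -/
def lE (p : Pj W (S.rest E)) (E2 : ∀ k, (W.F k).Ω → Prop) : ∀ k, ((lift p).F k).Ω → Prop :=
  fun k => Sum.elim (fun w => E2 k w ∨ (W.F k).pb (E2 k) = 0) (fun _ => False)

variable (p : Pj W (S.rest E)) (E2 : ∀ k, (W.F k).Ω → Prop)

omit p E2 in
theorem raw_res {A B : Type} (μ : A → ℝ) (ν : B → ℝ) (G : A → Prop) :
    res (Sum.elim μ ν) (Sum.elim G (fun _ => False)) = Sum.elim (res μ G) (fun _ => 0) := by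
  funext w
  rcases w with w | ω
  · show res (Sum.elim μ ν) (Sum.elim G (fun _ => False)) (Sum.inl w) = res μ G w
    by_cases h : G w
    · rw [res_pos _ _ _ h, res_pos _ (Sum.elim G (fun _ => False)) (Sum.inl w) h]
      rfl
    · rw [res_neg _ _ _ h, res_neg _ (Sum.elim G (fun _ => False)) (Sum.inl w) h]
  · exact res_neg _ _ _ (fun h => h)

omit p E2 in
theorem raw_mass {A B : Type} [Fintype A] [Fintype B] (μ : A → ℝ) : mass (Sum.elim μ (fun _ : B => 0)) = mass μ := by
  unfold mass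
  rw [Fintype.sum_sum_type]
  simp

omit p E2 in
theorem res_mul {A : Type} (μ : A → ℝ) (G : A → Prop) (c : ℝ) : res (fun w => c * μ w) G = fun w => c * res μ G w := by
  funext w
  by_cases h : G w
  · rw [res_pos _ _ _ h, res_pos _ _ _ h]
  · rw [res_neg _ _ _ h, res_neg _ _ _ h, mul_zero]

theorem lE_res (k : ℕ) : res ((lift p).F k).μ (lE p E2 k) =
    Sum.elim (fun w => lc E k * res (W.F k).μ (fun w => E2 k w ∨ (W.F k).pb (E2 k) = 0) w) (fun _ => 0) := by
  rw [← res_mul]
  exact raw_res _ _ _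

theorem lE_pb (k : ℕ) : ((lift p).F k).pb (lE p E2 k) =
    lc E k * (W.F k).pb (fun w => E2 k w ∨ (W.F k).pb (E2 k) = 0) := by
  unfold FSp.pb
  rw [lE_res]
  have h1 := raw_mass (B := (S.F k).Ω) (fun w => lc E k * res (W.F k).μ (fun w => E2 k w ∨ (W.F k).pb (E2 k) = 0) w)
  refine h1.trans ?_
  unfold mass
  rw [Finset.mul_sum]
  rfl

theorem l_or (k : ℕ) (h : (W.F k).pb (E2 k) ≠ 0) :
    (fun w => E2 k w ∨ (W.F k).pb (E2 k) = 0) = E2 k := by
  funext w
  exact propext (or_iff_left h)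

theorem l_or' (k : ℕ) (h : (W.F k).pb (E2 k) = 0) :
    (fun w => E2 k w ∨ (W.F k).pb (E2 k) = 0) = fun _ => True := by
  funext w
  exact propext ⟨fun _ => trivial, fun _ => Or.inr h⟩

theorem res_true {Ω : Type} (μ : Ω → ℝ) : res μ (fun _ => True) = μ := by
  funext ω
  exact res_pos _ _ _ trivial

theorem l_restμ (k : ℕ) : ((lift p).F k).restμ (lE p E2 k) =
    Sum.elim ((W.F k).restμ (E2 k)) (fun _ => 0) := by
  have hc := lc_pos (E := E) k
  by_cases h : (W.F k).pb (E2 k) = 0
  · have h1 : ((lift p).F k).pb (lE p E2 k) = lc E k := by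
      rw [lE_pb, l_or' E2 k h]
      unfold FSp.pb
      rw [res_true, (W.F k).ms, mul_one]
    rw [FSp.restμ_eq _ _ (by rw [h1]; exact hc.ne'), lE_res, h1, (W.F k).restμ_eq' _ h, l_or' E2 k h, res_true]
    funext w
    rcases w with w | ω
    · show (lc E k)⁻¹ * (lc E k * (W.F k).μ w) = (W.F k).μ w
      field_simp
    · show (lc E k)⁻¹ * 0 = (0 : ℝ)
      rw [mul_zero]
  · have h1 : ((lift p).F k).pb (lE p E2 k) = lc E k * (W.F k).pb (E2 k) := by
      rw [lE_pb, l_or E2 k h]
    rw [FSp.restμ_eq _ _ (by rw [h1]; exact mul_ne_zero hc.ne' h), lE_res, h1, (W.F k).restμ_eq _ h, l_or E2 k h]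
    funext w
    rcases w with w | ω
    · show (lc E k * (W.F k).pb (E2 k))⁻¹ * (lc E k * res (W.F k).μ (E2 k) w) = ((W.F k).pb (E2 k))⁻¹ * res (W.F k).μ (E2 k) w
      have := hc.ne'
      field_simp
    · show (lc E k * (W.F k).pb (E2 k))⁻¹ * 0 = (0 : ℝ)
      rw [mul_zero]

theorem push_inl {A B : Type} [Fintype A] [Fintype B] (μ : A → ℝ) :
    push (Sum.inl : A → A ⊕ B) μ = Sum.elim μ (fun _ => 0) := by
  classical
  funext w
  unfold push
  rcases w with w | ω
  · rw [Finset.sum_eq_single w]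
    · exact if_pos rfl
    · intro b _ hb
      exact if_neg (fun h => hb (Sum.inl_injective h))
    · intro h
      exact absurd (Finset.mem_univ _) h
  · exact Finset.sum_eq_zero fun b _ => if_neg (fun h => Sum.inl_ne_inr h)

/-- the comparison map -/
def lI : Pj (W.rest E2) ((lift p).rest (lE p E2)) where
  π := fun k => Sum.inl
  law := fun k => by
    show push Sum.inl ((W.F k).restμ (E2 k)) = ((lift p).F k).restμ (lE p E2 k)
    rw [l_restμ]
    exact push_inl _
  hZ := fun k ω ω' h h' => p.hZ k ω ω' ((W.F k).rest_supp _ ω h).1 ((W.F k).rest_supp _ ω' h').1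
  hn := p.hn

theorem l_ne (k : ℕ) : Nonempty (W.F k).Ω := by
  by_contra hc
  rw [not_nonempty_iff] at hc
  have h1 := (W.F k).ms
  unfold mass at h1
  rw [Finset.univ_eq_empty, Finset.sum_empty] at h1
  exact zero_ne_one h1

/-- the comparison map, backwards -/
def lJ : Pj ((lift p).rest (lE p E2)) (W.rest E2) where
  π := fun k => Sum.elim id (fun _ => (l_ne k).some)
  law := fun k => by
    classical
    show push (Sum.elim id (fun _ => (l_ne k).some)) (((lift p).F k).restμ (lE p E2 k)) = (W.F k).restμ (E2 k)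
    rw [l_restμ]
    funext w
    rw [push_elim]
    have h1 : push id ((W.F k).restμ (E2 k)) w = (W.F k).restμ (E2 k) w := by
      unfold push
      rw [Finset.sum_eq_single w]
      · exact if_pos rfl
      · intro b _ hb
        exact if_neg hb
      · intro h
        exact absurd (Finset.mem_univ _) h
    have h2 : push (fun _ : (S.F k).Ω => (l_ne (W := W) k).some) (fun _ => (0 : ℝ)) w = 0 := by
      unfold push
      apply Finset.sum_eq_zero
      intro b _
      split_ifs <;> rfl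
    rw [h1, h2, add_zero]
  hZ := fun k ω ω' h h' => by
    have e : ∀ ω, (((lift p).rest (lE p E2)).F k).μ ω ≠ 0 → ∃ w, ω = Sum.inl w ∧ (W.F k).μ w ≠ 0 := by
      intro ω h
      have h1 : Sum.elim ((W.F k).restμ (E2 k)) (fun _ => (0 : ℝ)) ω ≠ 0 := by
        rw [← l_restμ p E2 k]
        exact h
      rcases ω with w | ω
      · exact ⟨w, rfl, ((W.F k).rest_supp _ w h1).1⟩
      · exact absurd rfl h1
    obtain ⟨w, rfl, hw⟩ := e ω h
    obtain ⟨w', rfl, hw'⟩ := e ω' h'
    exact (p.hZ k w w' hw hw').symm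
  hn := fun k => (p.hn k).symm

theorem lI_lJ (y : (W.rest E2).L) : (lI p E2).map ((lJ p E2).map y) = y := by
  induction y using Sp.cl_ind with | _ A
  rw [Pj.map_cl, Pj.map_cl]
  congr 1

theorem lJ_lI (y : ((lift p).rest (lE p E2)).L) : (lJ p E2).map ((lI p E2).map y) = y :=
  (lI p E2).map_injective (lI_lJ p E2 _)

theorem lE_pos (hE : 0 < ul (S.pr E)) (hE2 : 0 < ul (W.pr E2)) : 0 < ul ((lift p).pr (lE p E2)) := by
  have h1 : ul ((lift p).pr (lE p E2)) = ul (fun k => S.pr E k * W.pr E2 k) := by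
    apply ul_congr
    have a1 := (ul_tendsto (UB_pr E)).eventually (lt_mem_nhds hE)
    have a2 := (ul_tendsto (UB_pr E2)).eventually (lt_mem_nhds hE2)
    filter_upwards [a1, a2] with k h1 h2
    show ((lift p).F k).pb (lE p E2 k) = (S.F k).pb (E k) * (W.F k).pb (E2 k)
    rw [lE_pb, l_or E2 k h2.ne']
    congr 1
    exact if_neg h1.ne'
  rw [h1, ul_mul (UB_pr E) (UB_pr E2)]
  exact mul_pos hE hE2

theorem l_map (hE : 0 < ul (S.pr E)) (hE2 : 0 < ul (W.pr E2)) (x : S.L) :
    (lI p E2).map (restL (lE p E2) (lE_pos p E2 hE hE2) ((liftP p).map x)) = restL E2 hE2 (p.map (restL E hE x)) := by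
  induction x using Sp.cl_ind with | _ A
  rfl

theorem l_qs (hE : 0 < ul (S.pr E)) (hE2 : 0 < ul (W.pr E2)) (f : QS S) :
    (lI p E2).qs (QS.rest (lE p E2) (lE_pos p E2 hE hE2) ((liftP p).qs f)) = QS.rest E2 hE2 (p.qs (QS.rest E hE f)) := by
  obtain ⟨f, rfl⟩ := mk_surj f
  rfl

/-- conditional entropies on the lifted event -/
theorem l_h (hE : 0 < ul (S.pr E)) (hE2 : 0 < ul (W.pr E2)) (x y : S.L) :
    h (restL E2 hE2 (p.map (restL E hE x))) (restL E2 hE2 (p.map (restL E hE y))) =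
      h (restL (lE p E2) (lE_pos p E2 hE hE2) ((liftP p).map x))
        (restL (lE p E2) (lE_pos p E2 hE hE2) ((liftP p).map y)) := by
  rw [← l_map, ← l_map, Pj.h_map]

/-- informations on the lifted event -/
theorem l_conn (hE : 0 < ul (S.pr E)) (hE2 : 0 < ul (W.pr E2)) {A B : S.L}
    (hc : ∀ V : ((lift p).rest (lE p E2)).L, V ≤ restL (lE p E2) (lE_pos p E2 hE hE2) ((liftP p).map A) →
      V ≤ restL (lE p E2) (lE_pos p E2 hE hE2) ((liftP p).map B) → V = ⊥)
    (V : (W.rest E2).L) (hA : V ≤ restL E2 hE2 (p.map (restL E hE A))) (hB : V ≤ restL E2 hE2 (p.map (restL E hE B))) :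
    V = ⊥ := by
  have h1 : (lJ p E2).map V = ⊥ := by
    apply hc
    · rw [← (lI p E2).map_le, lI_lJ, l_map]
      exact hA
    · rw [← (lI p E2).map_le, lI_lJ, l_map]
      exact hB
  rw [← lI_lJ p E2 V, h1, Pj.map_bot]

end lift

section depth

variable {S W : Sp} {κ : ℝ} {h0 : 0 < κ}

open Pool.Agent.Helper38.NS

/-- the comparison map of the restricted spaces -/
def dI (p : Pj W (dp S κ h0)) (E : ∀ k, (W.F k).Ω → Prop) : Pj (dp ((uS p).rest E) κ h0) (W.rest E) :=
  Pool.Agent.Helper97.SL.rj (uI p) E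

theorem d_map (p : Pj W (dp S κ h0)) (E : ∀ k, (W.F k).Ω → Prop) (hE : 0 < ul (W.pr E)) (x : S.L) :
    (dI p E).map (restL E hE (p.map (dL κ h0 x))) = dL κ h0 (restL (S := uS p) E hE ((uP p).map x)) := by
  induction x using Sp.cl_ind with | _ A
  rfl

theorem dL_surj {T : Sp} (y : (dp T κ h0).L) : ∃ x : T.L, dL κ h0 x = y := by
  induction y using Sp.cl_ind with | _ A
  obtain ⟨A, hA⟩ := A
  have h1 : T.VB A := by
    obtain ⟨C, hC⟩ := hA
    refine ⟨C * κ, ?_⟩
    filter_upwards [hC] with k hk ω hω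
    have h2 := hk ω hω
    have h3 : nv ((dp T κ h0).F k) (A k) ω = nv (T.F k) (A k) ω := by
      unfold nv
      apply nvf_eq
      intro a
      constructor
      · rintro ⟨ω', a1, a2, a3⟩
        exact ⟨ω', a1, Quotient.sound (Quotient.exact a2).2, a3⟩
      · rintro ⟨ω', a1, a2, a3⟩
        exact ⟨ω', a1, Quotient.sound ⟨trivial, Quotient.exact a2⟩, a3⟩
    rw [h3] at h2
    rw [mul_assoc]
    exact h2
  exact ⟨cl ⟨A, h1⟩, rfl⟩

theorem d_h (p : Pj W (dp S κ h0)) (E : ∀ k, (W.F k).Ω → Prop) (hE : 0 < ul (W.pr E)) (x y : S.L) :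
    h (restL E hE (p.map (dL κ h0 x))) (restL E hE (p.map (dL κ h0 y))) =
      h (restL (S := uS p) E hE ((uP p).map x)) (restL (S := uS p) E hE ((uP p).map y)) / κ := by
  rw [← (dI p E).h_map, d_map, d_map, dL_h]

theorem d_conn (p : Pj W (dp S κ h0)) (E : ∀ k, (W.F k).Ω → Prop) (hE : 0 < ul (W.pr E)) {A B : S.L}
    (hc : ∀ V : ((uS p).rest E).L, V ≤ restL (S := uS p) E hE ((uP p).map A) →
      V ≤ restL (S := uS p) E hE ((uP p).map B) → V = ⊥)
    (V : (W.rest E).L) (hA : V ≤ restL E hE (p.map (dL κ h0 A))) (hB : V ≤ restL E hE (p.map (dL κ h0 B))) :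
    V = ⊥ := by
  obtain ⟨V', hV'⟩ := dL_surj ((dI p E).map V)
  have h1 : V' = ⊥ := by
    apply hc
    · rw [← dL_le κ h0, hV', ← d_map, (dI p E).map_le]
      exact hA
    · rw [← dL_le κ h0, hV', ← d_map, (dI p E).map_le]
      exact hB
  rw [h1, dL_bot] at hV'
  apply (dI p E).map_injective
  rw [← hV', Pj.map_bot]

end depth

end

end Pool.Agent.Helper46.LIN
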