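import Pool.Agent.Helper46.LIN.Def
import Pool.Agent.Helper46.LIN.Lift
import Pool.Agent.Helper19.SP.MvU
import Pool.Agent.Helper50.CV.Power

/-! The hypotheses of LIN on an event and at a smaller depth. -/

set_option autoImplicit false

namespace Pool.Agent.Helper46.LIN

open Finset Filter Topology Pool.Agent.Helper69.RK Pool.Agent.Helper31.EC

noncomputable section

open Sp QS Pool.Agent.Helper38.NS

section levels

variable {S : Sp}

/-- lower levels of a real variable -/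
theorem h_dg_real {x : QS S} {A : S.L} (hx : h (dg x 1) A = 1) {r : ℝ} (h0 : 0 ≤ r) (h1 : r ≤ 1) :
    h (dg x r) A = r := by
  apply le_antisymm ((h_le_H _ _).trans (H_dg_le x h0))
  have e1 : dg x r ⊔ dg x 1 = dg x 1 := sup_eq_right.mpr (dg_mono x h1)
  have e2 := h_chain (dg x r) (dg x 1) A
  rw [e1, hx] at e2
  have e3 : h (dg x 1) (dg x r ⊔ A) ≤ h (dg x 1) (dg x r) := h_anti le_sup_left
  have e4 := h_dg_dg x h1
  linarith

/-- lower levels of a real family -/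
theorem h_vd_real {ι : Type} [Fintype ι] {x : ι → QS S} {A : S.L} (hx : Rl x A) {r : ℝ} (h0 : 0 ≤ r) (h1 : r ≤ 1) :
    h (vd x r) A = Fintype.card ι * r := by
  apply le_antisymm
  · refine (h_finsup_le _ _ A).trans ?_
    calc ∑ i, h (dg (x i) r) A ≤ ∑ _i : ι, r :=
          Finset.sum_le_sum fun i _ => (h_le_H _ _).trans (H_dg_le (x i) h0)
      _ = Fintype.card ι * r := by simp
  · have e1 : vd x r ⊔ vd x 1 = vd x 1 := by
      apply sup_eq_right.mpr
      rw [vd_le]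
      intro i
      exact (dg_mono (x i) h1).trans (dg_le_vd x 1 i)
    have e2 := h_chain (vd x r) (vd x 1) A
    rw [e1, hx] at e2
    have e3 : h (vd x 1) (vd x r ⊔ A) ≤ Fintype.card ι * (1 - r) := by
      refine (h_finsup_le _ _ _).trans ?_
      calc ∑ i, h (dg (x i) 1) (vd x r ⊔ A) ≤ ∑ _i : ι, (1 - r) := by
            refine Finset.sum_le_sum fun i _ => ?_
            refine le_trans ?_ (h_dg_dg (x i) h1)
            exact h_anti ((dg_le_vd x r i).trans le_sup_left)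
        _ = Fintype.card ι * (1 - r) := by rw [Finset.sum_const, Finset.card_univ, nsmul_eq_mul]
    linarith

end levels

/-- the three coordinates of the base point -/
def LD.M {S : Sp} (l : LD S) : Fin 3 → QS S := ![l.t, l.y, l.R]

theorem vd_three {S : Sp} (f g k : QS S) (r : ℝ) : vd ![f, g, k] r = dg f r ⊔ dg g r ⊔ dg k r := by
  apply le_antisymm
  · rw [vd_le]
    intro i
    fin_cases i
    · exact le_sup_left.trans le_sup_left
    · exact le_sup_right.trans le_sup_left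
    · exact le_sup_right
  · exact sup_le (sup_le (dg_le_vd ![f, g, k] r 0) (dg_le_vd ![f, g, k] r 1)) (dg_le_vd ![f, g, k] r 2)

theorem LH.rl {S : Sp} {l : LD S} (hl : LH l) : Rl l.M ⊥ := by
  unfold Rl LD.M
  rw [vd_three, hl.full, Fintype.card_fin]
  norm_num

section sub

variable {S : Sp} (E : ∀ k, (S.F k).Ω → Prop) (hE : 0 < ul (S.pr E)) (κ : ℝ) (h0 : 0 < κ) (h1 : κ ≤ 1)

/-- functions on an event at smaller depth -/
def phi : QS S →+* QS (dp (S.rest E) κ h0) := (dQ κ h0 h1).comp (QS.rest E hE)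

theorem phi_dg (f : QS S) {r : ℝ} (hr : r ≤ 1) :
    dg (phi E hE κ h0 h1 f) r = dL κ h0 (restL E hE (dg f (κ * r))) := by
  show dg (dQ κ h0 h1 (QS.rest E hE f)) r = _
  rw [dQ_dg κ h0 h1 _ hr, QS.rest_dg]

theorem phi_one_le (f : QS S) {A : S.L} (hf : dg f 1 ≤ A) :
    dg (phi E hE κ h0 h1 f) 1 ≤ dL κ h0 (restL E hE A) := by
  rw [phi_dg E hE κ h0 h1 f le_rfl]
  apply dL_mono
  apply restL_mono
  exact (dg_mono f (by rw [mul_one]; exact h1)).trans hf

theorem phi_zero (f : QS S) : phi E hE κ h0 h1 f = 0 ↔ QS.rest E hE f ∈ Id (S.rest E) κ := dQ_eq_zero κ h0 h1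

/-- data on an event at smaller depth -/
def LD.sub (l : LD S) : LD (dp (S.rest E) κ h0) where
  t := phi E hE κ h0 h1 l.t
  x := phi E hE κ h0 h1 l.x
  a := phi E hE κ h0 h1 l.a
  y := phi E hE κ h0 h1 l.y
  X := phi E hE κ h0 h1 l.X
  c := phi E hE κ h0 h1 l.c
  R := phi E hE κ h0 h1 l.R
  v := phi E hE κ h0 h1 l.v
  e := phi E hE κ h0 h1 l.e
  z := phi E hE κ h0 h1 l.z
  k0 := phi E hE κ h0 h1 l.k0
  k1 := phi E hE κ h0 h1 l.k1
  iL := dL κ h0 (restL E hE l.iL)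
  B := dL κ h0 (restL E hE l.B)

theorem LD.sub_P (l : LD S) : (l.sub E hE κ h0 h1).P = fun i => phi E hE κ h0 h1 (l.P i) := by
  funext i
  fin_cases i <;> rfl

theorem LH.sub {l : LD S} (hl : LH l) : LH (l.sub E hE κ h0 h1) where
  hy := by
    show phi E hE κ h0 h1 l.y = phi E hE κ h0 h1 l.a + phi E hE κ h0 h1 l.t * phi E hE κ h0 h1 l.x
    rw [hl.hy, map_add, map_mul]
  hR := by
    show phi E hE κ h0 h1 l.R = phi E hE κ h0 h1 l.c + phi E hE κ h0 h1 l.t * phi E hE κ h0 h1 l.X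
    rw [hl.hR, map_add, map_mul]
  hz := by
    show phi E hE κ h0 h1 l.z = phi E hE κ h0 h1 l.e + phi E hE κ h0 h1 l.t * phi E hE κ h0 h1 l.v
    rw [hl.hz, map_add, map_mul]
  hX := by
    show phi E hE κ h0 h1 l.X = phi E hE κ h0 h1 l.k0 + phi E hE κ h0 h1 l.k1 * phi E hE κ h0 h1 l.x
    rw [hl.hX, map_add, map_mul]
  La := phi_one_le E hE κ h0 h1 _ hl.La
  Lx := phi_one_le E hE κ h0 h1 _ hl.Lx
  Lc := phi_one_le E hE κ h0 h1 _ hl.Lc
  LX := phi_one_le E hE κ h0 h1 _ hl.LX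
  Lv := phi_one_le E hE κ h0 h1 _ hl.Lv
  Le := phi_one_le E hE κ h0 h1 _ hl.Le
  Bt := phi_one_le E hE κ h0 h1 _ hl.Bt
  By := phi_one_le E hE κ h0 h1 _ hl.By
  BR := phi_one_le E hE κ h0 h1 _ hl.BR
  Bz := phi_one_le E hE κ h0 h1 _ hl.Bz
  Bk0 := phi_one_le E hE κ h0 h1 _ hl.Bk0
  Bk1 := phi_one_le E hE κ h0 h1 _ hl.Bk1
  time := by
    show h (dg (phi E hE κ h0 h1 l.t) 1) (dL κ h0 (restL E hE l.iL)) = 1
    rw [phi_dg E hE κ h0 h1 _ le_rfl, dL_h, mul_one]
    have e1 : h (restL E hE (dg l.t 1)) (restL E hE l.iL) = 1 := by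
      apply Sp.h_rest_max E hE hl.time
      intro E' hE'
      rw [← QS.rest_dg]
      exact h_dg_le_one _ _
    rw [← QS.rest_dg] at e1 ⊢
    rw [h_dg_real e1 h0.le h1, div_self h0.ne']
  conn := by
    intro W p E' hE' V hA hB
    refine d_conn p E' hE' (A := restL E hE l.iL) (B := restL E hE l.B) ?_ V hA hB
    intro V' hA' hB'
    refine l_conn (uP p) E' hE hE' (A := l.iL) (B := l.B) ?_ V' hA' hB'
    intro V'' hA'' hB''
    exact hl.conn _ (liftP (uP p)) _ _ V'' hA'' hB''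
  rich := by
    intro W p E' hE' r hr0 hr1
    show 0 < h (restL E' hE' (p.map (dg (phi E hE κ h0 h1 l.x) r))) (restL E' hE' (p.map (dL κ h0 (restL E hE l.B))))
    rw [phi_dg E hE κ h0 h1 _ hr1, d_h]
    apply div_pos _ h0
    have e1 := l_h (uP p) E' hE hE' (dg l.x (κ * r)) l.B
    have e2 := hl.rich _ (liftP (uP p)) _ (lE_pos (uP p) E' hE hE') (κ * r) (mul_pos h0 hr0)
      (mul_le_one₀ h1 hr0.le hr1)
    rw [← e1] at e2
    exact e2
  full := by
    show h (dg (phi E hE κ h0 h1 l.t) 1 ⊔ dg (phi E hE κ h0 h1 l.y) 1 ⊔ dg (phi E hE κ h0 h1 l.R) 1) ⊥ = 3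
    have e1 : Rl (fun i => QS.rest E hE (l.M i)) (restL E hE ⊥) := hl.rl.rest E hE
    rw [restL_bot] at e1
    have e2 := h_vd_real e1 h0.le h1
    rw [QS.rest_vd] at e2
    have e3 : vd l.M κ = dg l.t κ ⊔ dg l.y κ ⊔ dg l.R κ := vd_three _ _ _ _
    rw [phi_dg E hE κ h0 h1 _ le_rfl, phi_dg E hE κ h0 h1 _ le_rfl, phi_dg E hE κ h0 h1 _ le_rfl, ← dL_sup, ← dL_sup,
      ← restL_sup, ← restL_sup, mul_one, ← e3, ← dL_bot κ h0, dL_h, e2, Fintype.card_fin]
    have := h0.ne'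
    field_simp
    norm_num

end sub

end

end Pool.Agent.Helper46.LIN
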